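import Pool.Agent.H19.EN.Loc

/-!
# Module Avg: closeness in `L¹`

`E v = exp(-k|v-b|²)`, `h = G/E`, `B` the ball of radius `R`, `h̄ = (∫_B h)/|B|`. `∫_B |h - h̄| ≤ (1/|B|) ∫∫_{B×B} |h(v) - h(w)| ≤ C_R X/|B| =: D` (`loc`; `h v - h̄ = (1/|B|) ∫_B (h v - h w) dw`). On `B`: `|G - h̄ E| = E |h - h̄| ≤ |h - h̄|`, so `∫_B |G - h̄E| ≤ D`.
`(a - h̄) ∫_B E = ∫_B mx - ∫_B G + ∫_B (G - h̄ E)`, so `|a - h̄| ∫_B E ≤ |M - m0 G| + ∫_{Bᶜ} mx + ∫_{Bᶜ} G + D`. `∫_B |G - mx| ≤ D + |a - h̄| ∫_B E`, `∫_{Bᶜ} |G - mx| ≤ ∫_{Bᶜ} G + ∫_{Bᶜ} mx`.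
First choose `R ≥ 1` with `∫_{Bᶜ} G ≤ ε/8` for ALL `G ≤ S Wp (d+10)` (`G ≤ max S 0 · Wp (d+10)`, `Wp (d+10) v ≤ C (1+R)⁻¹ wt d v` for `‖v‖ > R`: `Wp (d+10) v ≤ 2^(d+10) (1+‖v‖)^(-(2d+20))`, see the proof of `ReS` or `re_small` in H48/NE/ReB.lean for a tail) and `∫_{Bᶜ} mx ≤ ε/8` (the same with `mx ≤ C Wp (d+10)`, `mx_nice`). Total `≤ 2 D + η + ε/2 ≤ ε` if `η (2 C_R/|B| + 1) ≤ ε/2`.
(In the proof `h̄` is replaced by a value `c = h v₀` with `∫_B |h v₀ - h| ≤ D`.)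
-/

set_option autoImplicit false

open MeasureTheory Set Filter Topology Pool.Agent.H25.Kin
open Pool.Agent.H48.PR (Wp)
open Pool.Agent.H48.NE (mx)

namespace Pool.Agent.H19.EN

variable {d : ℕ}

private lemma Avg_wt (v : Vec d) : wt d v * (1 + ‖v‖)⁻¹ = ((1 + ‖v‖) ^ (d + 2))⁻¹ := by
  unfold wt
  rw [← mul_inv, ← pow_succ]

private lemma Avg_Wp (v : Vec d) :
    Wp (d + 10) v ≤ 2 ^ (d + 10) * (wt d v * (1 + ‖v‖)⁻¹) := by
  have h1 := one_le_w v
  have hn := norm_sq_le_sq v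
  have hs := sq_nonneg' v
  have h2 : (1 + ‖v‖) ^ 2 ≤ 2 * (1 + nsq v) := by nlinarith [sq_nonneg (‖v‖ - 1)]
  have h3 : (1 + ‖v‖) ^ (d + 2) ≤ 2 ^ (d + 10) * (1 + nsq v) ^ (d + 10) := by
    calc (1 + ‖v‖) ^ (d + 2) ≤ (1 + ‖v‖) ^ (2 * (d + 10)) := pow_le_pow_right₀ h1 (by omega)
      _ = ((1 + ‖v‖) ^ 2) ^ (d + 10) := by rw [pow_mul]
      _ ≤ (2 * (1 + nsq v)) ^ (d + 10) := pow_le_pow_left₀ (by positivity) h2 _
      _ = _ := by rw [mul_pow]
  have h4 : (0 : ℝ) < (1 + nsq v) ^ (d + 10) := by positivity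
  have h5 : (0 : ℝ) < (1 + ‖v‖) ^ (d + 2) := by positivity
  rw [Avg_wt]
  unfold Pool.Agent.H48.PR.Wp
  rw [← div_eq_mul_inv, le_div_iff₀ h5, inv_mul_le_iff₀ h4]
  linarith

private lemma Avg_tail {A ε : ℝ} (hA : 0 ≤ A) (hε : 0 < ε) : ∃ R₀ : ℝ, 1 ≤ R₀ ∧ ∀ R ≥ R₀,
    ∀ G : Vec d → ℝ, Continuous G → (∀ v, 0 ≤ G v) →
      (∀ v, G v ≤ A * (wt d v * (1 + ‖v‖)⁻¹)) →
      Integrable G ∧ ∫ v in (Metric.closedBall (0 : Vec d) R)ᶜ, G v ≤ ε := by
  have hw := integrable_wt (d := d)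
  have hW0 : 0 ≤ ∫ v, wt d v := integral_nonneg wt_nonneg
  refine ⟨max 1 (A * (∫ v, wt d v) / ε), le_max_left _ _, fun R hR G hc h0 hle => ?_⟩
  have hR1 : 1 ≤ R := (le_max_left _ _).trans hR
  have hR2 : A * (∫ v, wt d v) ≤ R * ε := by
    have := (le_max_right _ _).trans hR
    rwa [div_le_iff₀ hε] at this
  have hin : Integrable G := by
    refine (hw.const_mul A).mono' hc.aestronglyMeasurable (Eventually.of_forall fun v => ?_)
    rw [Real.norm_eq_abs, abs_of_nonneg (h0 v)]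
    refine (hle v).trans (mul_le_mul_of_nonneg_left ?_ hA)
    exact mul_le_of_le_one_right (wt_nonneg v) (inv_le_one_of_one_le₀ (one_le_w v))
  refine ⟨hin, ?_⟩
  calc ∫ v in (Metric.closedBall (0 : Vec d) R)ᶜ, G v
      ≤ ∫ v in (Metric.closedBall (0 : Vec d) R)ᶜ, A * R⁻¹ * wt d v := by
        refine setIntegral_mono_on hin.integrableOn (hw.const_mul _).integrableOn
          Metric.isClosed_closedBall.measurableSet.compl fun v hv => ?_
        have hvR : R < ‖v‖ := by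
          rw [mem_compl_iff, mem_closedBall_zero_iff, not_le] at hv
          exact hv
        have h3 : (1 + ‖v‖)⁻¹ ≤ R⁻¹ := inv_anti₀ (by linarith) (by linarith)
        have h4 := wt_nonneg v
        calc G v ≤ A * (wt d v * (1 + ‖v‖)⁻¹) := hle v
          _ ≤ A * (wt d v * R⁻¹) := by gcongr
          _ = _ := by ring
    _ ≤ ∫ v, A * R⁻¹ * wt d v :=
        setIntegral_le_integral (hw.const_mul _) (Eventually.of_forall fun v => by
          have h4 := wt_nonneg v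
          change 0 ≤ A * R⁻¹ * wt d v
          positivity)
    _ = A * (∫ v, wt d v) * R⁻¹ := by rw [integral_const_mul]; ring
    _ ≤ ε := by
        rw [← div_eq_mul_inv, div_le_iff₀ (by linarith)]
        linarith

/-- uniform tails -/
theorem tail (S : ℝ) {ε : ℝ} (hε : 0 < ε) : ∃ R₀ : ℝ, 1 ≤ R₀ ∧ ∀ R ≥ R₀, ∀ G : Vec d → ℝ, Continuous G →
    (∀ v, 0 ≤ G v) → (∀ v, G v ≤ S * Wp (d + 10) v) →
      Integrable G ∧ ∫ v in (Metric.closedBall (0 : Vec d) R)ᶜ, G v ≤ ε := by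
  obtain ⟨R₀, h1, h2⟩ := Avg_tail (d := d) (A := max S 0 * 2 ^ (d + 10)) (by positivity) hε
  refine ⟨R₀, h1, fun R hR G hc h0 hle => h2 R hR G hc h0 fun v => ?_⟩
  have hW : 0 ≤ Wp (d + 10) v := by
    unfold Pool.Agent.H48.PR.Wp
    have hs := sq_nonneg' v
    positivity
  calc G v ≤ S * Wp (d + 10) v := hle v
    _ ≤ max S 0 * Wp (d + 10) v := mul_le_mul_of_nonneg_right (le_max_left _ _) hW
    _ ≤ max S 0 * (2 ^ (d + 10) * (wt d v * (1 + ‖v‖)⁻¹)) :=
        mul_le_mul_of_nonneg_left (Avg_Wp v) (le_max_right _ _)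
    _ = _ := by ring

/-- a good value of `h` on the ball -/
private lemma Avg_pt {R D : ℝ} (hR : 0 < R) {h : Vec d → ℝ} (hc : Continuous h)
    (hD : ∫ p in Metric.closedBall (0 : Vec d) R ×ˢ Metric.closedBall (0 : Vec d) R,
      |h p.1 - h p.2| ≤ D) :
    ∃ v₀, ∫ w in Metric.closedBall (0 : Vec d) R, |h v₀ - h w| ≤
      D / volume.real (Metric.closedBall (0 : Vec d) R) := by
  have hcB : IsCompact (Metric.closedBall (0 : Vec d) R) := isCompact_closedBall 0 R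
  have hV : 0 < volume (Metric.closedBall (0 : Vec d) R) := Metric.measure_closedBall_pos _ _ hR
  have hVt : volume (Metric.closedBall (0 : Vec d) R) ≠ ⊤ := hcB.measure_lt_top.ne
  have hVr : 0 < volume.real (Metric.closedBall (0 : Vec d) R) := ENNReal.toReal_pos hV.ne' hVt
  have hint : IntegrableOn (fun p : Vec d × Vec d => |h p.1 - h p.2|)
      (Metric.closedBall (0 : Vec d) R ×ˢ Metric.closedBall (0 : Vec d) R) volume := by
    have h1 : Continuous (fun p : Vec d × Vec d => |h p.1 - h p.2|) :=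
      ((hc.comp continuous_fst).sub (hc.comp continuous_snd)).abs
    exact h1.continuousOn.integrableOn_compact (hcB.prod hcB)
  rw [Measure.volume_eq_prod] at hint hD
  rw [setIntegral_prod _ hint] at hD
  have hF : IntegrableOn (fun v => ∫ w in Metric.closedBall (0 : Vec d) R, |h v - h w|)
      (Metric.closedBall (0 : Vec d) R) volume := by
    unfold IntegrableOn at hint ⊢
    rw [← Measure.prod_restrict] at hint
    exact hint.integral_prod_left
  obtain ⟨v₀, -, hv⟩ := exists_le_setAverage hV.ne' hVt hF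
  refine ⟨v₀, hv.trans ?_⟩
  rw [setAverage_eq, smul_eq_mul, inv_mul_eq_div]
  exact div_le_div_of_nonneg_right hD hVr.le

theorem avg {a k : ℝ} (ha : 0 < a) (hk : 0 < k) (b : Vec d) (S : ℝ) {K ε : ℝ} (hK : 0 ≤ K) (hε : 0 < ε) :
    ∃ η > 0, ∀ G : Vec d → ℝ, Rg G → (∀ v, G v ≤ S * Wp (d + 10) v) → ∫ v, G v * wv v ≤ K →
      |m0 G - ∫ v, mx a k b v| ≤ η →
      (∀ j, ∫ v, G v * (wv v)⁻¹ * (lg G j v + 2 * k * (v j - b j)) ^ 2 ≤ η ^ 2) →
        ∫ v, |G v - mx a k b v| ≤ ε := by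
  have hμn := Pool.Agent.H48.NE.mx_nice ha hk b
  obtain ⟨Cm, hCm0, hCm⟩ := hμn.rd.bound (d + 2)
  have hμ0 : ∀ v, 0 ≤ mx a k b v := fun v => (Pool.Agent.H48.NE.mx_pos ha b v).le
  have hμle : ∀ v, mx a k b v ≤ Cm * (wt d v * (1 + ‖v‖)⁻¹) := fun v => by
    rw [Avg_wt]
    exact (le_abs_self _).trans (hCm v)
  obtain ⟨R₁, h1, hR₁⟩ := Avg_tail (d := d) hCm0 (ε := ε / 8) (by positivity)
  obtain ⟨R₂, h2, hR₂⟩ := tail (d := d) S (ε := ε / 8) (by positivity)
  obtain ⟨R, hR⟩ : ∃ R : ℝ, R = max R₁ R₂ := ⟨_, rfl⟩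
  have hRR₁ : R ≥ R₁ := hR ▸ le_max_left _ _
  have hRR₂ : R ≥ R₂ := hR ▸ le_max_right _ _
  have hR0 : 0 < R := by linarith
  obtain ⟨C, hC, hloc⟩ := loc (d := d) hk hR0 b hK
  obtain ⟨V, hV⟩ : ∃ V : ℝ, V = volume.real (Metric.closedBall (0 : Vec d) R) := ⟨_, rfl⟩
  have hV0 : 0 < V := by
    rw [hV]
    exact ENNReal.toReal_pos (Metric.measure_closedBall_pos _ _ hR0).ne'
      (isCompact_closedBall 0 R).measure_lt_top.ne
  obtain ⟨η, hη⟩ : ∃ η : ℝ, η = ε / 2 / (2 * (C / V) + 1) := ⟨_, rfl⟩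
  have hη0 : 0 < η := by
    rw [hη]
    positivity
  have hηe : η * (2 * (C / V) + 1) = ε / 2 := by
    rw [hη]
    have : (2 * (C / V) + 1) ≠ 0 := by positivity
    field_simp
  refine ⟨η, hη0, fun G hG hGS hGK hm hX => ?_⟩
  have hGc : Continuous G := hG.nice.cont
  have hG0 : ∀ v, 0 ≤ G v := fun v => (hG.pos v).le
  obtain ⟨hGi, hGt⟩ := hR₂ R hRR₂ G hGc hG0 hGS
  obtain ⟨hμi, hμt⟩ := hR₁ R hRR₁ (mx a k b) hμn.cont hμ0 hμle
  have hnc : Continuous fun v : Vec d => nsq (v - b) :=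
    continuous_sq.comp (continuous_id.sub continuous_const)
  have hEc : Continuous fun v : Vec d => Real.exp (-(k * nsq (v - b))) :=
    (continuous_const.mul hnc).neg.rexp
  have hhc : Continuous fun v : Vec d => G v * Real.exp (k * nsq (v - b)) :=
    hGc.mul (continuous_const.mul hnc).rexp
  obtain ⟨v₀, hv₀⟩ := Avg_pt hR0 hhc (hloc G hG hGK η hη0.le hX)
  rw [← hV] at hv₀
  obtain ⟨c, hc⟩ : ∃ c : ℝ, c = G v₀ * Real.exp (k * nsq (v₀ - b)) := ⟨_, rfl⟩
  simp only [← hc] at hv₀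
  obtain ⟨E, hE⟩ : ∃ E : Vec d → ℝ, E = fun v => Real.exp (-(k * nsq (v - b))) := ⟨_, rfl⟩
  rw [← hE] at hEc
  have hE0 : ∀ v, 0 < E v := fun v => by
    rw [hE]
    exact Real.exp_pos _
  have hE1 : ∀ v, E v ≤ 1 := fun v => by
    rw [hE]
    refine Real.exp_le_one_iff.2 ?_
    have := sq_nonneg' (v - b)
    have : 0 ≤ k * nsq (v - b) := by positivity
    linarith
  have hμE : ∀ v, mx a k b v = a * E v := fun v => by
    rw [hE]
    rfl
  have hGE : ∀ v, G v = E v * (G v * Real.exp (k * nsq (v - b))) := fun v => by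
    rw [hE]
    have : Real.exp (-(k * nsq (v - b))) * Real.exp (k * nsq (v - b)) = 1 := by
      rw [← Real.exp_add, neg_add_cancel, Real.exp_zero]
    calc G v = G v * 1 := (mul_one _).symm
      _ = _ := by rw [← this]; ring
  have hEi : Integrable E := by
    refine (hμi.const_mul a⁻¹).congr (Eventually.of_forall fun v => ?_)
    simp only [hμE]
    rw [← mul_assoc, inv_mul_cancel₀ ha.ne', one_mul]
  obtain ⟨B, hB⟩ : ∃ B : Set (Vec d), B = Metric.closedBall (0 : Vec d) R := ⟨_, rfl⟩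
  rw [← hB] at hv₀ hGt hμt
  have hBm : MeasurableSet B := hB ▸ Metric.isClosed_closedBall.measurableSet
  have hBc : IsCompact B := hB ▸ isCompact_closedBall 0 R
  have hJ : ∫ v in B, |G v - c * E v| ≤ C * η / V := by
    refine le_trans (setIntegral_mono_on (hGi.sub (hEi.const_mul c)).abs.integrableOn
      ((continuous_const.sub hhc).abs.continuousOn.integrableOn_compact hBc) hBm
      fun v _ => ?_) hv₀
    change |G v - c * E v| ≤ |c - G v * Real.exp (k * nsq (v - b))|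
    have e1 : G v - c * E v = E v * (G v * Real.exp (k * nsq (v - b)) - c) := by
      conv_lhs => rw [hGE v]
      ring
    rw [e1, abs_mul, abs_of_pos (hE0 v), abs_sub_comm]
    exact mul_le_of_le_one_left (abs_nonneg _) (hE1 v)
  have hJ2 : |∫ v in B, (G v - c * E v)| ≤ C * η / V :=
    (abs_integral_le_integral_abs).trans hJ
  have s1 : ∫ v in B, (G v - c * E v) = (∫ v in B, G v) - c * ∫ v in B, E v := by
    rw [integral_sub hGi.integrableOn (hEi.const_mul c).integrableOn, integral_const_mul]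
  have s2 : (∫ v in B, G v) + ∫ v in Bᶜ, G v = m0 G := integral_add_compl hBm hGi
  have s3 : (∫ v in B, mx a k b v) + ∫ v in Bᶜ, mx a k b v = ∫ v, mx a k b v :=
    integral_add_compl hBm hμi
  have s4 : ∫ v in B, mx a k b v = a * ∫ v in B, E v := by
    simp only [hμE]
    rw [integral_const_mul]
  have s5 : 0 ≤ ∫ v in Bᶜ, G v := setIntegral_nonneg hBm.compl fun v _ => hG0 v
  have s6 : 0 ≤ ∫ v in Bᶜ, mx a k b v := setIntegral_nonneg hBm.compl fun v _ => hμ0 v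
  have s7 : 0 ≤ ∫ v in B, E v := setIntegral_nonneg hBm fun v _ => (hE0 v).le
  have s8 : |a - c| * ∫ v in B, E v ≤ η + ε / 8 + C * η / V := by
    have e1 : |a - c| * ∫ v in B, E v = |(a - c) * ∫ v in B, E v| := by
      rw [abs_mul, abs_of_nonneg s7]
    have e2 : (a - c) * ∫ v in B, E v = (∫ v, mx a k b v) - m0 G - (∫ v in Bᶜ, mx a k b v) +
        (∫ v in Bᶜ, G v) + ∫ v in B, (G v - c * E v) := by
      rw [s1, ← s2, ← s3, s4]
      ring
    rw [e1, e2]
    have h3 := abs_le.1 hm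
    have h4 := abs_le.1 hJ2
    rw [abs_le]
    constructor <;> linarith
  have s9 : ∫ v in B, |G v - mx a k b v| ≤ C * η / V + (η + ε / 8 + C * η / V) := by
    calc ∫ v in B, |G v - mx a k b v| ≤ ∫ v in B, (|G v - c * E v| + |a - c| * E v) := by
          refine setIntegral_mono_on (hGi.sub hμi).abs.integrableOn
            ((hGi.sub (hEi.const_mul c)).abs.add (hEi.const_mul _)).integrableOn hBm fun v _ => ?_
          change |G v - mx a k b v| ≤ |G v - c * E v| + |a - c| * E v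
          rw [hμE]
          have e3 : G v - a * E v = (G v - c * E v) - (a - c) * E v := by ring
          rw [e3]
          refine (abs_sub _ _).trans ?_
          rw [abs_mul, abs_of_pos (hE0 v)]
      _ = (∫ v in B, |G v - c * E v|) + |a - c| * ∫ v in B, E v := by
          have i1 : IntegrableOn (fun v => |G v - c * E v|) B :=
            (hGi.sub (hEi.const_mul c)).abs.integrableOn
          have i2 : IntegrableOn (fun v => |a - c| * E v) B := (hEi.const_mul _).integrableOn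
          rw [integral_add i1 i2, integral_const_mul]
      _ ≤ _ := add_le_add hJ s8
  have s10 : ∫ v in Bᶜ, |G v - mx a k b v| ≤ ε / 8 + ε / 8 := by
    calc ∫ v in Bᶜ, |G v - mx a k b v| ≤ ∫ v in Bᶜ, (G v + mx a k b v) := by
          refine setIntegral_mono_on (hGi.sub hμi).abs.integrableOn
            (hGi.add hμi).integrableOn hBm.compl fun v _ => ?_
          change |G v - mx a k b v| ≤ G v + mx a k b v
          have h5 := hG0 v
          have h6 := hμ0 v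
          rw [abs_le]
          constructor <;> linarith
      _ = (∫ v in Bᶜ, G v) + ∫ v in Bᶜ, mx a k b v :=
          integral_add hGi.integrableOn hμi.integrableOn
      _ ≤ _ := add_le_add hGt hμt
  have i3 : Integrable fun v => |G v - mx a k b v| := (hGi.sub hμi).abs
  rw [← integral_add_compl hBm i3]
  have e5 : (∫ v in B, |G v - mx a k b v|) + ∫ v in Bᶜ, |G v - mx a k b v| ≤ ε := by
    have e6 : C * η / V = C / V * η := by ring
    rw [e6] at s9
    nlinarith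
  exact e5

end Pool.Agent.H19.EN
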