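import Pool.Agent.H19.EN.Defs

/-!
# Module Mxm: moments of the Maxwellian

`mx a k b v = a exp(-k |v-b|²)` is Nice (`mx_nice`, H48/NE/Mxw.lean), positive, `∂_i mx = -2k (v_i - b_i) mx` (`hasFDerivAt_sq`, `pd_sq`; see Mxw.lean). `ibp` (H25/Kin/Flux.lean) with `J = mx`, `φ = 1`: `∫ mx (v_i - b_i) = 0`; `φ = v_i - b_i`: `∫ ∂_i mx (v_i - b_i) = -∫ mx`, i.e. `2k ∫ mx (v_i-b_i)² = ∫ mx`. Then `v_i² = (v_i-b_i)² + 2 b_i (v_i - b_i) + b_i²`, sum over `i`.
-/

set_option autoImplicit false

open MeasureTheory Set Filter Topology Pool.Agent.H25.Kin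
open Pool.Agent.H48.NE (mx)

namespace Pool.Agent.H19.EN

variable {d : ℕ}

theorem mx_mass_pos {a k : ℝ} (ha : 0 < a) (hk : 0 < k) (b : Vec d) : 0 < ∫ v, mx a k b v :=
  Pool.Agent.H48.NE.mx_mass ha hk b

private lemma Mxm_pd (a k : ℝ) (b : Vec d) (i : Fin d) (v : Vec d) :
    pd i (mx a k b) v = -(2 * k) * (mx a k b v * (v i - b i)) := by
  have h1 : HasFDerivAt (fun v : Vec d => nsq (v - b))
      (∑ j, (2 * (v - b) j) • ContinuousLinearMap.proj (R := ℝ) (φ := fun _ : Fin d => ℝ) j) v := by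
    have := (hasFDerivAt_sq (v - b)).comp v ((hasFDerivAt_id v).sub_const b)
    rw [ContinuousLinearMap.comp_id] at this
    exact this
  have h2 : HasFDerivAt (mx a k b) (a • (Real.exp (-(k * nsq (v - b))) • -(k •
      ∑ j, (2 * (v - b) j) • ContinuousLinearMap.proj (R := ℝ) (φ := fun _ : Fin d => ℝ) j))) v :=
    ((h1.const_mul k).neg.exp).const_mul a
  have h3 := h2.fderiv
  unfold pd
  rw [h3]
  have e : (∑ j, (2 * (v - b) j) • ContinuousLinearMap.proj (R := ℝ) (φ := fun _ : Fin d => ℝ) j)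
      (Pi.single i 1) = 2 * (v i - b i) := by
    rw [sum_apply]
    simp [Pi.single_apply, Finset.sum_ite_eq']
  simp only [smul_apply, neg_apply, smul_eq_mul]
  rw [e]
  unfold mx
  ring

private lemma Mxm_fd (b : Vec d) (i : Fin d) (v : Vec d) :
    HasFDerivAt (fun v : Vec d => v i - b i)
      (ContinuousLinearMap.proj (R := ℝ) (φ := fun _ : Fin d => ℝ) i) v :=
  ((ContinuousLinearMap.proj (R := ℝ) (φ := fun _ : Fin d => ℝ) i).hasFDerivAt).sub_const (b i)

private lemma Mxm_PG (b : Vec d) (i : Fin d) : PG (fun v : Vec d => v i - b i) := by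
  have h := (PG.coord i).add (PG.const (d := d) (-b i))
  exact h

private lemma Mxm_one {a k : ℝ} (ha : 0 < a) (hk : 0 < k) (b : Vec d) (i : Fin d) :
    ∫ v, mx a k b v * (v i - b i) = 0 := by
  have hN := Pool.Agent.H48.NE.mx_nice ha hk b
  have h := ibp (J := mx a k b) (φ := fun _ : Vec d => (1 : ℝ)) hN.diff hN.rd hN.rd1
    (differentiable_const _) (PG.const 1) (by
      have e : fderiv ℝ (fun _ : Vec d => (1 : ℝ)) = fun _ => 0 := by
        funext v
        exact fderiv_const_apply _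
      rw [e]
      exact PG.const 0) i
  have e2 : ∀ v : Vec d, pd i (fun _ : Vec d => (1 : ℝ)) v = 0 := by
    intro v
    unfold pd
    rw [fderiv_const_apply]
    rfl
  simp only [mul_one, e2, mul_zero, integral_zero, neg_zero] at h
  simp_rw [Mxm_pd] at h
  rw [integral_const_mul] at h
  have hk2 : -(2 * k) ≠ 0 := by
    have : 0 < 2 * k := by positivity
    linarith
  exact (mul_eq_zero.1 h).resolve_left hk2

private lemma Mxm_two {a k : ℝ} (ha : 0 < a) (hk : 0 < k) (b : Vec d) (i : Fin d) :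
    ∫ v, mx a k b v * (v i - b i) ^ 2 = (∫ v, mx a k b v) / (2 * k) := by
  have hN := Pool.Agent.H48.NE.mx_nice ha hk b
  have hf : fderiv ℝ (fun v : Vec d => v i - b i) =
      fun _ => ContinuousLinearMap.proj (R := ℝ) (φ := fun _ : Fin d => ℝ) i := by
    funext v
    exact (Mxm_fd b i v).fderiv
  have h := ibp (J := mx a k b) (φ := fun v : Vec d => v i - b i) hN.diff hN.rd hN.rd1
    (fun v => (Mxm_fd b i v).differentiableAt) (Mxm_PG b i) (by rw [hf]; exact PG.const _) i
  have e2 : ∀ v : Vec d, pd i (fun v : Vec d => v i - b i) v = 1 := by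
    intro v
    unfold pd
    rw [hf]
    simp
  simp only [e2, mul_one] at h
  simp_rw [Mxm_pd] at h
  have e3 : ∀ v : Vec d, -(2 * k) * (mx a k b v * (v i - b i)) * (v i - b i) =
      -(2 * k) * (mx a k b v * (v i - b i) ^ 2) := fun v => by ring
  simp_rw [e3] at h
  rw [integral_const_mul] at h
  have hk2 : 0 < 2 * k := by positivity
  rw [eq_div_iff hk2.ne']
  linarith

private lemma Mxm_int {a k : ℝ} (ha : 0 < a) (hk : 0 < k) (b : Vec d) {p : Vec d → ℝ}
    (hp : PG p) (hm : Measurable p) : Integrable fun v => mx a k b v * p v := by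
  have hN := Pool.Agent.H48.NE.mx_nice ha hk b
  exact (hN.rd.mul_PG hp).integrable (hN.cont.measurable.mul hm).aestronglyMeasurable

theorem mx_mom {a k : ℝ} (ha : 0 < a) (hk : 0 < k) (b : Vec d) (i : Fin d) :
    ∫ v, mx a k b v * v i = (∫ v, mx a k b v) * b i := by
  have hm : Measurable fun v : Vec d => v i - b i := (measurable_pi_apply i).sub_const _
  have i1 := Mxm_int ha hk b (Mxm_PG b i) hm
  have hN := Pool.Agent.H48.NE.mx_nice ha hk b
  have i2 : Integrable (mx a k b) := hN.rd.integrable hN.cont.aestronglyMeasurable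
  have e : ∀ v : Vec d, mx a k b v * v i = mx a k b v * (v i - b i) + mx a k b v * b i :=
    fun v => by ring
  simp_rw [e]
  rw [integral_add i1 (i2.mul_const _), Mxm_one ha hk, zero_add, integral_mul_const]

theorem mx_en {a k : ℝ} (ha : 0 < a) (hk : 0 < k) (b : Vec d) :
    ∫ v, mx a k b v * nsq v = (∫ v, mx a k b v) * nsq b + d * ((∫ v, mx a k b v) / (2 * k)) := by
  have hN := Pool.Agent.H48.NE.mx_nice ha hk b
  have i2 : Integrable (mx a k b) := hN.rd.integrable hN.cont.aestronglyMeasurable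
  have hm : ∀ i : Fin d, Measurable fun v : Vec d => v i - b i := fun i =>
    (measurable_pi_apply i).sub_const _
  have i1 : ∀ i : Fin d, Integrable fun v => mx a k b v * (v i - b i) := fun i =>
    Mxm_int ha hk b (Mxm_PG b i) (hm i)
  have i3 : ∀ i : Fin d, Integrable fun v => mx a k b v * (v i - b i) ^ 2 := fun i => by
    have hp : PG fun v : Vec d => (v i - b i) ^ 2 := by
      have h := (Mxm_PG b i).mul (Mxm_PG b i)
      have e : (fun v : Vec d => (v i - b i) * (v i - b i)) = fun v : Vec d => (v i - b i) ^ 2 := by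
        funext v
        ring
      rwa [e] at h
    exact Mxm_int ha hk b hp ((hm i).pow_const 2)
  have e1 : ∀ (i : Fin d) (v : Vec d), mx a k b v * v i ^ 2 =
      mx a k b v * (v i - b i) ^ 2 + 2 * b i * (mx a k b v * (v i - b i)) + mx a k b v * b i ^ 2 :=
    fun i v => by ring
  have i4 : ∀ i : Fin d, Integrable fun v => mx a k b v * v i ^ 2 := fun i => by
    simp_rw [e1 i]
    exact ((i3 i).add ((i1 i).const_mul _)).add (i2.mul_const _)
  have e2 : ∀ i : Fin d, ∫ v, mx a k b v * v i ^ 2 =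
      (∫ v, mx a k b v) / (2 * k) + (∫ v, mx a k b v) * b i ^ 2 := fun i => by
    simp_rw [e1 i]
    have i5 : Integrable fun v => mx a k b v * (v i - b i) ^ 2 +
        2 * b i * (mx a k b v * (v i - b i)) := (i3 i).add ((i1 i).const_mul _)
    rw [integral_add i5 (i2.mul_const _),
      integral_add (i3 i) ((i1 i).const_mul _), Mxm_two ha hk, integral_const_mul, Mxm_one ha hk,
      integral_mul_const]
    ring
  have e3 : ∀ v : Vec d, mx a k b v * nsq v = ∑ i, mx a k b v * v i ^ 2 := fun v => by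
    unfold nsq
    rw [Finset.mul_sum]
  simp_rw [e3]
  rw [integral_finsetSum _ fun i _ => i4 i]
  simp_rw [e2]
  rw [Finset.sum_add_distrib, ← Finset.mul_sum]
  unfold nsq
  simp only [Finset.sum_const, Finset.card_univ, Fintype.card_fin, nsmul_eq_mul]
  ring

end Pool.Agent.H19.EN
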