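import Pool.Agent.H19.EN.Reg
import Pool.Agent.H19.EN.Mxm

/-!
# Module Mom: the moments of `G = g + δ gau`

`G ≤ S' Wp (d+10)` with `S' = max S 0 + C` (`gau_le_Wp`), `wv^4 Wp (d+10) = wv^(-(d+6))`, `wv⁻¹ ≤ 2 (1+‖v‖)⁻²` (`(1+‖v‖)² ≤ 2 (1+‖v‖²) ≤ 2 wv`, `‖v‖² ≤ nsq v`), so `wv^(-(d+6)) ≤ 2^(d+6) wt d v` (integrable): `K`. Mass `m0 G ≥ ∫ g ≥ m`.
`md g (mx a k b) ≤ ι` bounds the three differences for `g`; the terms `δ ∫ gau`, `δ |∫ gau v_i|`, `δ ∫ gau nsq` are `≤ C' δ` (`nice_gau`). With `M = ∫ mx`, `mx_mom`, `mx_en`: `|m0 G - M| ≤ ι + C'δ`, `|m1 G i - M b_i| ≤ ι + C'δ`, `|∫ G nsq - (M nsq b + d M/(2k))| ≤ ι + C'δ`.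
Trace: `∑_i Θ_ii = ∫ G nsq - ∑_i m1_i²/m0` (expand, `c_i = m1_i/m0`), and with `e' = (1+C')(ι+δ) ≤ 2 (1+C')` (`ι, δ ≤ 1`): `|m1_i²/m0 - M b_i²| = |(m1_i - M b_i)(m1_i + M b_i) + M b_i² (M - m0)|/m0 ≤ (e' (e' + 2 M|b_i|) + M b_i² e')/m`.
-/

set_option autoImplicit false

open MeasureTheory Set Filter Topology Pool.Agent.H25.Kin
open Pool.Agent.H15.AV (gau)
open Pool.Agent.H48.PR (Wp)
open Pool.Agent.H48.NE (mx)
open Pool.Agent.H37.LN (md)

namespace Pool.Agent.H19.EN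

variable {d : ℕ}

private lemma Mom_norm_le (v : Vec d) : 1 + ‖v‖ ≤ 2 * wv v := by
  have h1 := wv_ge v
  have h2 : ‖v‖ ≤ wv v := by
    refine (pi_norm_le_iff_of_nonneg (wv_pos v).le).2 fun i => ?_
    rw [Real.norm_eq_abs]
    have h3 := coord_sq_le v i
    rcases le_total |v i| 1 with h4 | h4
    · exact h4.trans h1
    · have h5 : |v i| ≤ |v i| ^ 2 := by nlinarith
      rw [sq_abs] at h5
      exact h5.trans h3
  linarith

private lemma Mom_w (v : Vec d) : Wp (d + 10) v * wv v ^ 4 ≤ 2 ^ (d + 1) * wt d v := by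
  have h0 := wv_pos v
  have h1 := wv_ge v
  have hw := w_pos v
  have e : Wp (d + 10) v = (wv v ^ (d + 10))⁻¹ := rfl
  rw [e]
  have e2 : (wv v ^ (d + 10))⁻¹ * wv v ^ 4 = (wv v ^ (d + 6))⁻¹ := by
    rw [show d + 10 = d + 6 + 4 by ring, pow_add (wv v) (d + 6) 4]
    field_simp
  rw [e2]
  have h2 : (wv v ^ (d + 6))⁻¹ ≤ (wv v ^ (d + 1))⁻¹ :=
    inv_anti₀ (pow_pos h0 _) (pow_le_pow_right₀ h1 (by omega))
  refine h2.trans ?_
  unfold wt
  have h3 : (1 + ‖v‖) ^ (d + 1) ≤ 2 ^ (d + 1) * wv v ^ (d + 1) := by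
    rw [← mul_pow]
    exact pow_le_pow_left₀ hw.le (Mom_norm_le v) _
  rw [← div_eq_mul_inv, le_div_iff₀ (pow_pos hw _), inv_mul_le_iff₀ (pow_pos h0 _)]
  linarith

/-- the weight `Wp (d+10) wv^4` is integrable, and tails are small -/
theorem wp_int (S : ℝ) : ∃ K : ℝ, 0 ≤ K ∧ ∀ G : Vec d → ℝ, Continuous G → (∀ v, 0 ≤ G v) →
    (∀ v, G v ≤ S * Wp (d + 10) v) → Integrable (fun v => G v * wv v ^ 4) ∧ ∫ v, G v * wv v ^ 4 ≤ K := by
  have hi : Integrable fun v : Vec d => |S| * (2 ^ (d + 1) * wt d v) :=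
    ((integrable_wt (d := d)).const_mul _).const_mul _
  refine ⟨∫ v : Vec d, |S| * (2 ^ (d + 1) * wt d v), integral_nonneg fun v => ?_, ?_⟩
  · have := wt_nonneg v
    positivity
  intro G hG h0 hS
  have hWp : ∀ v : Vec d, 0 ≤ Wp (d + 10) v := fun v => by
    have : Wp (d + 10) v = (wv v ^ (d + 10))⁻¹ := rfl
    rw [this]
    exact inv_nonneg.2 (pow_nonneg (wv_pos v).le _)
  have hle : ∀ v, G v * wv v ^ 4 ≤ |S| * (2 ^ (d + 1) * wt d v) := fun v => by
    have hw := pow_pos (wv_pos v) 4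
    calc G v * wv v ^ 4 ≤ (S * Wp (d + 10) v) * wv v ^ 4 :=
          mul_le_mul_of_nonneg_right (hS v) hw.le
      _ = S * (Wp (d + 10) v * wv v ^ 4) := by ring
      _ ≤ |S| * (Wp (d + 10) v * wv v ^ 4) :=
          mul_le_mul_of_nonneg_right (le_abs_self S) (mul_nonneg (hWp v) hw.le)
      _ ≤ |S| * (2 ^ (d + 1) * wt d v) := mul_le_mul_of_nonneg_left (Mom_w v) (abs_nonneg S)
  have hint : Integrable (fun v => G v * wv v ^ 4) := by
    refine hi.mono' (hG.mul (wv_cont.pow 4)).aestronglyMeasurable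
      (Filter.Eventually.of_forall fun v => ?_)
    rw [Real.norm_eq_abs, abs_of_nonneg (mul_nonneg (h0 v) (pow_nonneg (wv_pos v).le 4))]
    exact hle v
  exact ⟨hint, integral_mono hint hi hle⟩

private lemma Mom_alg {M m A B x y e bi : ℝ} (hm : 0 < m) (hA : m ≤ A) (hM : 0 ≤ M) (he : 0 ≤ e)
    {c : ℝ} (hec : e ≤ c) (hx : A - M = x) (hy : B - M * bi = y) (hxe : |x| ≤ e) (hye : |y| ≤ e) :
    |B ^ 2 / A - M * bi ^ 2| ≤ e * ((c + 2 * M * |bi| + M * bi ^ 2) / m) := by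
  have hA0 : 0 < A := lt_of_lt_of_le hm hA
  have e1 : B ^ 2 / A - M * bi ^ 2 = (y * (y + 2 * (M * bi)) - M * bi ^ 2 * x) / A := by
    rw [← hx, ← hy]
    field_simp
    ring
  have h1 : |y * (y + 2 * (M * bi)) - M * bi ^ 2 * x| ≤ e * (c + 2 * M * |bi| + M * bi ^ 2) := by
    have a1 : |y * (y + 2 * (M * bi))| ≤ e * (c + 2 * M * |bi|) := by
      rw [abs_mul]
      refine mul_le_mul hye ?_ (abs_nonneg _) he
      refine (abs_add_le _ _).trans ?_
      rw [abs_mul, abs_mul, abs_of_nonneg hM, abs_of_pos (two_pos : (0 : ℝ) < 2)]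
      linarith
    have a2 : |M * bi ^ 2 * x| ≤ M * bi ^ 2 * e := by
      rw [abs_mul, abs_of_nonneg (mul_nonneg hM (sq_nonneg bi))]
      exact mul_le_mul_of_nonneg_left hxe (mul_nonneg hM (sq_nonneg bi))
    refine (abs_sub _ _).trans ?_
    linarith
  rw [e1, abs_div, abs_of_pos hA0, ← mul_div_assoc]
  have h2 : 0 ≤ e * (c + 2 * M * |bi| + M * bi ^ 2) := (abs_nonneg _).trans h1
  calc |y * (y + 2 * (M * bi)) - M * bi ^ 2 * x| / A
      ≤ (e * (c + 2 * M * |bi| + M * bi ^ 2)) / A := div_le_div_of_nonneg_right h1 hA0.le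
    _ ≤ (e * (c + 2 * M * |bi| + M * bi ^ 2)) / m := div_le_div_of_nonneg_left h2 hm hA

private lemma Mom_int {g : Vec d → ℝ} (hg : Nice g) {p : Vec d → ℝ}
    (hp : PG p) (hm : Measurable p) : Integrable fun v => g v * p v :=
  (hg.rd.mul_PG hp).integrable (hg.cont.measurable.mul hm).aestronglyMeasurable

private lemma Mom_Th {G : Vec d → ℝ} (hG : Nice G) (h0 : m0 G ≠ 0) (i : Fin d) :
    Th G i i = (∫ v, G v * v i ^ 2) - m1 G i ^ 2 / m0 G := by
  have hc : PG (fun v : Vec d => v i) := PG.coord i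
  have hc2 : PG (fun v : Vec d => v i ^ 2) := by
    have := hc.mul hc
    simpa [pow_two] using this
  have hmi : Measurable fun v : Vec d => v i := measurable_pi_apply i
  have i2 : Integrable fun v => G v * v i ^ 2 := Mom_int hG hc2 (hmi.pow_const 2)
  have i1 : Integrable fun v => G v * v i := Mom_int hG hc hmi
  have i0 : Integrable G := hG.rd.integrable hG.cont.aestronglyMeasurable
  unfold Th
  have e : ∀ v : Vec d, G v * ((v i - ct G i) * (v i - ct G i)) =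
      G v * v i ^ 2 - 2 * ct G i * (G v * v i) + G v * ct G i ^ 2 := fun v => by ring
  simp_rw [e]
  have i3 : Integrable fun v => G v * v i ^ 2 - 2 * ct G i * (G v * v i) := i2.sub (i1.const_mul _)
  rw [integral_add i3 (i0.mul_const _), integral_sub i2 (i1.const_mul _), integral_const_mul,
    integral_mul_const]
  have e1 : (∫ v, G v * v i) = m1 G i := rfl
  have e2 : (∫ v, G v) = m0 G := rfl
  rw [e1, e2]
  unfold ct
  field_simp
  ring

theorem mom_all {a k : ℝ} (ha : 0 < a) (hk : 0 < k) (b : Vec d) (S : ℝ) {m : ℝ} (hm : 0 < m) :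
    ∃ K C : ℝ, 0 < C ∧ ∀ g : Vec d → ℝ, Nice g → (∀ v, 0 ≤ g v) → (∀ v, g v ≤ S * Wp (d + 10) v) →
      m ≤ ∫ v, g v → ∀ ι ∈ Icc (0 : ℝ) 1, ∀ δ ∈ Ioc (0 : ℝ) 1, md g (mx a k b) ≤ ι →
        Bd m K (fun v => g v + δ * gau v) ∧
        |m0 (fun v => g v + δ * gau v) - ∫ v, mx a k b v| ≤ C * (ι + δ) ∧
        (∀ i, |m1 (fun v => g v + δ * gau v) i - (∫ v, mx a k b v) * b i| ≤ C * (ι + δ)) ∧
        |(∑ i, Th (fun v => g v + δ * gau v) i i) - d * ((∫ v, mx a k b v) / (2 * k))| ≤ C * (ι + δ) := by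
  obtain ⟨C0, hC0, hgW⟩ := gau_le_Wp (d := d) (d + 10)
  obtain ⟨K, hK0, hK⟩ := wp_int (d := d) (max S 0 + C0)
  have hgn := Pool.Agent.H15.AV.nice_gau (d := d)
  have hgp : ∀ v : Vec d, 0 ≤ gau v := fun v => (Real.exp_pos _).le
  have hmi : ∀ i : Fin d, Measurable fun v : Vec d => v i := fun i => measurable_pi_apply i
  have hmn : Measurable (nsq : Vec d → ℝ) := continuous_sq.measurable
  set M := ∫ v, mx a k b v with hM
  have hM0 : 0 < M := mx_mass_pos ha hk b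
  set Γ0 := ∫ v : Vec d, gau v with hΓ0
  set Γ2 := ∫ v : Vec d, gau v * nsq v with hΓ2
  have hΓ0n : 0 ≤ Γ0 := integral_nonneg hgp
  have hΓ2n : 0 ≤ Γ2 := integral_nonneg fun v => mul_nonneg (hgp v) (sq_nonneg' v)
  have hs1n : 0 ≤ ∑ i : Fin d, |∫ v : Vec d, gau v * v i| :=
    Finset.sum_nonneg fun i _ => abs_nonneg _
  set C1 := Γ0 + (∑ i : Fin d, |∫ v : Vec d, gau v * v i|) + Γ2 with hC1
  have hC1n : 0 ≤ C1 := by rw [hC1]; positivity
  set c := 1 + C1 with hc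
  have hc1 : 1 ≤ c := by linarith
  have hcp : 0 < c := by linarith
  set Z := ∑ i : Fin d, (c + 2 * M * |b i| + M * b i ^ 2) / m with hZ
  have hZn : 0 ≤ Z := Finset.sum_nonneg fun i _ => by positivity
  refine ⟨K, c * (1 + Z), by positivity, ?_⟩
  intro g hg h0 hS hmass ι hι δ hδ hmd
  have hδ0 : 0 < δ := hδ.1
  set G := fun v => g v + δ * gau v with hG
  have hRg : Rg G := rg_add hg h0 hδ
  have i0g : Integrable g := hg.rd.integrable hg.cont.aestronglyMeasurable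
  have i0e : Integrable (gau (d := d)) := hgn.rd.integrable hgn.cont.aestronglyMeasurable
  -- moments
  have em : ∀ p : Vec d → ℝ, PG p → Measurable p →
      ∫ v, G v * p v = (∫ v, g v * p v) + δ * ∫ v, gau v * p v := by
    intro p hp hpm
    have e : ∀ v, G v * p v = g v * p v + δ * (gau v * p v) := fun v => by
      rw [hG]
      ring
    simp_rw [e]
    rw [integral_add (Mom_int hg hp hpm) ((Mom_int hgn hp hpm).const_mul _), integral_const_mul]
  have e0 : m0 G = (∫ v, g v) + δ * Γ0 := by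
    unfold m0
    rw [hG]
    simp only
    rw [integral_add i0g (i0e.const_mul _), integral_const_mul]
  have e1 : ∀ i, m1 G i = (∫ v, g v * v i) + δ * ∫ v : Vec d, gau v * v i := fun i =>
    em _ (PG.coord i) (hmi i)
  have e2 : ∫ v, G v * nsq v = (∫ v, g v * nsq v) + δ * Γ2 := em _ PG.nsq hmn
  -- the three differences
  have hmd' := hmd
  unfold md at hmd'
  have hn0 : 0 ≤ |(∫ v, g v) - ∫ v, mx a k b v| := abs_nonneg _
  have hn1 : 0 ≤ ∑ i, |(∫ v, g v * v i) - ∫ v, mx a k b v * v i| :=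
    Finset.sum_nonneg fun i _ => abs_nonneg _
  have hn2 : 0 ≤ |(∫ v, g v * nsq v) - ∫ v, mx a k b v * nsq v| := abs_nonneg _
  set e := ι + δ * C1 with he
  have he0 : 0 ≤ e := by
    have := hι.1
    positivity
  have hec : e ≤ c := by
    have h1 : δ * C1 ≤ 1 * C1 := mul_le_mul_of_nonneg_right hδ.2 hC1n
    have h2 := hι.2
    rw [he, hc]
    linarith
  have hee : e ≤ c * (ι + δ) := by
    rw [he, hc]
    nlinarith [mul_nonneg hC1n hι.1, mul_nonneg hC1n hδ0.le]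
  have d0 : |m0 G - M| ≤ e := by
    rw [e0]
    have h1 : |(∫ v, g v) - M| ≤ ι := by rw [hM]; linarith
    have h2 : |δ * Γ0| ≤ δ * C1 := by
      rw [abs_of_nonneg (mul_nonneg hδ0.le hΓ0n)]
      exact mul_le_mul_of_nonneg_left (by rw [hC1]; linarith) hδ0.le
    calc |(∫ v, g v) + δ * Γ0 - M| = |((∫ v, g v) - M) + δ * Γ0| := by ring_nf
      _ ≤ |(∫ v, g v) - M| + |δ * Γ0| := abs_add_le _ _
      _ ≤ e := by rw [he]; linarith
  have d1 : ∀ i, |m1 G i - M * b i| ≤ e := fun i => by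
    rw [e1 i]
    have h0' : |(∫ v, g v * v i) - ∫ v, mx a k b v * v i| ≤
        ∑ i, |(∫ v, g v * v i) - ∫ v, mx a k b v * v i| :=
      Finset.single_le_sum (f := fun i => |(∫ v, g v * v i) - ∫ v, mx a k b v * v i|)
        (fun i _ => abs_nonneg _) (Finset.mem_univ i)
    have h1 : |(∫ v, g v * v i) - M * b i| ≤ ι := by
      rw [mx_mom ha hk b i] at h0'
      rw [hM]
      linarith
    have h2' : |∫ v : Vec d, gau v * v i| ≤ ∑ i : Fin d, |∫ v : Vec d, gau v * v i| :=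
      Finset.single_le_sum (f := fun i => |∫ v : Vec d, gau v * v i|)
        (fun i _ => abs_nonneg _) (Finset.mem_univ i)
    have h2 : |δ * ∫ v : Vec d, gau v * v i| ≤ δ * C1 := by
      rw [abs_mul, abs_of_pos hδ0]
      exact mul_le_mul_of_nonneg_left (by rw [hC1]; linarith) hδ0.le
    calc |(∫ v, g v * v i) + δ * (∫ v : Vec d, gau v * v i) - M * b i|
        = |((∫ v, g v * v i) - M * b i) + δ * ∫ v : Vec d, gau v * v i| := by ring_nf
      _ ≤ |(∫ v, g v * v i) - M * b i| + |δ * ∫ v : Vec d, gau v * v i| := abs_add_le _ _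
      _ ≤ e := by rw [he]; linarith
  have d2 : |(∫ v, G v * nsq v) - (M * nsq b + d * (M / (2 * k)))| ≤ e := by
    rw [e2]
    have h1 : |(∫ v, g v * nsq v) - (M * nsq b + d * (M / (2 * k)))| ≤ ι := by
      rw [mx_en ha hk b] at hmd' hn2
      rw [hM]
      linarith
    have h2 : |δ * Γ2| ≤ δ * C1 := by
      rw [abs_of_nonneg (mul_nonneg hδ0.le hΓ2n)]
      exact mul_le_mul_of_nonneg_left (by rw [hC1]; linarith) hδ0.le
    calc |(∫ v, g v * nsq v) + δ * Γ2 - (M * nsq b + d * (M / (2 * k)))|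
        = |((∫ v, g v * nsq v) - (M * nsq b + d * (M / (2 * k)))) + δ * Γ2| := by ring_nf
      _ ≤ |(∫ v, g v * nsq v) - (M * nsq b + d * (M / (2 * k)))| + |δ * Γ2| := abs_add_le _ _
      _ ≤ e := by rw [he]; linarith
  have hmG : m ≤ m0 G := by
    rw [e0]
    have := mul_nonneg hδ0.le hΓ0n
    linarith
  have hm0 : m0 G ≠ 0 := (lt_of_lt_of_le hm hmG).ne'
  have hsmall : e ≤ c * (1 + Z) * (ι + δ) := by
    have h1 : 0 ≤ c * (ι + δ) := he0.trans hee
    calc e ≤ c * (ι + δ) := hee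
      _ ≤ c * (ι + δ) * (1 + Z) := le_mul_of_one_le_right h1 (by linarith)
      _ = c * (1 + Z) * (ι + δ) := by ring
  refine ⟨⟨hRg, hm, hmG, ?_⟩, d0.trans hsmall, fun i => (d1 i).trans hsmall, ?_⟩
  · refine (hK G hRg.nice.cont (fun v => (hRg.pos v).le) fun v => ?_).2
    have h1 := hS v
    have h2 := hgW v
    have hW : 0 ≤ Wp (d + 10) v := by
      have h3 : (Wp (d + 10) v : ℝ) = (wv v ^ (d + 10))⁻¹ := rfl
      rw [h3]
      exact inv_nonneg.2 (pow_nonneg (wv_pos v).le _)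
    have h4 : S * Wp (d + 10) v ≤ max S 0 * Wp (d + 10) v :=
      mul_le_mul_of_nonneg_right (le_max_left _ _) hW
    have h5 : δ * gau v ≤ 1 * gau v := mul_le_mul_of_nonneg_right hδ.2 (hgp v)
    calc G v = g v + δ * gau v := rfl
      _ ≤ max S 0 * Wp (d + 10) v + C0 * Wp (d + 10) v := by linarith
      _ = (max S 0 + C0) * Wp (d + 10) v := by ring
  · have hT : (∑ i, Th G i i) = (∫ v, G v * nsq v) - ∑ i, m1 G i ^ 2 / m0 G := by
      have i2 : ∀ i : Fin d, Integrable fun v => G v * v i ^ 2 := fun i => by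
        have hc2 : PG (fun v : Vec d => v i ^ 2) := by
          have := (PG.coord (d := d) i).mul (PG.coord i)
          simpa [pow_two] using this
        exact Mom_int hRg.nice hc2 ((hmi i).pow_const 2)
      have e3 : ∫ v, G v * nsq v = ∑ i, ∫ v, G v * v i ^ 2 := by
        rw [← integral_finsetSum _ fun i _ => i2 i]
        refine integral_congr_ae (Filter.Eventually.of_forall fun v => ?_)
        simp only
        unfold nsq
        rw [Finset.mul_sum]
      rw [e3, ← Finset.sum_sub_distrib]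
      exact Finset.sum_congr rfl fun i _ => Mom_Th hRg.nice hm0 i
    have hB : ∑ i, M * b i ^ 2 = M * nsq b := by
      unfold nsq
      rw [Finset.mul_sum]
    have h5 : (∑ i, Th G i i) - d * (M / (2 * k)) =
        ((∫ v, G v * nsq v) - (M * nsq b + d * (M / (2 * k)))) -
          ∑ i, (m1 G i ^ 2 / m0 G - M * b i ^ 2) := by
      rw [hT, Finset.sum_sub_distrib, hB]
      ring
    have h6 : ∀ i, |m1 G i ^ 2 / m0 G - M * b i ^ 2| ≤
        e * ((c + 2 * M * |b i| + M * b i ^ 2) / m) := fun i =>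
      Mom_alg hm hmG hM0.le he0 hec rfl rfl d0 (d1 i)
    have h7 : |∑ i, (m1 G i ^ 2 / m0 G - M * b i ^ 2)| ≤ e * Z := by
      rw [hZ, Finset.mul_sum]
      exact (Finset.abs_sum_le_sum_abs _ _).trans (Finset.sum_le_sum fun i _ => h6 i)
    rw [h5]
    calc _ ≤ |(∫ v, G v * nsq v) - (M * nsq b + d * (M / (2 * k)))| +
          |∑ i, (m1 G i ^ 2 / m0 G - M * b i ^ 2)| := abs_sub _ _
      _ ≤ e + e * Z := add_le_add d2 h7
      _ = e * (1 + Z) := by ring
      _ ≤ c * (ι + δ) * (1 + Z) := mul_le_mul_of_nonneg_right hee (by linarith)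
      _ = c * (1 + Z) * (ι + δ) := by ring

end Pool.Agent.H19.EN
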