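import Pool.Agent.H19.EN.Cmb
import Pool.Agent.H19.EN.Mom
import Pool.Agent.H19.EN.Avg

/-!
# Module SFin: the interface `SliceL`

`DL γ δ g = EP γ (fun v => g v + δ * gau v)` by `rfl`. `K, C` from `mom_all` (class `m`, `S`), `C₁, e₀` from `cmb` with `M = ∫ mx`, `Ci` from `iso`, `Cf` from `fsh`, `Cg` from `gau_le_Wp (d+10)`, `η` from `avg` for `S + Cg`, `K' = max K 0`, `ε/2`. Let `e = min e₀ (min η (η/√C₁))` (any `e > 0` with `e ≤ e₀`, `e ≤ η`, `C₁ e² ≤ η²`).
`ι = min 1 (e/(2C))`, `δ₀ = min 1 (min (e/(2C)) (ε/(2 (∫ gau + 1))))`, `ε₁ = e²/(Ci + Cf + 1)`. Then `C (ι + δ) ≤ e`; `iso`: squares `≤ Ci ε₁ ≤ e²` so `|.| ≤ e` (`abs_le_of_sq_le_sq`); `fsh`: `≤ Cf ε₁ ≤ e²` (`EP ≥ 0`). `cmb`, then `avg` (`∫ G wv ≤ ∫ G wv^4 ≤ K`): `∫ |G - mx| ≤ ε/2`, `∫ |g - mx| ≤ ∫ |G - mx| + δ ∫ gau ≤ ε`.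
-/

set_option autoImplicit false

open MeasureTheory Set Filter Topology Pool.Agent.H25.Kin
open Pool.Agent.H15.AV (gau)
open Pool.Agent.H48.PR (Wp)
open Pool.Agent.H48.NE (mx mx_nice)
open Pool.Agent.H37.LN (md DL SliceL)

namespace Pool.Agent.H19.EN

variable {d : ℕ} {γ : ℝ}

private lemma SFin_gau (v : Vec d) : gau v = mx 1 1 0 v := by
  unfold gau mx
  simp

private lemma SFin_gau_pos (v : Vec d) : 0 < gau v := Real.exp_pos _

private lemma SFin_gau_int : Integrable (gau : Vec d → ℝ) := by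
  have h : (gau : Vec d → ℝ) = mx 1 1 0 := funext SFin_gau
  rw [h]
  exact (mx_nice one_pos one_pos 0).rd.integrable (mx_nice one_pos one_pos 0).cont.aestronglyMeasurable

theorem sliceL (hd : 2 ≤ d) (h1 : -2 < γ) (h2 : γ ≤ 0) : SliceL d γ := by
  intro a k ha hk u S m ε hm hε
  obtain ⟨K, C, hC, hmom⟩ := mom_all ha hk u S hm
  set M : ℝ := ∫ v, mx a k u v with hM
  have hM0 : 0 < M := mx_mass_pos ha hk u
  obtain ⟨C₁, hC₁, e₀, he₀, hcmb⟩ := cmb hd hM0 hk u m K
  obtain ⟨Ci, hCi, hiso⟩ := iso (d := d) h1 h2 m K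
  obtain ⟨Cf, hCf, hfsh⟩ := fsh (d := d) h1 h2 m K
  obtain ⟨Cg, hCg, hgau⟩ := gau_le_Wp (d := d) (d + 10)
  obtain ⟨η, hη, havg⟩ := avg ha hk u (S + Cg) (K := max K 0) (ε := ε / 2) (le_max_right _ _)
    (by linarith)
  set I : ℝ := ∫ v : Vec d, gau v with hI
  have hI0 : 0 ≤ I := integral_nonneg fun v => (SFin_gau_pos v).le
  obtain ⟨e, he, hee, heη, heC⟩ : ∃ e > 0, e ≤ e₀ ∧ e ≤ η ∧ C₁ * e ^ 2 ≤ η ^ 2 := by
    refine ⟨min e₀ (min η (η / (C₁ + 1))), by positivity, min_le_left _ _,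
      (min_le_right _ _).trans (min_le_left _ _), ?_⟩
    have h3 : min e₀ (min η (η / (C₁ + 1))) ≤ η / (C₁ + 1) :=
      (min_le_right _ _).trans (min_le_right _ _)
    have h4 : 0 ≤ min e₀ (min η (η / (C₁ + 1))) := by positivity
    calc C₁ * (min e₀ (min η (η / (C₁ + 1)))) ^ 2 ≤ C₁ * (η / (C₁ + 1)) ^ 2 := by gcongr
      _ = (C₁ / (C₁ + 1) ^ 2) * η ^ 2 := by
          field_simp
      _ ≤ 1 * η ^ 2 := by
          refine mul_le_mul_of_nonneg_right ?_ (by positivity)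
          rw [div_le_one (by positivity)]
          nlinarith
      _ = η ^ 2 := one_mul _
  refine ⟨e ^ 2 / (Ci + Cf + 1), by positivity, min 1 (e / (2 * C)), by positivity,
    min 1 (min (e / (2 * C)) (ε / (2 * (I + 1)))), by positivity, ?_⟩
  intro δ hδ g hg hg0 hgS hgm hmd hDL
  have hδ1 : δ ∈ Ioc (0 : ℝ) 1 := ⟨hδ.1, hδ.2.trans (min_le_left _ _)⟩
  have hδC : δ ≤ e / (2 * C) := hδ.2.trans ((min_le_right _ _).trans (min_le_left _ _))
  have hδI : δ ≤ ε / (2 * (I + 1)) := hδ.2.trans ((min_le_right _ _).trans (min_le_right _ _))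
  have hι1 : min 1 (e / (2 * C)) ∈ Icc (0 : ℝ) 1 := ⟨by positivity, min_le_left _ _⟩
  obtain ⟨hB, hb0, hb1, hb2⟩ := hmom g hg hg0 hgS hgm _ hι1 δ hδ1 hmd
  set G : Vec d → ℝ := fun v => g v + δ * gau v with hG
  have hsum : C * (min 1 (e / (2 * C)) + δ) ≤ e := by
    have h3 : min 1 (e / (2 * C)) ≤ e / (2 * C) := min_le_right _ _
    calc C * (min 1 (e / (2 * C)) + δ) ≤ C * (e / (2 * C) + e / (2 * C)) := by gcongr
      _ = e := by field_simp; ring
  have hEP : EP γ G ≤ e ^ 2 / (Ci + Cf + 1) := hDL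
  have hi : Ci * EP γ G ≤ e ^ 2 := by
    calc Ci * EP γ G ≤ Ci * (e ^ 2 / (Ci + Cf + 1)) := by gcongr
      _ = (Ci / (Ci + Cf + 1)) * e ^ 2 := by ring
      _ ≤ 1 * e ^ 2 := by
          refine mul_le_mul_of_nonneg_right ?_ (by positivity)
          rw [div_le_one (by positivity)]
          linarith
      _ = e ^ 2 := one_mul _
  have hf : Cf * EP γ G ≤ e ^ 2 := by
    calc Cf * EP γ G ≤ Cf * (e ^ 2 / (Ci + Cf + 1)) := by gcongr
      _ = (Cf / (Ci + Cf + 1)) * e ^ 2 := by ring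
      _ ≤ 1 * e ^ 2 := by
          refine mul_le_mul_of_nonneg_right ?_ (by positivity)
          rw [div_le_one (by positivity)]
          linarith
      _ = e ^ 2 := one_mul _
  have hcm := hcmb G hB e ⟨he, hee⟩
    (fun i j hij => by
      obtain ⟨h3, h4⟩ := hiso G hB i j hij
      exact ⟨abs_le_of_sq_le_sq (h3.trans hi) he.le, abs_le_of_sq_le_sq (h4.trans hi) he.le⟩)
    (fun i j hij => (hfsh G hB i j hij).trans hf)
    (hb0.trans hsum) (fun i => (hb1 i).trans hsum) (hb2.trans hsum)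
  have hWp : ∀ v : Vec d, 0 < Wp (d + 10) v := fun v => Pool.Agent.H48.PR.Wp_pos _ v
  have hGS : ∀ v, G v ≤ (S + Cg) * Wp (d + 10) v := by
    intro v
    have h3 : δ * gau v ≤ 1 * (Cg * Wp (d + 10) v) :=
      mul_le_mul hδ1.2 (hgau v) (SFin_gau_pos v).le zero_le_one
    have h4 := hgS v
    simp only [hG]
    linarith
  have hK : ∫ v, G v * wv v ≤ max K 0 := by
    refine le_trans ?_ (le_max_left _ _)
    refine bd_int hB wv_cont.measurable wv_PG fun v => ?_
    exact le_self_pow₀ (wv_ge v) (by norm_num)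
  have hav := havg G hB.rg hGS hK (hb0.trans (hsum.trans heη)) (fun j => (hcm j).trans heC)
  have hgi : Integrable g := hg.rd.integrable hg.cont.aestronglyMeasurable
  have hmi : Integrable (mx a k u) :=
    (mx_nice ha hk u).rd.integrable (mx_nice ha hk u).cont.aestronglyMeasurable
  have hGi : Integrable G := hgi.add (SFin_gau_int.const_mul δ)
  calc ∫ v, |g v - mx a k u v| ≤ ∫ v, (|G v - mx a k u v| + δ * gau v) := by
        refine integral_mono (hgi.sub hmi).abs ((hGi.sub hmi).abs.add (SFin_gau_int.const_mul δ))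
          fun v => ?_
        have h3 : g v - mx a k u v = (G v - mx a k u v) - δ * gau v := by
          simp only [hG]
          ring
        have h4 : 0 ≤ δ * gau v := mul_nonneg hδ1.1.le (SFin_gau_pos v).le
        simp only
        rw [h3]
        refine (abs_sub _ _).trans ?_
        rw [abs_of_nonneg h4]
    _ = (∫ v, |G v - mx a k u v|) + δ * I := by
        have h5 : Integrable fun v => |G v - mx a k u v| := (hGi.sub hmi).abs
        rw [integral_add h5 (SFin_gau_int.const_mul δ), integral_const_mul]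
    _ ≤ ε / 2 + ε / (2 * (I + 1)) * I := by gcongr
    _ ≤ ε / 2 + ε / 2 := by
        have h3 : ε / (2 * (I + 1)) * I = ε / 2 * (I / (I + 1)) := by
          field_simp
        have h4 : I / (I + 1) ≤ 1 := by
          rw [div_le_one (by positivity)]
          linarith
        rw [h3]
        nlinarith
    _ = ε := by ring

end Pool.Agent.H19.EN
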