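import Pool.Agent.H19.EN.Iso

/-!
# Module Cmb: `∇ log G` is close to `-2k (v - b)`

`θ = M/(2k)`. (1) `|d Θ_ii - ∑_l Θ_ll| ≤ d e`, so `|Θ_ii - θ| ≤ 2 e`. Take `e₀ ≤ 1`, `e₀ ≤ θ/4`, so `Θ_ii ≥ θ/2`. (2) `N_j = ∫ G wv⁻¹ lg_j²` (integrable: `Rg.rd_lg`). Since `Θ_ii lg_j = R_ij + Θ_ij lg_i - m0 (v_j - c_j)`:
`(θ/2)² N_j ≤ Θ_ii² N_j ≤ 3 (e² + e² N_i + K² L K)`, `L = 2 (1+(K/m)²)` (`bd_sq`, `(a+b+c)² ≤ 3(a²+b²+c²)`, `m0 ≤ K`, `wv⁻¹ (v_j-c_j)² ≤ L`); for each `j` there is `i ≠ j` (`2 ≤ d`). Sum over `j`, `N = ∑ N_j`: `(θ²/4) N ≤ 3 d e² N + 3 d (1 + K³ L)`; if `3 d e₀² ≤ θ²/8` then `N ≤ 24 d (1 + K³ L)/θ² =: N*`.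
(3) `θ (lg_j + 2k (v_j - b_j)) = θ lg_j + M (v_j - b_j) = R_ij - (Θ_ii - θ) lg_j + Θ_ij lg_i + (M - m0) v_j + (m1_j - M b_j)` (`m0 c_j = m1_j`), so the square is `≤ 5` times the sum of the five squares and
`θ² ∫ G wv⁻¹ (lg_j + 2k (v_j-b_j))² ≤ 5 (e² + 4 e² N* + e² N* + e² K + e² K)` (`wv⁻¹ v_j² ≤ 1`). `C = 5 (1 + 5 N* + 2 K)/θ² + 1`.
-/

set_option autoImplicit false

open MeasureTheory Set Filter Topology Pool.Agent.H25.Kin

namespace Pool.Agent.H19.EN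

variable {d : ℕ}

private lemma cmb_I {m K : ℝ} {G : Vec d → ℝ} (hB : Bd m K G) : Integrable G := by
  have h := hB.rg.int_wv (h := fun _ => (1 : ℝ)) measurable_const (PG.const 1)
  simpa using h

private lemma cmb_m0 {m K : ℝ} {G : Vec d → ℝ} (hB : Bd m K G) : m0 G ≤ K := by
  have h := bd_int hB (h := fun _ => (1 : ℝ)) measurable_const (PG.const 1)
    (fun v => one_le_pow₀ (wv_ge v))
  simpa [m0] using h

private lemma cmb_w0 (v : Vec d) : 0 < (wv v)⁻¹ := inv_pos.2 (wv_pos v)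

private lemma cmb_w1 (v : Vec d) : (wv v)⁻¹ ≤ 1 := inv_le_one_of_one_le₀ (wv_ge v)

private lemma cmb_wc : Continuous fun v : Vec d => (wv v)⁻¹ :=
  wv_cont.inv₀ fun v => (wv_pos v).ne'

private lemma cmb_dom {m K : ℝ} {G : Vec d → ℝ} (hB : Bd m K G) {X : Vec d → ℝ}
    (hX : Continuous X) {g : Vec d → ℝ} (hg : Integrable g)
    (h : ∀ v, G v * (wv v)⁻¹ * X v ^ 2 ≤ g v) :
    Integrable fun v => G v * (wv v)⁻¹ * X v ^ 2 := by
  have hc : Continuous fun v => G v * (wv v)⁻¹ * X v ^ 2 :=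
    (hB.rg.nice.cont.mul cmb_wc).mul (hX.pow 2)
  refine Integrable.mono' hg hc.aestronglyMeasurable (Eventually.of_forall fun v => ?_)
  have h1 : 0 ≤ G v * (wv v)⁻¹ * X v ^ 2 :=
    mul_nonneg (mul_nonneg (hB.rg.pos v).le (cmb_w0 v).le) (sq_nonneg _)
  rw [Real.norm_of_nonneg h1]
  exact h v

private lemma cmb_A {m K : ℝ} {G : Vec d → ℝ} (hB : Bd m K G) (j : Fin d) :
    Integrable fun v => G v * (wv v)⁻¹ * lg G j v ^ 2 := by
  have hp : PG fun v : Vec d => (wv v)⁻¹ := ⟨0, 1, fun v => by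
    rw [Real.norm_of_nonneg (cmb_w0 v).le]
    simpa using cmb_w1 v⟩
  have h1 := (hB.rg.rd_lg j j).mul_PG hp
  have hc : Continuous fun v => G v * (lg G j v * lg G j v) * (wv v)⁻¹ :=
    (hB.rg.nice.cont.mul ((hB.rg.lg_cont j).mul (hB.rg.lg_cont j))).mul cmb_wc
  refine (h1.integrable hc.aestronglyMeasurable).congr (Eventually.of_forall fun v => ?_)
  show G v * (lg G j v * lg G j v) * (wv v)⁻¹ = G v * (wv v)⁻¹ * lg G j v ^ 2
  ring

private lemma cmb_B {m K : ℝ} {G : Vec d → ℝ} (hB : Bd m K G) (j : Fin d) :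
    Integrable (fun v => G v * (wv v)⁻¹ * (v j) ^ 2) ∧
      ∫ v, G v * (wv v)⁻¹ * (v j) ^ 2 ≤ K := by
  have h1 : ∀ v : Vec d, G v * (wv v)⁻¹ * (v j) ^ 2 ≤ G v := fun v => by
    have h2 : (wv v)⁻¹ * (v j) ^ 2 ≤ 1 := by
      rw [inv_mul_le_iff₀ (wv_pos v), mul_one]
      exact coord_sq_le v j
    have h3 := mul_le_mul_of_nonneg_left h2 (hB.rg.pos v).le
    rw [mul_one, ← mul_assoc] at h3
    exact h3
  have h2 := cmb_dom hB (X := fun v => v j) (continuous_apply j) (cmb_I hB) h1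
  refine ⟨h2, (integral_mono h2 (cmb_I hB) h1).trans (cmb_m0 hB)⟩

private lemma cmb_D {m K : ℝ} {G : Vec d → ℝ} (hB : Bd m K G) :
    Integrable (fun v => G v * (wv v)⁻¹) ∧ ∫ v, G v * (wv v)⁻¹ ≤ K := by
  have h1 : ∀ v : Vec d, G v * (wv v)⁻¹ ≤ G v := fun v => by
    have h3 := mul_le_mul_of_nonneg_left (cmb_w1 v) (hB.rg.pos v).le
    rwa [mul_one] at h3
  have h2 : Integrable fun v => G v * (wv v)⁻¹ := by
    have h3 := cmb_dom hB (X := fun _ => (1 : ℝ)) continuous_const (cmb_I hB) (fun v => by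
      rw [one_pow, mul_one]; exact h1 v)
    simpa using h3
  exact ⟨h2, (integral_mono h2 (cmb_I hB) h1).trans (cmb_m0 hB)⟩

private lemma cmb_E {m K : ℝ} {G : Vec d → ℝ} (hB : Bd m K G) (j : Fin d) :
    Integrable (fun v => G v * (wv v)⁻¹ * (v j - ct G j) ^ 2) ∧
      ∫ v, G v * (wv v)⁻¹ * (v j - ct G j) ^ 2 ≤ 2 * (1 + (K / m) ^ 2) * K := by
  have hL : 0 ≤ 2 * (1 + (K / m) ^ 2) := by positivity
  have h1 : ∀ v : Vec d, G v * (wv v)⁻¹ * (v j - ct G j) ^ 2 ≤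
      2 * (1 + (K / m) ^ 2) * G v := fun v => by
    have h2 : (wv v)⁻¹ * (v j - ct G j) ^ 2 ≤ 2 * (1 + (K / m) ^ 2) := by
      rw [inv_mul_le_iff₀ (wv_pos v), mul_comm (wv v)]
      exact bd_sq hB j v
    have h3 := mul_le_mul_of_nonneg_left h2 (hB.rg.pos v).le
    rw [← mul_assoc] at h3
    rw [mul_comm _ (G v)]
    exact h3
  have hi := (cmb_I hB).const_mul (2 * (1 + (K / m) ^ 2))
  have h2 := cmb_dom hB (X := fun v => v j - ct G j)
    ((continuous_apply j).sub continuous_const) hi h1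
  refine ⟨h2, (integral_mono h2 hi h1).trans ?_⟩
  rw [integral_const_mul]
  exact mul_le_mul_of_nonneg_left (cmb_m0 hB) hL

private lemma cmb_Rc {m K : ℝ} {G : Vec d → ℝ} (hB : Bd m K G) (i j : Fin d) :
    Continuous (Rf G i j) := by
  unfold Rf
  exact ((continuous_const.mul (hB.rg.lg_cont j)).sub
    (continuous_const.mul (hB.rg.lg_cont i))).add
    (continuous_const.mul ((continuous_apply j).sub continuous_const))

private lemma cmb_R {m K : ℝ} {G : Vec d → ℝ} (hB : Bd m K G) (i j : Fin d) :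
    Integrable (fun v => G v * (wv v)⁻¹ * Rf G i j v ^ 2) := by
  have hi := (((cmb_A hB j).const_mul (Th G i i ^ 2)).add
    (((cmb_A hB i).const_mul (Th G i j ^ 2)).add
      ((cmb_E hB j).1.const_mul (m0 G ^ 2)))).const_mul 3
  refine cmb_dom hB (cmb_Rc hB i j) hi fun v => ?_
  have hw : 0 ≤ G v * (wv v)⁻¹ := mul_nonneg (hB.rg.pos v).le (cmb_w0 v).le
  have h1 : Rf G i j v ^ 2 ≤ 3 * (Th G i i ^ 2 * lg G j v ^ 2 + (Th G i j ^ 2 * lg G i v ^ 2 +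
      m0 G ^ 2 * (v j - ct G j) ^ 2)) := by
    unfold Rf
    nlinarith [sq_nonneg (Th G i i * lg G j v + Th G i j * lg G i v),
      sq_nonneg (Th G i i * lg G j v - m0 G * (v j - ct G j)),
      sq_nonneg (Th G i j * lg G i v + m0 G * (v j - ct G j))]
  have h2 := mul_le_mul_of_nonneg_left h1 hw
  refine h2.trans (le_of_eq ?_)
  show _ = 3 * (Th G i i ^ 2 * (G v * (wv v)⁻¹ * lg G j v ^ 2) +
    (Th G i j ^ 2 * (G v * (wv v)⁻¹ * lg G i v ^ 2) +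
      m0 G ^ 2 * (G v * (wv v)⁻¹ * (v j - ct G j) ^ 2)))
  ring

private lemma cmb_N0 {m K : ℝ} {G : Vec d → ℝ} (hB : Bd m K G) (j : Fin d) :
    0 ≤ ∫ v, G v * (wv v)⁻¹ * lg G j v ^ 2 :=
  integral_nonneg fun v => mul_nonneg (mul_nonneg (hB.rg.pos v).le (cmb_w0 v).le) (sq_nonneg _)

private lemma cmb_one {m K : ℝ} {G : Vec d → ℝ} (hB : Bd m K G) (i j : Fin d) :
    Th G i i ^ 2 * ∫ v, G v * (wv v)⁻¹ * lg G j v ^ 2 ≤
      3 * ((∫ v, G v * (wv v)⁻¹ * Rf G i j v ^ 2) +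
        (Th G i j ^ 2 * (∫ v, G v * (wv v)⁻¹ * lg G i v ^ 2) +
          m0 G ^ 2 * (2 * (1 + (K / m) ^ 2) * K))) := by
  have hi := ((cmb_R hB i j).add
    (((cmb_A hB i).const_mul (Th G i j ^ 2)).add
      ((cmb_E hB j).1.const_mul (m0 G ^ 2)))).const_mul 3
  have h1 : ∫ v, Th G i i ^ 2 * (G v * (wv v)⁻¹ * lg G j v ^ 2) ≤
      ∫ v, 3 * (G v * (wv v)⁻¹ * Rf G i j v ^ 2 +
        (Th G i j ^ 2 * (G v * (wv v)⁻¹ * lg G i v ^ 2) +
          m0 G ^ 2 * (G v * (wv v)⁻¹ * (v j - ct G j) ^ 2))) := by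
    refine integral_mono ((cmb_A hB j).const_mul _) hi fun v => ?_
    show Th G i i ^ 2 * (G v * (wv v)⁻¹ * lg G j v ^ 2) ≤
      3 * (G v * (wv v)⁻¹ * Rf G i j v ^ 2 +
        (Th G i j ^ 2 * (G v * (wv v)⁻¹ * lg G i v ^ 2) +
          m0 G ^ 2 * (G v * (wv v)⁻¹ * (v j - ct G j) ^ 2)))
    have hw : 0 ≤ G v * (wv v)⁻¹ := mul_nonneg (hB.rg.pos v).le (cmb_w0 v).le
    have h2 : Th G i i * lg G j v = Rf G i j v + Th G i j * lg G i v -
        m0 G * (v j - ct G j) := by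
      unfold Rf; ring
    have h3 : (Th G i i * lg G j v) ^ 2 ≤ 3 * (Rf G i j v ^ 2 + (Th G i j ^ 2 * lg G i v ^ 2 +
        m0 G ^ 2 * (v j - ct G j) ^ 2)) := by
      rw [h2]
      nlinarith [sq_nonneg (Rf G i j v - Th G i j * lg G i v),
        sq_nonneg (Rf G i j v + m0 G * (v j - ct G j)),
        sq_nonneg (Th G i j * lg G i v + m0 G * (v j - ct G j))]
    have h4 := mul_le_mul_of_nonneg_left h3 hw
    calc Th G i i ^ 2 * (G v * (wv v)⁻¹ * lg G j v ^ 2) =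
        G v * (wv v)⁻¹ * (Th G i i * lg G j v) ^ 2 := by ring
      _ ≤ _ := h4
      _ = _ := by ring
  have e0 : ∫ v, 3 * (G v * (wv v)⁻¹ * Rf G i j v ^ 2 +
        (Th G i j ^ 2 * (G v * (wv v)⁻¹ * lg G i v ^ 2) +
          m0 G ^ 2 * (G v * (wv v)⁻¹ * (v j - ct G j) ^ 2))) =
      3 * ((∫ v, G v * (wv v)⁻¹ * Rf G i j v ^ 2) +
        (Th G i j ^ 2 * (∫ v, G v * (wv v)⁻¹ * lg G i v ^ 2) +
          m0 G ^ 2 * ∫ v, G v * (wv v)⁻¹ * (v j - ct G j) ^ 2)) := by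
    rw [integral_const_mul]
    congr 1
    refine (integral_add (cmb_R hB i j) (((cmb_A hB i).const_mul (Th G i j ^ 2)).add
      ((cmb_E hB j).1.const_mul (m0 G ^ 2)))).trans ?_
    congr 1
    refine (integral_add ((cmb_A hB i).const_mul (Th G i j ^ 2))
      ((cmb_E hB j).1.const_mul (m0 G ^ 2))).trans ?_
    rw [integral_const_mul, integral_const_mul]
  rw [e0, integral_const_mul] at h1
  have h5 := mul_le_mul_of_nonneg_left (cmb_E hB j).2 (sq_nonneg (m0 G))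
  linarith

private lemma cmb_two {m K : ℝ} {G : Vec d → ℝ} (hB : Bd m K G) (i j : Fin d) {θ M k : ℝ}
    (hθ : θ * (2 * k) = M) (b : Vec d) :
    θ ^ 2 * ∫ v, G v * (wv v)⁻¹ * (lg G j v + 2 * k * (v j - b j)) ^ 2 ≤
      5 * ((∫ v, G v * (wv v)⁻¹ * Rf G i j v ^ 2) +
        ((Th G i i - θ) ^ 2 * (∫ v, G v * (wv v)⁻¹ * lg G j v ^ 2) +
          (Th G i j ^ 2 * (∫ v, G v * (wv v)⁻¹ * lg G i v ^ 2) +
            ((M - m0 G) ^ 2 * K + (m1 G j - M * b j) ^ 2 * K)))) := by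
  have hm0 : 0 < m0 G := hB.mp.trans_le hB.mass
  have hct : m0 G * ct G j = m1 G j := by
    unfold ct
    field_simp
  have i1 := (cmb_A hB j).const_mul ((Th G i i - θ) ^ 2)
  have i2 := (cmb_A hB i).const_mul (Th G i j ^ 2)
  have i3 := (cmb_B hB j).1.const_mul ((M - m0 G) ^ 2)
  have i4 := (cmb_D hB).1.const_mul ((m1 G j - M * b j) ^ 2)
  have i34 := i3.add i4
  have i234 := i2.add i34
  have i1234 := i1.add i234
  have i0 := (cmb_R hB i j).add i1234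
  have hi := i0.const_mul 5
  have hpt : ∀ v, θ ^ 2 * (G v * (wv v)⁻¹ * (lg G j v + 2 * k * (v j - b j)) ^ 2) ≤
      5 * (G v * (wv v)⁻¹ * Rf G i j v ^ 2 +
        ((Th G i i - θ) ^ 2 * (G v * (wv v)⁻¹ * lg G j v ^ 2) +
          (Th G i j ^ 2 * (G v * (wv v)⁻¹ * lg G i v ^ 2) +
            ((M - m0 G) ^ 2 * (G v * (wv v)⁻¹ * (v j) ^ 2) +
              (m1 G j - M * b j) ^ 2 * (G v * (wv v)⁻¹))))) := fun v => by
    have hw : 0 ≤ G v * (wv v)⁻¹ := mul_nonneg (hB.rg.pos v).le (cmb_w0 v).le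
    have h2 : θ * (lg G j v + 2 * k * (v j - b j)) = Rf G i j v - (Th G i i - θ) * lg G j v +
        Th G i j * lg G i v + (M - m0 G) * v j + (m1 G j - M * b j) := by
      rw [← hct]
      unfold Rf
      have h3 : θ * (lg G j v + 2 * k * (v j - b j)) =
          θ * lg G j v + θ * (2 * k) * (v j - b j) := by ring
      rw [h3, hθ]
      ring
    have h5 : ∀ a1 a2 a3 a4 a5 : ℝ, (a1 - a2 + a3 + a4 + a5) ^ 2 ≤
        5 * (a1 ^ 2 + (a2 ^ 2 + (a3 ^ 2 + (a4 ^ 2 + a5 ^ 2)))) := fun a1 a2 a3 a4 a5 => by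
      nlinarith [sq_nonneg (a1 + a2), sq_nonneg (a1 - a3), sq_nonneg (a1 - a4),
        sq_nonneg (a1 - a5), sq_nonneg (a2 + a3), sq_nonneg (a2 + a4), sq_nonneg (a2 + a5),
        sq_nonneg (a3 - a4), sq_nonneg (a3 - a5), sq_nonneg (a4 - a5)]
    have h6 := h5 (Rf G i j v) ((Th G i i - θ) * lg G j v) (Th G i j * lg G i v)
      ((M - m0 G) * v j) (m1 G j - M * b j)
    rw [← h2] at h6
    have h7 := mul_le_mul_of_nonneg_left h6 hw
    calc θ ^ 2 * (G v * (wv v)⁻¹ * (lg G j v + 2 * k * (v j - b j)) ^ 2) =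
        G v * (wv v)⁻¹ * (θ * (lg G j v + 2 * k * (v j - b j))) ^ 2 := by ring
      _ ≤ _ := h7
      _ = _ := by ring
  have h1 : ∫ v, θ ^ 2 * (G v * (wv v)⁻¹ * (lg G j v + 2 * k * (v j - b j)) ^ 2) ≤
      ∫ v, 5 * (G v * (wv v)⁻¹ * Rf G i j v ^ 2 +
        ((Th G i i - θ) ^ 2 * (G v * (wv v)⁻¹ * lg G j v ^ 2) +
          (Th G i j ^ 2 * (G v * (wv v)⁻¹ * lg G i v ^ 2) +
            ((M - m0 G) ^ 2 * (G v * (wv v)⁻¹ * (v j) ^ 2) +
              (m1 G j - M * b j) ^ 2 * (G v * (wv v)⁻¹))))) :=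
    integral_mono_of_nonneg (Eventually.of_forall fun v => mul_nonneg (sq_nonneg _)
      (mul_nonneg (mul_nonneg (hB.rg.pos v).le (cmb_w0 v).le) (sq_nonneg _))) hi
      (Eventually.of_forall hpt)
  have e0 : ∫ v, 5 * (G v * (wv v)⁻¹ * Rf G i j v ^ 2 +
        ((Th G i i - θ) ^ 2 * (G v * (wv v)⁻¹ * lg G j v ^ 2) +
          (Th G i j ^ 2 * (G v * (wv v)⁻¹ * lg G i v ^ 2) +
            ((M - m0 G) ^ 2 * (G v * (wv v)⁻¹ * (v j) ^ 2) +
              (m1 G j - M * b j) ^ 2 * (G v * (wv v)⁻¹))))) =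
      5 * ((∫ v, G v * (wv v)⁻¹ * Rf G i j v ^ 2) +
        ((Th G i i - θ) ^ 2 * (∫ v, G v * (wv v)⁻¹ * lg G j v ^ 2) +
          (Th G i j ^ 2 * (∫ v, G v * (wv v)⁻¹ * lg G i v ^ 2) +
            ((M - m0 G) ^ 2 * (∫ v, G v * (wv v)⁻¹ * (v j) ^ 2) +
              (m1 G j - M * b j) ^ 2 * ∫ v, G v * (wv v)⁻¹)))) := by
    rw [integral_const_mul]
    congr 1
    refine (integral_add (cmb_R hB i j) i1234).trans ?_
    congr 1
    refine (integral_add i1 i234).trans ?_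
    rw [integral_const_mul]
    congr 1
    refine (integral_add i2 i34).trans ?_
    rw [integral_const_mul]
    congr 1
    refine (integral_add i3 i4).trans ?_
    rw [integral_const_mul, integral_const_mul]
  rw [e0, integral_const_mul] at h1
  have h8 := mul_le_mul_of_nonneg_left (cmb_B hB j).2 (sq_nonneg (M - m0 G))
  have h9 := mul_le_mul_of_nonneg_left (cmb_D hB).2 (sq_nonneg (m1 G j - M * b j))
  linarith

theorem cmb (hd : 2 ≤ d) {M k : ℝ} (hM : 0 < M) (hk : 0 < k) (b : Vec d) (m K : ℝ) :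
    ∃ C > 0, ∃ e₀ > 0, ∀ G : Vec d → ℝ, Bd m K G → ∀ e ∈ Ioc (0 : ℝ) e₀,
      (∀ i j : Fin d, i ≠ j → |Th G i i - Th G j j| ≤ e ∧ |Th G i j| ≤ e) →
      (∀ i j : Fin d, i ≠ j → ∫ v, G v * (wv v)⁻¹ * Rf G i j v ^ 2 ≤ e ^ 2) →
      |m0 G - M| ≤ e → (∀ i, |m1 G i - M * b i| ≤ e) → |(∑ i, Th G i i) - d * (M / (2 * k))| ≤ e →
      ∀ j, ∫ v, G v * (wv v)⁻¹ * (lg G j v + 2 * k * (v j - b j)) ^ 2 ≤ C * e ^ 2 := by
  obtain ⟨θ, hθ⟩ : ∃ θ : ℝ, θ = M / (2 * k) := ⟨_, rfl⟩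
  have hθ0 : 0 < θ := by rw [hθ]; positivity
  have hθM : θ * (2 * k) = M := by rw [hθ]; field_simp
  have hd2 : (2 : ℝ) ≤ d := by exact_mod_cast hd
  have hd0 : (0 : ℝ) < d := by linarith
  obtain ⟨L, hL⟩ : ∃ L : ℝ, L = 2 * (1 + (K / m) ^ 2) := ⟨_, rfl⟩
  have hL0 : 0 ≤ L := by rw [hL]; positivity
  obtain ⟨N', hN'⟩ : ∃ N' : ℝ, N' = 24 * d * (1 + |K| ^ 3 * L) / θ ^ 2 := ⟨_, rfl⟩
  have hN0 : 0 ≤ N' := by rw [hN']; positivity
  refine ⟨5 * (1 + 5 * N' + 2 * |K|) / θ ^ 2 + 1, by positivity, min 1 (θ / (5 * d)),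
    lt_min one_pos (by positivity), fun G hB e he hT hR hm hm1 htr j => ?_⟩
  have he0 : 0 < e := he.1
  have he1 : e ≤ 1 := he.2.trans (min_le_left _ _)
  have he2 : 5 * d * e ≤ θ := by
    have h1 := he.2.trans (min_le_right _ _)
    rw [le_div_iff₀ (by positivity)] at h1
    linarith
  have hK0 : 0 < K := (hB.mp.trans_le hB.mass).trans_le (cmb_m0 hB)
  have hKa : |K| = K := abs_of_pos hK0
  have hm00 : 0 < m0 G := hB.mp.trans_le hB.mass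
  have hm0K := cmb_m0 hB
  -- step 1
  have hTe : ∀ i l : Fin d, |Th G i i - Th G l l| ≤ e := fun i l => by
    by_cases h : i = l
    · rw [h, sub_self, abs_zero]; exact he0.le
    · exact (hT i l h).1
  have hTi : ∀ i : Fin d, |Th G i i - θ| ≤ 2 * e := fun i => by
    have h1 : |∑ l, (Th G i i - Th G l l)| ≤ d * e := by
      refine (Finset.abs_sum_le_sum_abs _ _).trans ?_
      refine (Finset.sum_le_sum fun l _ => hTe i l).trans ?_
      rw [Finset.sum_const, Finset.card_univ, Fintype.card_fin, nsmul_eq_mul]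
    rw [Finset.sum_sub_distrib, Finset.sum_const, Finset.card_univ, Fintype.card_fin,
      nsmul_eq_mul] at h1
    rw [← hθ] at htr
    have h2 : d * |Th G i i - θ| ≤ d * e + e := by
      rw [← abs_of_pos hd0, ← abs_mul, abs_of_pos hd0]
      have h3 : (d : ℝ) * (Th G i i - θ) = (d * Th G i i - ∑ l, Th G l l) +
          ((∑ l, Th G l l) - d * θ) := by ring
      rw [h3]
      exact (abs_add_le _ _).trans (add_le_add h1 htr)
    have h4 : d * |Th G i i - θ| ≤ d * (2 * e) := by nlinarith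
    exact le_of_mul_le_mul_left h4 hd0
  have hTh : ∀ i : Fin d, θ / 2 ≤ Th G i i := fun i => by
    have h1 := (abs_le.1 (hTi i)).1
    nlinarith
  -- step 2
  obtain ⟨N, hN⟩ : ∃ N : Fin d → ℝ, N = fun j => ∫ v, G v * (wv v)⁻¹ * lg G j v ^ 2 := ⟨_, rfl⟩
  have hNn : ∀ j, 0 ≤ N j := fun j => by rw [hN]; exact cmb_N0 hB j
  have hNle : ∀ i, N i ≤ ∑ l, N l := fun i =>
    Finset.single_le_sum (f := N) (fun l _ => hNn l) (Finset.mem_univ i)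
  have hne : ∀ j : Fin d, ∃ i : Fin d, i ≠ j := fun j => by
    have : Nontrivial (Fin d) := Fin.nontrivial_iff_two_le.2 hd
    exact exists_ne j
  have hS0 : 0 ≤ ∑ l, N l := Finset.sum_nonneg fun l _ => hNn l
  have he2' : e ^ 2 ≤ 1 := by nlinarith
  have hm0sq : m0 G ^ 2 ≤ K ^ 2 := by nlinarith
  have hstep : ∀ j, (θ / 2) ^ 2 * N j ≤ 3 * (1 + (e ^ 2 * (∑ l, N l) + K ^ 3 * L)) := fun j => by
    obtain ⟨i, hij⟩ := hne j
    have h1 := cmb_one hB i j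
    rw [← hL] at h1
    have h2 := hR i j hij
    have h3 : Th G i j ^ 2 ≤ e ^ 2 := by
      rw [← sq_abs (Th G i j)]
      exact pow_le_pow_left₀ (abs_nonneg _) (hT i j hij).2 2
    have hNi : (∫ v, G v * (wv v)⁻¹ * lg G i v ^ 2) = N i := by rw [hN]
    have hNj : (∫ v, G v * (wv v)⁻¹ * lg G j v ^ 2) = N j := by rw [hN]
    rw [hNi, hNj] at h1
    have h4 : Th G i j ^ 2 * N i ≤ e ^ 2 * ∑ l, N l :=
      mul_le_mul h3 (hNle i) (hNn i) (sq_nonneg e)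
    have h5 : m0 G ^ 2 * (L * K) ≤ K ^ 3 * L := by
      have h6 := mul_le_mul_of_nonneg_right hm0sq (mul_nonneg hL0 hK0.le)
      calc m0 G ^ 2 * (L * K) ≤ K ^ 2 * (L * K) := h6
        _ = K ^ 3 * L := by ring
    have h7 : (θ / 2) ^ 2 * N j ≤ Th G i i ^ 2 * N j := by
      refine mul_le_mul_of_nonneg_right ?_ (hNn j)
      exact pow_le_pow_left₀ (by positivity) (hTh i) 2
    linarith
  have hsum : (θ / 2) ^ 2 * ∑ l, N l ≤ d * (3 * (1 + (e ^ 2 * (∑ l, N l) + K ^ 3 * L))) := by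
    rw [Finset.mul_sum]
    refine (Finset.sum_le_sum fun l _ => hstep l).trans ?_
    rw [Finset.sum_const, Finset.card_univ, Fintype.card_fin, nsmul_eq_mul]
  have hde : 3 * d * e ^ 2 ≤ θ ^ 2 / 8 := by
    have h1 : (5 * d * e) ^ 2 ≤ θ ^ 2 := pow_le_pow_left₀ (by positivity) he2 2
    have h2 : 0 ≤ e ^ 2 := sq_nonneg e
    have h3 : 3 * d * e ^ 2 * 8 ≤ (5 * d * e) ^ 2 := by
      have h4 : (5 * d * e) ^ 2 = 25 * d * (d * e ^ 2) := by ring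
      rw [h4]
      have h5 : 0 ≤ d * e ^ 2 := by positivity
      nlinarith
    linarith
  have hSN : ∑ l, N l ≤ N' := by
    rw [hN', hKa, le_div_iff₀ (by positivity)]
    have h1 : 3 * d * e ^ 2 * ∑ l, N l ≤ θ ^ 2 / 8 * ∑ l, N l :=
      mul_le_mul_of_nonneg_right hde hS0
    nlinarith
  -- step 3
  obtain ⟨i, hij⟩ := hne j
  have h1 := cmb_two hB i j hθM b
  have hNi : (∫ v, G v * (wv v)⁻¹ * lg G i v ^ 2) = N i := by rw [hN]
  have hNj : (∫ v, G v * (wv v)⁻¹ * lg G j v ^ 2) = N j := by rw [hN]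
  rw [hNi, hNj] at h1
  have h2 := hR i j hij
  have h3 : Th G i j ^ 2 ≤ e ^ 2 := by
    rw [← sq_abs (Th G i j)]
    exact pow_le_pow_left₀ (abs_nonneg _) (hT i j hij).2 2
  have h4 : (Th G i i - θ) ^ 2 ≤ 4 * e ^ 2 := by
    rw [← sq_abs (Th G i i - θ)]
    have h5 := pow_le_pow_left₀ (abs_nonneg _) (hTi i) 2
    calc |Th G i i - θ| ^ 2 ≤ (2 * e) ^ 2 := h5
      _ = 4 * e ^ 2 := by ring
  have h5 : (M - m0 G) ^ 2 ≤ e ^ 2 := by
    rw [← sq_abs (M - m0 G), abs_sub_comm]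
    exact pow_le_pow_left₀ (abs_nonneg _) hm 2
  have h6 : (m1 G j - M * b j) ^ 2 ≤ e ^ 2 := by
    rw [← sq_abs (m1 G j - M * b j)]
    exact pow_le_pow_left₀ (abs_nonneg _) (hm1 j) 2
  have g1 : (Th G i i - θ) ^ 2 * N j ≤ 4 * e ^ 2 * N' :=
    mul_le_mul h4 ((hNle j).trans hSN) (hNn j) (by positivity)
  have g2 : Th G i j ^ 2 * N i ≤ e ^ 2 * N' :=
    mul_le_mul h3 ((hNle i).trans hSN) (hNn i) (sq_nonneg e)
  have g3 : (M - m0 G) ^ 2 * K ≤ e ^ 2 * K := mul_le_mul_of_nonneg_right h5 hK0.le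
  have g4 : (m1 G j - M * b j) ^ 2 * K ≤ e ^ 2 * K := mul_le_mul_of_nonneg_right h6 hK0.le
  have g5 : θ ^ 2 * ∫ v, G v * (wv v)⁻¹ * (lg G j v + 2 * k * (v j - b j)) ^ 2 ≤
      5 * (1 + 5 * N' + 2 * K) * e ^ 2 := by
    have : 5 * (1 + 5 * N' + 2 * K) * e ^ 2 =
        5 * (e ^ 2 + (4 * e ^ 2 * N' + (e ^ 2 * N' + (e ^ 2 * K + e ^ 2 * K)))) := by ring
    rw [this]
    linarith
  have g6 : ∫ v, G v * (wv v)⁻¹ * (lg G j v + 2 * k * (v j - b j)) ^ 2 ≤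
      5 * (1 + 5 * N' + 2 * K) / θ ^ 2 * e ^ 2 := by
    rw [div_mul_eq_mul_div, le_div_iff₀ (by positivity)]
    linarith
  rw [hKa]
  have g7 : 0 ≤ e ^ 2 := sq_nonneg e
  nlinarith

end Pool.Agent.H19.EN
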