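import Pool.Agent.H19.EN.Dis

/-!
# Module Csq: Cauchy-Schwarz

`a(v,w) = √(G G*/(⟨v⟩²⟨w⟩²)) q_ij`, `b(v,w) = √(G G* ⟨v⟩² ⟨w⟩²) ψ(v) φ(w)`: `a² = qd`, `b² = (G wv ψ²)(v) (G wv φ²)(w)` (integrable: `Integrable.mul_prod`, from `hψ.rd2.mul_PG wv_PG`), `a b = G G* q_ij ψ φ`, `|a b| ≤ (a² + b²)/2`, measurable, so integrable.
For every real `t`: `0 ≤ ∫ (a - t b)² = A - 2 t B + t² E`; so `B² ≤ A E` (`discrim_le_zero`), `E = (∫ G wv ψ²)(∫ G wv φ²)` (`integral_prod_mul`), `A = ∫ qd ≤ 4 EP` (`dis_le`), `E ≥ 0`.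
-/

set_option autoImplicit false

open MeasureTheory Set Filter Topology Pool.Agent.H25.Kin

namespace Pool.Agent.H19.EN

variable {d : ℕ} {γ : ℝ}

private lemma Csq_qf_meas {G : Vec d → ℝ} (hG : Rg G) (i j : Fin d) : Measurable (qf G i j) := by
  unfold qf
  have h1 := (hG.lg_cont i).measurable
  have h2 := (hG.lg_cont j).measurable
  have a1 : Measurable fun p : Vec d × Vec d => lg G i p.1 := h1.comp measurable_fst
  have a2 : Measurable fun p : Vec d × Vec d => lg G i p.2 := h1.comp measurable_snd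
  have a3 : Measurable fun p : Vec d × Vec d => lg G j p.1 := h2.comp measurable_fst
  have a4 : Measurable fun p : Vec d × Vec d => lg G j p.2 := h2.comp measurable_snd
  have b1 : Measurable fun p : Vec d × Vec d => p.1 i - p.2 i := by fun_prop
  have b2 : Measurable fun p : Vec d × Vec d => p.1 j - p.2 j := by fun_prop
  exact (b1.mul (a3.sub a4)).sub (b2.mul (a1.sub a2))

private lemma Csq_sq_int {G ψ : Vec d → ℝ} (hG : Rg G) (hψ : TF G ψ) :
    Integrable fun v => G v * wv v * ψ v ^ 2 := by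
  have h1 : RD fun v => G v * wv v * ψ v ^ 2 := by
    refine (hψ.rd2.mul_PG wv_PG).mono 1 fun v => ?_
    rw [one_mul]
    refine le_of_eq (congrArg _ ?_)
    ring
  exact h1.integrable ((hG.nice.cont.measurable.mul wv_cont.measurable).mul
    (hψ.meas.pow_const 2)).aestronglyMeasurable

theorem csq (h1 : -2 < γ) (h2 : γ ≤ 0) {G : Vec d → ℝ} (hG : Rg G) {i j : Fin d} (hij : i ≠ j)
    {ψ φ : Vec d → ℝ} (hψ : TF G ψ) (hφ : TF G φ) :
    (∫ p : Vec d × Vec d, G p.1 * G p.2 * qf G i j p * (ψ p.1 * φ p.2) ∂(volume.prod volume)) ^ 2 ≤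
      4 * EP γ G * ((∫ v, G v * wv v * ψ v ^ 2) * ∫ w, G w * wv w * φ w ^ 2) := by
  have hA := dis_int h1 h2 hG hij (γ := γ)
  have hAle := dis_le h1 h2 hG hij
  have hgm := hG.nice.cont.measurable
  have hwm : Measurable (wv : Vec d → ℝ) := wv_cont.measurable
  have hE : Integrable (fun p : Vec d × Vec d =>
      (G p.1 * wv p.1 * ψ p.1 ^ 2) * (G p.2 * wv p.2 * φ p.2 ^ 2)) (volume.prod volume) :=
    (Csq_sq_int hG hψ).mul_prod (Csq_sq_int hG hφ)
  have hqm := Csq_qf_meas hG i j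
  have g1 : Measurable fun p : Vec d × Vec d => G p.1 := hgm.comp measurable_fst
  have g2 : Measurable fun p : Vec d × Vec d => G p.2 := hgm.comp measurable_snd
  have g3 : Measurable fun p : Vec d × Vec d => ψ p.1 := hψ.meas.comp measurable_fst
  have g4 : Measurable fun p : Vec d × Vec d => φ p.2 := hφ.meas.comp measurable_snd
  have key : ∀ (t : ℝ) (p : Vec d × Vec d), 0 ≤ qd G i j p -
      2 * t * (G p.1 * G p.2 * qf G i j p * (ψ p.1 * φ p.2)) +
      t ^ 2 * ((G p.1 * wv p.1 * ψ p.1 ^ 2) * (G p.2 * wv p.2 * φ p.2 ^ 2)) := by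
    intro t p
    have w1 := wv_pos p.1
    have w2 := wv_pos p.2
    have e : qd G i j p - 2 * t * (G p.1 * G p.2 * qf G i j p * (ψ p.1 * φ p.2)) +
        t ^ 2 * ((G p.1 * wv p.1 * ψ p.1 ^ 2) * (G p.2 * wv p.2 * φ p.2 ^ 2)) =
        G p.1 * G p.2 * ((wv p.1)⁻¹ * (wv p.2)⁻¹) *
          (qf G i j p - t * (wv p.1 * wv p.2) * (ψ p.1 * φ p.2)) ^ 2 := by
      unfold qd
      field_simp
      ring
    rw [e]
    have p1 := hG.pos p.1
    have p2 := hG.pos p.2
    positivity
  have hB : Integrable (fun p : Vec d × Vec d => G p.1 * G p.2 * qf G i j p * (ψ p.1 * φ p.2))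
      (volume.prod volume) := by
    refine (hA.add hE).mono' (((g1.mul g2).mul hqm).mul (g3.mul g4)).aestronglyMeasurable
      (Filter.Eventually.of_forall fun p => ?_)
    have k1 := key 1 p
    have k2 := key (-1) p
    have k3 := key 0 p
    have k4 : 0 ≤ (G p.1 * wv p.1 * ψ p.1 ^ 2) * (G p.2 * wv p.2 * φ p.2 ^ 2) := by
      have p1 := hG.pos p.1
      have p2 := hG.pos p.2
      have w1 := wv_pos p.1
      have w2 := wv_pos p.2
      positivity
    simp only [Pi.add_apply]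
    rw [Real.norm_eq_abs, abs_le]
    constructor <;> nlinarith
  have hint : ∀ t : ℝ, 0 ≤ (∫ p : Vec d × Vec d,
      ((G p.1 * wv p.1 * ψ p.1 ^ 2) * (G p.2 * wv p.2 * φ p.2 ^ 2)) ∂(volume.prod volume)) *
        (t * t) + (-2 * ∫ p : Vec d × Vec d, G p.1 * G p.2 * qf G i j p * (ψ p.1 * φ p.2)
          ∂(volume.prod volume)) * t + ∫ p, qd G i j p ∂(volume.prod volume) := by
    intro t
    have h3 := integral_nonneg (μ := (volume : Measure (Vec d)).prod volume) (Pi.le_def.2 (key t))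
    have h4 : ∫ p : Vec d × Vec d, (qd G i j p -
        2 * t * (G p.1 * G p.2 * qf G i j p * (ψ p.1 * φ p.2)) +
        t ^ 2 * ((G p.1 * wv p.1 * ψ p.1 ^ 2) * (G p.2 * wv p.2 * φ p.2 ^ 2)))
        ∂(volume.prod volume) = (∫ p, qd G i j p ∂(volume.prod volume)) -
        2 * t * (∫ p : Vec d × Vec d, G p.1 * G p.2 * qf G i j p * (ψ p.1 * φ p.2)
          ∂(volume.prod volume)) + t ^ 2 * ∫ p : Vec d × Vec d,
          ((G p.1 * wv p.1 * ψ p.1 ^ 2) * (G p.2 * wv p.2 * φ p.2 ^ 2))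
            ∂(volume.prod volume) := by
      have i1 := integral_sub hA (hB.const_mul (2 * t))
      have i2 := integral_add (hA.sub (hB.const_mul (2 * t))) (hE.const_mul (t ^ 2))
      rw [integral_const_mul] at i1
      simp only [Pi.sub_apply] at i2
      rw [i1, integral_const_mul] at i2
      exact i2
    rw [h4] at h3
    linarith
  have hd := discrim_le_zero hint
  rw [integral_prod_mul (μ := (volume : Measure (Vec d))) (ν := (volume : Measure (Vec d)))
    (fun v => G v * wv v * ψ v ^ 2) (fun w => G w * wv w * φ w ^ 2)] at hd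
  unfold discrim at hd
  have hEn : 0 ≤ (∫ v, G v * wv v * ψ v ^ 2) * ∫ w, G w * wv w * φ w ^ 2 := by
    refine mul_nonneg (integral_nonneg fun v => ?_) (integral_nonneg fun v => ?_)
    · have p1 := hG.pos v
      have w1 := wv_pos v
      simp only [Pi.zero_apply]
      positivity
    · have p1 := hG.pos v
      have w1 := wv_pos v
      simp only [Pi.zero_apply]
      positivity
  have h5 := mul_le_mul_of_nonneg_right hAle hEn
  nlinarith

end Pool.Agent.H19.EN
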