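import Pool.Agent.H37.LN.Defs
import Pool.Agent.H15.AV.LH
import Pool.Agent.H15.AV.Poi
import Pool.Agent.H48.NE.Mxw

/-!
# Entropy production of one slice for the Landau operator (MP_c15324_an, case (L)): definitions

TARGET (module SFin): `sliceL : SliceL d γ` (interface of Pool/Agent/H37/LN/Defs.lean), `2 ≤ d`, `-2 < γ ≤ 0`.

PROOF (Desvillettes, explicit). `G = g + δ gau`, `u = ∇ log G` (`lg G i = ∂_i G / G`), `z = v - w`, `q_ij(v,w) = z_i (u_j(v) - u_j(w)) - z_j (u_i(v) - u_i(w))` (`qf`), `⟨v⟩² = 1 + |v|²` (`wv`), `EP γ G = -∫ landauQ γ G log G` (so `DL γ δ g = EP γ G` by `rfl`).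
(Dis) `∫∫ G G* ⟨v⟩⁻² ⟨w⟩⁻² q_ij² ≤ 4 EP`. (Csq) Cauchy-Schwarz: `(∫∫ G G* q_ij ψ(v) φ(w))² ≤ (4 EP) (∫ G ⟨v⟩² ψ²) (∫ G ⟨w⟩² φ²)`. (Idn) the double integral is a combination of products of single integrals. With `m0, m1, c = m1/m0` (the exact mean), `Θ` = centered second moments:
(Iso) `φ = 1`, `ψ = (v_i-c_i)(v_j-c_j)`, `(v_i-c_i)²`: `|Θ_ii - Θ_jj|², |Θ_ij|² ≤ C EP`. (Fsh) `φ = w_i - c_i`, `ψ = R_ij/⟨v⟩²`, `R_ij = Θ_ii u_j - Θ_ij u_i + m0 (v_j - c_j)` (`Rf`): `∫ G R_ij²/⟨v⟩² ≤ C EP`.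
(Cmb) so `∫ G |u_j + 2k (v_j - b_j)|²/⟨v⟩²` is small when the moments of `G` are close to those of `mx a k b`. (Mom, Mxm) moments. (Loc, Avg) `L¹` Poincaré inequality on a ball for `G exp(k|v-b|²)`; tails.
-/

set_option autoImplicit false

open MeasureTheory Set Filter Topology Pool.Agent.H25.Kin
open Pool.Agent.H15.AV (gau)
open Pool.Agent.H48.PR (Wp)
open Pool.Agent.H48.NE (mx)

namespace Pool.Agent.H19.EN

variable {d : ℕ}

/-- the weight `1 + |v|²` -/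
noncomputable def wv (v : Vec d) : ℝ := 1 + nsq v

/-- regular positive densities: the hypotheses of `landau_H` (H15/AV/LE.lean) -/
structure Rg (G : Vec d → ℝ) : Prop where
  nice : Nice G
  pos : ∀ v, 0 < G v
  plog : PG fun v => Real.log (G v)
  sq : ∀ i, RD fun v => (pd i G v) ^ 2 / G v

/-- `∂_i log G` -/
noncomputable def lg (G : Vec d → ℝ) (i : Fin d) (v : Vec d) : ℝ := pd i G v / G v

/-- entropy production -/
noncomputable def EP (γ : ℝ) (G : Vec d → ℝ) : ℝ := -∫ v, landauQ γ G v * Real.log (G v)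

/-- `q_ij(v,w) = z_i (u_j(v) - u_j(w)) - z_j (u_i(v) - u_i(w))`, `z = v - w`, `u = ∇ log G` -/
noncomputable def qf (G : Vec d → ℝ) (i j : Fin d) (p : Vec d × Vec d) : ℝ :=
  (p.1 i - p.2 i) * (lg G j p.1 - lg G j p.2) - (p.1 j - p.2 j) * (lg G i p.1 - lg G i p.2)

/-- `G G* ⟨v⟩⁻² ⟨w⟩⁻² q_ij²` -/
noncomputable def qd (G : Vec d → ℝ) (i j : Fin d) (p : Vec d × Vec d) : ℝ :=
  G p.1 * G p.2 * ((wv p.1)⁻¹ * (wv p.2)⁻¹) * qf G i j p ^ 2

/-- mass -/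
noncomputable def m0 (G : Vec d → ℝ) : ℝ := ∫ v, G v

/-- momentum -/
noncomputable def m1 (G : Vec d → ℝ) (i : Fin d) : ℝ := ∫ v, G v * v i

/-- mean -/
noncomputable def ct (G : Vec d → ℝ) (i : Fin d) : ℝ := m1 G i / m0 G

/-- centered second moments -/
noncomputable def Th (G : Vec d → ℝ) (i j : Fin d) : ℝ :=
  ∫ v, G v * ((v i - ct G i) * (v j - ct G j))

/-- `R_ij = Θ_ii u_j - Θ_ij u_i + m0 (v_j - c_j)` -/
noncomputable def Rf (G : Vec d → ℝ) (i j : Fin d) (v : Vec d) : ℝ :=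
  Th G i i * lg G j v - Th G i j * lg G i v + m0 G * (v j - ct G j)

/-- admissible test functions for the density `G` -/
structure TF (G ψ : Vec d → ℝ) : Prop where
  meas : Measurable ψ
  rd : RD fun v => G v * ψ v
  rd1 : ∀ j, RD fun v => pd j G v * ψ v
  rd2 : RD fun v => G v * ψ v ^ 2

/-- the class with mass `≥ m > 0` and `∫ G ⟨v⟩⁸ ≤ K` -/
structure Bd (m K : ℝ) (G : Vec d → ℝ) : Prop where
  rg : Rg G
  mp : 0 < m
  mass : m ≤ m0 G
  mom : ∫ v, G v * wv v ^ 4 ≤ K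

lemma wv_ge (v : Vec d) : 1 ≤ wv v := by
  unfold wv
  have := sq_nonneg' v
  linarith

lemma wv_pos (v : Vec d) : 0 < wv v := lt_of_lt_of_le one_pos (wv_ge v)

lemma wv_cont : Continuous (wv : Vec d → ℝ) := continuous_const.add continuous_sq

lemma wv_PG : PG (fun v : Vec d => wv v) := (PG.const (1 : ℝ)).add PG.nsq

lemma coord_sq_le (v : Vec d) (i : Fin d) : v i ^ 2 ≤ wv v := by
  unfold wv
  have h : v i ^ 2 ≤ nsq v :=
    Finset.single_le_sum (f := fun i => v i ^ 2) (fun i _ => sq_nonneg _) (Finset.mem_univ i)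
  linarith

end Pool.Agent.H19.EN
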