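import Pool.Agent.H19.EN.Reg

/-!
# Module Dis: the quadratic form of the entropy production

In the proof of `landau_H` (H15/AV/LE.lean) it is shown that `-∫ landauQ γ G log G = ∑_i ∫ landauFlux_i (∂_iG/G) = ∫ K`, `K = ∑_ij a_ij(v-w) (u_i(v) - u_i(w)) ∂_jG(v) G(w)`, `K` integrable, `K(v,w) + K(w,v) = G(v) G(w) ∑_ij a_ij(v-w) U_i U_j`, `U = u(v) - u(w)`, `u_i = lg G i`. COPY that proof (its private lemmas `le_flux_mul`, `le_flux_int` too): so
`2 EP γ G = ∫ G G* ∑_ij a_ij(z) U_i U_j`, integrand integrable (sum of `K` and `K ∘ swap`).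
`∑_ij a_ij(z) U_i U_j = (|z|²|U|² - (z·U)²) |z|^γ` (`le_psd` in LE), and for `i ≠ j`: `(z_i U_j - z_j U_i)² ≤ |z|²|U|² - (z·U)²` (Lagrange: `∑_{k,l} (z_k U_l - z_l U_k)² = 2 (|z|²|U|² - (z·U)²)`, and the terms `(i,j)` and `(j,i)` are two different terms of the sum, both equal to `(z_i U_j - z_j U_i)²`).
If `z ≠ 0`: `nsq z ^ (γ/2) ≥ (1+nsq z)^(γ/2) ≥ (1+nsq z)^(-1) ≥ (2 wv v wv w)⁻¹` (`γ/2 ≤ 0`: `Real.rpow_le_rpow_of_nonpos`; `γ/2 ≥ -1`, base `≥ 1`; `1 + |v-w|² ≤ 1 + 2|v|² + 2|w|² ≤ 2 (1+|v|²)(1+|w|²)`). If `z = 0` then `q_ij = 0`.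
So `qd ≤ 2 G G* ∑ a U U` pointwise, `qd ≥ 0` is measurable, hence integrable and `∫ qd ≤ 4 EP`. (`qd` is continuous: `lg_cont`.)
-/

set_option autoImplicit false

open MeasureTheory Set Filter Topology Pool.Agent.H25.Kin

namespace Pool.Agent.H19.EN

variable {d : ℕ} {γ : ℝ}

/-- half symmetrised form of `∫ flux_i P` for multipliers `P` which are only controlled together
with `g` and its derivatives -/
private theorem le_flux_mul (h1 : -2 < γ) (h2 : γ ≤ 0) {g : Vec d → ℝ} (hg : Nice g) (i : Fin d)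
    {P : Vec d → ℝ} (ra : ∀ j, RD (fun v => P v * pd j g v)) (rb : RD (fun v => P v * g v))
    (hPm : Measurable P) :
    ∫ v, landauFlux γ g i v * P v = ∑ j, ∫ p : Vec d × Vec d,
      landauA γ (p.1 - p.2) i j * (P p.1 - P p.2) * (pd j g p.1 * g p.2) ∂(volume.prod volume) := by
  rw [landauFlux_funext h1 h2 hg i]
  have k := fun j => kern_landauA (d := d) h1 h2 i j
  have mg := hg.cont.measurable
  have mp := fun j => (hg.pd_cont j).measurable
  have ca : ∀ j, Continuous (conv (fun z => landauA γ z i j) g) := fun j =>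
    continuous_iff_continuousAt.2 fun v =>
      ((k j).conv_hasFDerivAt (hg.smooth.of_le (by norm_num)) hg.rd hg.rd1 v).continuousAt
  have cb : ∀ j, Continuous (conv (fun z => landauA γ z i j) (pd j g)) := fun j =>
    continuous_iff_continuousAt.2 fun v =>
      ((k j).conv_hasFDerivAt (hg.pd_smooth1 j) (hg.pd_RD j) (hg.pd_rd1 j) v).continuousAt
  have i1 : ∀ j, Integrable (fun v => (P v * pd j g v) * conv (fun z => landauA γ z i j) g v) :=
    fun j => ((ra j).mul_PG ((k j).conv_PG hg.rd)).integrable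
      ((hPm.mul (mp j)).mul (ca j).measurable).aestronglyMeasurable
  have i2 : ∀ j, Integrable (fun v => (P v * g v) * conv (fun z => landauA γ z i j) (pd j g) v) :=
    fun j => (rb.mul_PG ((k j).conv_PG (hg.pd_RD j))).integrable
      ((hPm.mul mg).mul (cb j).measurable).aestronglyMeasurable
  have e : ∀ v, (∑ j, (pd j g v * conv (fun z => landauA γ z i j) g v -
      g v * conv (fun z => landauA γ z i j) (pd j g) v)) * P v =
      ∑ j, ((P v * pd j g v) * conv (fun z => landauA γ z i j) g v -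
        (P v * g v) * conv (fun z => landauA γ z i j) (pd j g) v) := by
    intro v
    rw [Finset.sum_mul]
    refine Finset.sum_congr rfl fun j _ => ?_
    ring
  simp_rw [e]
  rw [integral_finsetSum]
  swap
  · intro j _; exact (i1 j).sub (i2 j)
  refine Finset.sum_congr rfl fun j _ => ?_
  rw [integral_sub (i1 j) (i2 j), (k j).integral_conv_mul (ra j) hg.rd (hPm.mul (mp j)) mg,
    (k j).integral_conv_mul rb (hg.pd_RD j) (hPm.mul mg) (mp j),
    bil_symm (fun z => landauA_neg γ z i j) (fun v => P v * g v)]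
  unfold bil
  rw [← integral_sub ((k j).integrable_prod (ra j) hg.rd (hPm.mul (mp j)) mg)
    ((k j).integrable_prod (hg.pd_RD j) rb (mp j) (hPm.mul mg))]
  refine integral_congr_ae (Eventually.of_forall fun p => ?_)
  simp only
  ring

private theorem le_flux_int (h1 : -2 < γ) (h2 : γ ≤ 0) {g : Vec d → ℝ} (hg : Nice g) (i j : Fin d)
    {P : Vec d → ℝ} (ra : ∀ j, RD (fun v => P v * pd j g v)) (rb : RD (fun v => P v * g v))
    (hPm : Measurable P) :
    Integrable (fun p : Vec d × Vec d =>
      landauA γ (p.1 - p.2) i j * (P p.1 - P p.2) * (pd j g p.1 * g p.2))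
      (volume.prod volume) := by
  have k := kern_landauA (d := d) h1 h2 i j
  have mg := hg.cont.measurable
  have mp := (hg.pd_cont j).measurable
  have := (k.integrable_prod (ra j) hg.rd (hPm.mul mp) mg).sub
    (k.integrable_prod (hg.pd_RD j) rb mp (hPm.mul mg))
  refine this.congr (Eventually.of_forall fun p => ?_)
  simp only [Pi.sub_apply]
  ring


/-- the quadratic form of the Landau matrix -/
private theorem di_psd (γ : ℝ) (z ξ : Vec d) :
    ∑ i, ∑ j, landauA γ z i j * (ξ i * ξ j) =
      (nsq z * nsq ξ - (∑ i, z i * ξ i) ^ 2) * nsq z ^ (γ / 2) := by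
  have h2 : ∀ i j, landauA γ z i j * (ξ i * ξ j) =
      ((if i = j then nsq z * ξ i ^ 2 else 0) - (z i * ξ i) * (z j * ξ j)) * nsq z ^ (γ / 2) := by
    intro i j
    unfold landauA
    by_cases h : i = j
    · subst h; simp only [if_true]; ring
    · simp only [h, if_false]; ring
  simp_rw [h2]
  simp_rw [← Finset.sum_mul, Finset.sum_sub_distrib]
  congr 1
  have h3 : ∀ i : Fin d, ∑ j, (if i = j then nsq z * ξ i ^ 2 else 0) = nsq z * ξ i ^ 2 := by
    intro i
    rw [Finset.sum_ite_eq]
    simp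
  simp_rw [h3]
  rw [← Finset.mul_sum]
  have h4 : ∑ i, ∑ j, z i * ξ i * (z j * ξ j) = (∑ i, z i * ξ i) ^ 2 := by
    rw [pow_two, Finset.sum_mul_sum]
  rw [h4]
  rfl

/-- one term of the Lagrange identity -/
private theorem di_lagr (z U : Vec d) {i j : Fin d} (hij : i ≠ j) :
    (z i * U j - z j * U i) ^ 2 ≤ nsq z * nsq U - (∑ i, z i * U i) ^ 2 := by
  have h1 : ∑ k, ∑ l, (z k * U l - z l * U k) ^ 2 = 2 * (nsq z * nsq U - (∑ i, z i * U i) ^ 2) := by
    have e : ∀ k l, (z k * U l - z l * U k) ^ 2 =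
        z k ^ 2 * U l ^ 2 + U k ^ 2 * z l ^ 2 - 2 * ((z k * U k) * (z l * U l)) := by
      intro k l; ring
    have e1 : ∑ k, ∑ l, (z k * U l - z l * U k) ^ 2 =
        (∑ k, ∑ l, z k ^ 2 * U l ^ 2) + (∑ k, ∑ l, U k ^ 2 * z l ^ 2) -
          2 * ∑ k, ∑ l, (z k * U k) * (z l * U l) := by
      rw [← Finset.sum_add_distrib, Finset.mul_sum, ← Finset.sum_sub_distrib]
      refine Finset.sum_congr rfl fun k _ => ?_
      rw [← Finset.sum_add_distrib, Finset.mul_sum, ← Finset.sum_sub_distrib]
      exact Finset.sum_congr rfl fun l _ => e k l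
    rw [e1, ← Finset.sum_mul_sum, ← Finset.sum_mul_sum, ← Finset.sum_mul_sum]
    unfold nsq
    ring
  have h0 : ∀ k, 0 ≤ ∑ l, (z k * U l - z l * U k) ^ 2 := fun k =>
    Finset.sum_nonneg fun l _ => sq_nonneg _
  have h2 : (∑ l, (z i * U l - z l * U i) ^ 2) + (∑ l, (z j * U l - z l * U j) ^ 2) ≤
      ∑ k, ∑ l, (z k * U l - z l * U k) ^ 2 := by
    rw [← Finset.sum_pair hij (f := fun k => ∑ l, (z k * U l - z l * U k) ^ 2)]
    exact Finset.sum_le_sum_of_subset_of_nonneg (Finset.subset_univ _) fun k _ _ => h0 k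
  have h3 : (z i * U j - z j * U i) ^ 2 ≤ ∑ l, (z i * U l - z l * U i) ^ 2 :=
    Finset.single_le_sum (f := fun l => (z i * U l - z l * U i) ^ 2) (fun l _ => sq_nonneg _)
      (Finset.mem_univ j)
  have h4 : (z j * U i - z i * U j) ^ 2 ≤ ∑ l, (z j * U l - z l * U j) ^ 2 :=
    Finset.single_le_sum (f := fun l => (z j * U l - z l * U j) ^ 2) (fun l _ => sq_nonneg _)
      (Finset.mem_univ i)
  have h5 : (z j * U i - z i * U j) ^ 2 = (z i * U j - z j * U i) ^ 2 := by ring
  linarith

/-- lower bound of the power of the relative velocity -/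
private theorem di_pow (h1 : -2 < γ) (h2 : γ ≤ 0) (v w : Vec d) (hz : 0 < nsq (v - w)) :
    (wv v)⁻¹ * (wv w)⁻¹ ≤ 2 * nsq (v - w) ^ (γ / 2) := by
  have hv := wv_pos v
  have hw := wv_pos w
  have hb : 1 + nsq (v - w) ≤ 2 * (wv v * wv w) := by
    have h3 : nsq (v - w) ≤ 2 * nsq v + 2 * nsq w := by
      unfold nsq
      rw [Finset.mul_sum, Finset.mul_sum, ← Finset.sum_add_distrib]
      refine Finset.sum_le_sum fun k _ => ?_
      simp only [Pi.sub_apply]
      nlinarith [sq_nonneg (v k + w k)]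
    have h4 := sq_nonneg' v
    have h5 := sq_nonneg' w
    unfold wv
    nlinarith [mul_nonneg h4 h5]
  have hA : 1 ≤ 1 + nsq (v - w) := by linarith
  have hA0 : 0 < 1 + nsq (v - w) := by linarith
  have e1 : (1 + nsq (v - w)) ^ (γ / 2) ≤ nsq (v - w) ^ (γ / 2) :=
    Real.rpow_le_rpow_of_nonpos hz (by linarith) (by linarith)
  have e2 : (1 + nsq (v - w)) ^ (-1 : ℝ) ≤ (1 + nsq (v - w)) ^ (γ / 2) :=
    Real.rpow_le_rpow_of_exponent_le hA (by linarith)
  rw [Real.rpow_neg_one] at e2
  have e3 : (2 * (wv v * wv w))⁻¹ ≤ (1 + nsq (v - w))⁻¹ := inv_anti₀ hA0 hb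
  have e4 : (wv v)⁻¹ * (wv w)⁻¹ = 2 * (2 * (wv v * wv w))⁻¹ := by
    field_simp
  rw [e4]
  linarith

/-- the kernel of the entropy production -/
private noncomputable def diK (γ : ℝ) (g : Vec d → ℝ) (p : Vec d × Vec d) : ℝ := ∑ i, ∑ j,
    landauA γ (p.1 - p.2) i j * (pd i g p.1 / g p.1 - pd i g p.2 / g p.2) * (pd j g p.1 * g p.2)

private theorem di_sym {G : Vec d → ℝ} (hG : Rg G) (v w : Vec d) :
    diK γ G (v, w) + diK γ G (w, v) =
        (G v * G w) * ∑ i, ∑ j, landauA γ (v - w) i j *
          ((lg G i v - lg G i w) * (lg G j v - lg G j w)) := by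
  have hv := hG.pos v
  have hw := hG.pos w
  simp only [diK, lg]
  rw [← Finset.sum_add_distrib, Finset.mul_sum]
  refine Finset.sum_congr rfl fun i _ => ?_
  rw [← Finset.sum_add_distrib, Finset.mul_sum]
  refine Finset.sum_congr rfl fun j _ => ?_
  have e3 : landauA γ (w - v) i j = landauA γ (v - w) i j := by
    rw [← landauA_neg, neg_sub]
  rw [e3]
  field_simp
  ring

private theorem di_key (h1 : -2 < γ) (h2 : γ ≤ 0) {g : Vec d → ℝ} (hR : Rg g) :
    Integrable (diK γ g) (volume.prod volume) ∧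
      EP γ g = ∫ p, diK γ g p ∂(volume.prod volume) := by
  have hg := hR.nice
  have pos := hR.pos
  have hl := hR.plog
  have hr := hR.sq
  have mg := hg.cont.measurable
  have mp := fun j => (hg.pd_cont j).measurable
  -- the products `∂_i g ∂_j g / g`
  have hprod : ∀ i j, RD fun v => pd i g v / g v * pd j g v := by
    intro i j
    refine ((hr i).add (hr j)).mono 1 fun v => ?_
    have hp := pos v
    rw [one_mul, Real.norm_eq_abs, Real.norm_eq_abs,
      abs_of_nonneg (by positivity : 0 ≤ (pd i g v) ^ 2 / g v + (pd j g v) ^ 2 / g v)]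
    have e : pd i g v / g v * pd j g v = (pd i g v * pd j g v) / g v := by ring
    rw [e, abs_div, abs_of_pos hp, ← add_div]
    refine div_le_div_of_nonneg_right ?_ hp.le
    rw [abs_le]
    constructor <;> nlinarith [sq_nonneg (pd i g v - pd j g v), sq_nonneg (pd i g v + pd j g v)]
  have hPg : ∀ i, (fun v => pd i g v / g v * g v) = pd i g := by
    intro i
    funext v
    exact div_mul_cancel₀ _ (pos v).ne'
  have hrb : ∀ i, RD fun v => pd i g v / g v * g v := by
    intro i
    rw [hPg i]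
    exact hg.pd_RD i
  have hPm : ∀ i, Measurable fun v => pd i g v / g v := fun i => (mp i).div mg
  -- the logarithm
  have hld : Differentiable ℝ fun v => Real.log (g v) := fun v =>
    (hg.diff v).log (pos v).ne'
  have hlpd : ∀ i v, pd i (fun v => Real.log (g v)) v = pd i g v / g v := by
    intro i v
    unfold pd
    rw [fderiv.log (hg.diff v) (pos v).ne']
    rw [smul_apply, smul_eq_mul]
    ring
  -- integration by parts
  have hfr : ∀ i, RD fun v => landauFlux γ g i v * (pd i g v / g v) := by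
    intro i
    rw [landauFlux_funext h1 h2 hg i]
    have k := fun j => kern_landauA (d := d) h1 h2 i j
    have e : (fun v => (∑ j, (pd j g v * conv (fun z => landauA γ z i j) g v -
        g v * conv (fun z => landauA γ z i j) (pd j g) v)) * (pd i g v / g v)) =
        fun v => ∑ j, ((pd i g v / g v * pd j g v) * conv (fun z => landauA γ z i j) g v -
          (pd i g v / g v * g v) * conv (fun z => landauA γ z i j) (pd j g) v) := by
      funext v
      rw [Finset.sum_mul]
      refine Finset.sum_congr rfl fun j _ => ?_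
      ring
    rw [e]
    refine RD.sum' _ fun j _ => ?_
    exact ((hprod i j).mul_PG ((k j).conv_PG hg.rd)).sub
      ((hrb i).mul_PG ((k j).conv_PG (hg.pd_RD j)))
  have hibp : ∀ i, ∫ v, pd i (landauFlux γ g i) v * Real.log (g v) =
      -∫ v, landauFlux γ g i v * (pd i g v / g v) := by
    intro i
    have hJ := landauFlux_diff h1 h2 hg i
    have hJr := landauFlux_RD h1 h2 hg i
    have hJ1 := landauFlux_RD1 h1 h2 hg i
    have m1 : Measurable (pd i (landauFlux γ g i)) := measurable_fderiv_apply_const ℝ _ _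
    have m2 : Measurable (pd i fun v => Real.log (g v)) := measurable_fderiv_apply_const ℝ _ _
    have mJ : Measurable (landauFlux γ g i) := hJ.continuous.measurable
    have mφ : Measurable fun v => Real.log (g v) := hld.continuous.measurable
    have r1 : RD (pd i (landauFlux γ g i)) := hJ1.mono 1 fun v => by rw [one_mul]; exact pd_le i _ v
    have hfr' : RD fun v => landauFlux γ g i v * pd i (fun v => Real.log (g v)) v := by
      have e : (fun v => landauFlux γ g i v * pd i (fun v => Real.log (g v)) v) =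
          fun v => landauFlux γ g i v * (pd i g v / g v) := by
        funext v; rw [hlpd i v]
      rw [e]; exact hfr i
    have h := integral_mul_fderiv_eq_neg_fderiv_mul_of_integrable (μ := (volume : Measure (Vec d)))
      (f := landauFlux γ g i) (g := fun v => Real.log (g v)) (v := Pi.single i 1)
      ((r1.mul_PG hl).integrable (m1.mul mφ).aestronglyMeasurable)
      (hfr'.integrable (mJ.mul m2).aestronglyMeasurable)
      ((hJr.mul_PG hl).integrable (mJ.mul mφ).aestronglyMeasurable)
      (fun x _ => hJ x) (fun x _ => hld x)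
    have h' : ∫ v, landauFlux γ g i v * pd i (fun v => Real.log (g v)) v =
        -∫ v, pd i (landauFlux γ g i) v * Real.log (g v) := h
    have e2 : ∫ v, landauFlux γ g i v * pd i (fun v => Real.log (g v)) v =
        ∫ v, landauFlux γ g i v * (pd i g v / g v) :=
      integral_congr_ae (Eventually.of_forall fun v => by simp only [hlpd i v])
    rw [← e2, h', neg_neg]
  have hsum : ∫ v, landauQ γ g v * Real.log (g v) =
      -∑ i, ∫ v, landauFlux γ g i v * (pd i g v / g v) := by
    unfold landauQ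
    simp_rw [Finset.sum_mul]
    rw [integral_finsetSum]
    · rw [← Finset.sum_neg_distrib]
      exact Finset.sum_congr rfl fun i _ => hibp i
    · intro i _
      have m1 : Measurable (pd i (landauFlux γ g i)) := measurable_fderiv_apply_const ℝ _ _
      have r1 : RD (pd i (landauFlux γ g i)) :=
        (landauFlux_RD1 h1 h2 hg i).mono 1 fun v => by rw [one_mul]; exact pd_le i _ v
      exact (r1.mul_PG hl).integrable (m1.mul hld.continuous.measurable).aestronglyMeasurable
  have hint : ∀ i j, Integrable (fun p : Vec d × Vec d =>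
      landauA γ (p.1 - p.2) i j * (pd i g p.1 / g p.1 - pd i g p.2 / g p.2) *
        (pd j g p.1 * g p.2)) (volume.prod volume) := fun i j =>
    le_flux_int h1 h2 hg i j (hprod i) (hrb i) (hPm i)
  have hKint : Integrable (diK γ g) (volume.prod volume) :=
    integrable_finsetSum _ fun i _ => integrable_finsetSum _ fun j _ => hint i j
  have hKeq : ∑ i, ∫ v, landauFlux γ g i v * (pd i g v / g v) = ∫ p, diK γ g p ∂(volume.prod volume) := by
    have e1 : ∫ p, diK γ g p ∂(volume.prod volume) = ∑ i, ∑ j, ∫ p : Vec d × Vec d,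
        landauA γ (p.1 - p.2) i j * (pd i g p.1 / g p.1 - pd i g p.2 / g p.2) *
          (pd j g p.1 * g p.2) ∂(volume.prod volume) := by
      unfold diK
      rw [integral_finsetSum]
      · refine Finset.sum_congr rfl fun i _ => ?_
        rw [integral_finsetSum]
        intro j _; exact hint i j
      · intro i _
        exact integrable_finsetSum _ fun j _ => hint i j
    rw [e1]
    exact Finset.sum_congr rfl fun i _ => le_flux_mul h1 h2 hg i (hprod i) (hrb i) (hPm i)
  refine ⟨hKint, ?_⟩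
  unfold EP
  rw [hsum, neg_neg, hKeq]

/-- the symmetrised kernel -/
private noncomputable def diS (γ : ℝ) (g : Vec d → ℝ) (p : Vec d × Vec d) : ℝ :=
  diK γ g p + diK γ g p.swap

private theorem diS_int (h1 : -2 < γ) (h2 : γ ≤ 0) {G : Vec d → ℝ} (hG : Rg G) :
    Integrable (diS γ G) (volume.prod volume) := by
  have hK := (di_key h1 h2 hG).1
  exact hK.add hK.swap

private theorem diS_eq (h1 : -2 < γ) (h2 : γ ≤ 0) {G : Vec d → ℝ} (hG : Rg G) :
    ∫ p, diS γ G p ∂(volume.prod volume) = 2 * EP γ G := by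
  obtain ⟨hK, he⟩ := di_key h1 h2 hG
  have hKs : Integrable (fun p : Vec d × Vec d => diK γ G p.swap) (volume.prod volume) := hK.swap
  have hswap : ∫ p, diK γ G p.swap ∂(volume.prod volume) = ∫ p, diK γ G p ∂(volume.prod volume) :=
    integral_prod_swap (μ := (volume : Measure (Vec d))) (ν := (volume : Measure (Vec d))) (diK γ G)
  unfold diS
  rw [integral_add hK hKs, hswap, ← he]
  ring

private theorem di_pt (h1 : -2 < γ) (h2 : γ ≤ 0) {G : Vec d → ℝ} (hG : Rg G) {i j : Fin d}
    (hij : i ≠ j) (p : Vec d × Vec d) : qd G i j p ≤ 2 * diS γ G p := by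
  obtain ⟨v, w⟩ := p
  have hv := hG.pos v
  have hw := hG.pos w
  have hwv := wv_pos v
  have hww := wv_pos w
  have e : diS γ G (v, w) = (G v * G w) *
      ((nsq (v - w) * nsq (fun i => lg G i v - lg G i w) -
        (∑ i, (v - w) i * (lg G i v - lg G i w)) ^ 2) * nsq (v - w) ^ (γ / 2)) := by
    have e1 : diS γ G (v, w) = diK γ G (v, w) + diK γ G (w, v) := rfl
    rw [e1, di_sym hG v w]
    congr 1
    exact di_psd γ (v - w) fun i => lg G i v - lg G i w
  have hL := di_lagr (v - w) (fun i => lg G i v - lg G i w) hij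
  have hq : qf G i j (v, w) = (v - w) i * (lg G j v - lg G j w) - (v - w) j * (lg G i v - lg G i w) :=
    rfl
  have hL' : qf G i j (v, w) ^ 2 ≤ nsq (v - w) * nsq (fun i => lg G i v - lg G i w) -
      (∑ i, (v - w) i * (lg G i v - lg G i w)) ^ 2 := by
    rw [hq]; exact hL
  have hGG : 0 < G v * G w := mul_pos hv hw
  have hqd : qd G i j (v, w) = (G v * G w) * (((wv v)⁻¹ * (wv w)⁻¹) * qf G i j (v, w) ^ 2) := by
    unfold qd
    ring
  rw [hqd, e]
  have hgoal : ((wv v)⁻¹ * (wv w)⁻¹) * qf G i j (v, w) ^ 2 ≤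
      2 * ((nsq (v - w) * nsq (fun i => lg G i v - lg G i w) -
        (∑ i, (v - w) i * (lg G i v - lg G i w)) ^ 2) * nsq (v - w) ^ (γ / 2)) := by
    rcases (sq_nonneg' (v - w)).eq_or_lt with hz | hz
    · have hz0 : ∀ k, (v - w) k = 0 := by
        intro k
        have h3 : (v - w) k ^ 2 ≤ nsq (v - w) :=
          Finset.single_le_sum (f := fun k => (v - w) k ^ 2) (fun k _ => sq_nonneg _)
            (Finset.mem_univ k)
        rw [← hz] at h3
        exact pow_eq_zero_iff two_ne_zero |>.1 (le_antisymm h3 (sq_nonneg _))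
      have hq0 : qf G i j (v, w) = 0 := by
        rw [hq, hz0 i, hz0 j]; ring
      rw [hq0]
      have h4 : ∑ i, (v - w) i * (lg G i v - lg G i w) = 0 :=
        Finset.sum_eq_zero fun k _ => by rw [hz0 k, zero_mul]
      rw [h4, ← hz]
      simp
    · have hp := di_pow h1 h2 v w hz
      have hL0 : 0 ≤ nsq (v - w) * nsq (fun i => lg G i v - lg G i w) -
          (∑ i, (v - w) i * (lg G i v - lg G i w)) ^ 2 := le_trans (sq_nonneg _) hL'
      calc ((wv v)⁻¹ * (wv w)⁻¹) * qf G i j (v, w) ^ 2
          ≤ ((wv v)⁻¹ * (wv w)⁻¹) * (nsq (v - w) * nsq (fun i => lg G i v - lg G i w) -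
            (∑ i, (v - w) i * (lg G i v - lg G i w)) ^ 2) :=
            mul_le_mul_of_nonneg_left hL' (by positivity)
        _ ≤ (2 * nsq (v - w) ^ (γ / 2)) * (nsq (v - w) * nsq (fun i => lg G i v - lg G i w) -
            (∑ i, (v - w) i * (lg G i v - lg G i w)) ^ 2) :=
            mul_le_mul_of_nonneg_right hp hL0
        _ = _ := by ring
  calc (G v * G w) * (((wv v)⁻¹ * (wv w)⁻¹) * qf G i j (v, w) ^ 2)
      ≤ (G v * G w) * (2 * ((nsq (v - w) * nsq (fun i => lg G i v - lg G i w) -
        (∑ i, (v - w) i * (lg G i v - lg G i w)) ^ 2) * nsq (v - w) ^ (γ / 2))) :=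
        mul_le_mul_of_nonneg_left hgoal hGG.le
    _ = _ := by ring

private theorem qd_nonneg {G : Vec d → ℝ} (hG : Rg G) (i j : Fin d) (p : Vec d × Vec d) :
    0 ≤ qd G i j p := by
  have hv := hG.pos p.1
  have hw := hG.pos p.2
  have hwv := wv_pos p.1
  have hww := wv_pos p.2
  unfold qd
  positivity

private theorem qd_cont {G : Vec d → ℝ} (hG : Rg G) (i j : Fin d) : Continuous (qd G i j) := by
  have hc := hG.nice.cont
  have hi := hG.lg_cont i
  have hj := hG.lg_cont j
  have hw := wv_cont (d := d)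
  have hw1 : Continuous fun p : Vec d × Vec d => (wv p.1)⁻¹ :=
    (hw.comp continuous_fst).inv₀ fun p => (wv_pos p.1).ne'
  have hw2 : Continuous fun p : Vec d × Vec d => (wv p.2)⁻¹ :=
    (hw.comp continuous_snd).inv₀ fun p => (wv_pos p.2).ne'
  have e1 : Continuous fun p : Vec d × Vec d => G p.1 := hc.comp continuous_fst
  have e2 : Continuous fun p : Vec d × Vec d => G p.2 := hc.comp continuous_snd
  have i1 : Continuous fun p : Vec d × Vec d => lg G i p.1 := hi.comp continuous_fst
  have i2 : Continuous fun p : Vec d × Vec d => lg G i p.2 := hi.comp continuous_snd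
  have j1 : Continuous fun p : Vec d × Vec d => lg G j p.1 := hj.comp continuous_fst
  have j2 : Continuous fun p : Vec d × Vec d => lg G j p.2 := hj.comp continuous_snd
  have ci : Continuous fun p : Vec d × Vec d => p.1 i - p.2 i :=
    ((continuous_apply i).comp continuous_fst).sub ((continuous_apply i).comp continuous_snd)
  have cj : Continuous fun p : Vec d × Vec d => p.1 j - p.2 j :=
    ((continuous_apply j).comp continuous_fst).sub ((continuous_apply j).comp continuous_snd)
  have hqf : Continuous (qf G i j) := (ci.mul (j1.sub j2)).sub (cj.mul (i1.sub i2))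
  exact ((e1.mul e2).mul (hw1.mul hw2)).mul (hqf.pow 2)

theorem dis_int (h1 : -2 < γ) (h2 : γ ≤ 0) {G : Vec d → ℝ} (hG : Rg G) {i j : Fin d} (hij : i ≠ j) :
    Integrable (qd G i j) (volume.prod volume) := by
  have hS := (diS_int h1 h2 hG).const_mul 2
  refine hS.mono' (qd_cont hG i j).aestronglyMeasurable (Eventually.of_forall fun p => ?_)
  rw [Real.norm_eq_abs, abs_of_nonneg (qd_nonneg hG i j p)]
  exact di_pt h1 h2 hG hij p

theorem dis_le (h1 : -2 < γ) (h2 : γ ≤ 0) {G : Vec d → ℝ} (hG : Rg G) {i j : Fin d} (hij : i ≠ j) :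
    ∫ p, qd G i j p ∂(volume.prod volume) ≤ 4 * EP γ G := by
  have hS := (diS_int h1 h2 hG).const_mul 2
  have h := integral_mono (dis_int h1 h2 hG hij) hS fun p => di_pt h1 h2 hG hij p
  refine h.trans (le_of_eq ?_)
  rw [integral_const_mul, diS_eq h1 h2 hG]
  ring

theorem EP_nn (h1 : -2 < γ) (h2 : γ ≤ 0) {G : Vec d → ℝ} (hG : Rg G) : 0 ≤ EP γ G :=
  neg_nonneg.2 (Pool.Agent.H15.AV.landau_H h1 h2 hG.nice hG.pos hG.plog hG.sq)

end Pool.Agent.H19.EN
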