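import Pool.Agent.H19.EN.Reg

/-!
# Module Idn: the double integral as a combination of products of single integrals

`G G* q_ij ψ(v) φ(w) = [∂_jG v_i ψ](v) [G φ](w) - [G v_i ψ](v) [∂_jG φ](w) - [∂_jG ψ](v) [G w_i φ](w) + [G ψ](v) [∂_jG w_i φ](w) - (the same with i and j exchanged)` (`G lg_j = ∂_jG`, `Rg.mul_lg`): all eight terms are products of integrable functions (`RD` and measurable; `Integrable.mul_prod`), `integral_prod_mul`.
`ibp1` .. `ibp4`: `ibp` (H25/Kin/Flux.lean) with `J = G` and polynomials `φ`: `∫ ∂_jG h = -∫ G ∂_jh`, `h = 1`, `v_i - a`, products. (`pd_coord`: `∂_j v_i = δ_ij`; `pd` of products: `fderiv_mul`.)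
-/

set_option autoImplicit false

open MeasureTheory Set Filter Topology Pool.Agent.H25.Kin

namespace Pool.Agent.H19.EN

variable {d : ℕ}

/-- differentiable, of polynomial growth together with the derivative -/
private structure Idn_PD (f : Vec d → ℝ) : Prop where
  diff : Differentiable ℝ f
  pg : PG f
  pg1 : PG (fderiv ℝ f)

private theorem Idn_smul {h : Vec d → ℝ} {k : Vec d → (Vec d →L[ℝ] ℝ)} (hh : PG h)
    (hk : PG k) : PG (fun v => h v • k v) := by
  obtain ⟨N, C, hC0, hC⟩ := hh.pos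
  obtain ⟨M, D, hD0, hD⟩ := hk.pos
  refine ⟨N + M, C * D, fun v => ?_⟩
  calc ‖h v • k v‖ = ‖h v‖ * ‖k v‖ := norm_smul _ _
    _ ≤ (C * (1 + ‖v‖) ^ N) * (D * (1 + ‖v‖) ^ M) := by
        gcongr
        · exact hC v
        · exact hD v
    _ = C * D * (1 + ‖v‖) ^ (N + M) := by ring

private theorem Idn_has (i : Fin d) (a : ℝ) (v : Vec d) : HasFDerivAt (fun v : Vec d => v i - a)
    (ContinuousLinearMap.proj (R := ℝ) (φ := fun _ : Fin d => ℝ) i) v :=
  ((ContinuousLinearMap.proj (R := ℝ) (φ := fun _ : Fin d => ℝ) i).hasFDerivAt).sub_const a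

private theorem Idn_PD.lin (i : Fin d) (a : ℝ) : Idn_PD (fun v : Vec d => v i - a) := by
  refine ⟨fun v => (Idn_has i a v).differentiableAt, ?_, ?_⟩
  · have := (PG.coord i).add (PG.const (d := d) (-a))
    simpa [sub_eq_add_neg] using this
  · have : fderiv ℝ (fun v : Vec d => v i - a) = fun _ =>
        ContinuousLinearMap.proj (R := ℝ) (φ := fun _ : Fin d => ℝ) i := by
      funext v
      exact (Idn_has i a v).fderiv
    rw [this]
    exact PG.const _

private theorem Idn_PD.mul {f g : Vec d → ℝ} (hf : Idn_PD f) (hg : Idn_PD g) :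
    Idn_PD (fun v => f v * g v) := by
  refine ⟨hf.diff.mul hg.diff, hf.pg.mul hg.pg, ?_⟩
  have : fderiv ℝ (fun v => f v * g v) = fun v => f v • fderiv ℝ g v + g v • fderiv ℝ f v := by
    funext v
    exact ((hf.diff v).hasFDerivAt.mul (hg.diff v).hasFDerivAt).fderiv
  rw [this]
  exact (Idn_smul hf.pg hg.pg1).add (Idn_smul hg.pg hf.pg1)

private theorem Idn_pd_lin (i j : Fin d) (a : ℝ) (v : Vec d) :
    pd j (fun v : Vec d => v i - a) v = if j = i then 1 else 0 := by
  unfold pd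
  rw [(Idn_has i a v).fderiv, ContinuousLinearMap.proj_apply, Pi.single_apply]
  simp only [eq_comm]

private theorem Idn_pd_mul {f g : Vec d → ℝ} (hf : Idn_PD f) (hg : Idn_PD g) (i : Fin d) (v : Vec d) :
    pd i (fun v => f v * g v) v = pd i f v * g v + f v * pd i g v := by
  unfold pd
  have := ((hf.diff v).hasFDerivAt.mul (hg.diff v).hasFDerivAt).fderiv
  change fderiv ℝ (fun v => f v * g v) v = _ at this
  rw [this]
  simp only [add_apply, smul_apply, smul_eq_mul]
  ring

private theorem Idn_ibp {G : Vec d → ℝ} (hG : Rg G) {φ : Vec d → ℝ} (hφ : Idn_PD φ) (j : Fin d) :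
    ∫ v, pd j G v * φ v = -∫ v, G v * pd j φ v :=
  ibp hG.nice.diff hG.nice.rd hG.nice.rd1 hφ.diff hφ.pg hφ.pg1 j

private theorem Idn_int {G : Vec d → ℝ} (hG : Rg G) {φ : Vec d → ℝ} (hφ : Idn_PD φ) :
    Integrable fun v => G v * φ v :=
  (hG.nice.rd.mul_PG hφ.pg).integrable
    (hG.nice.cont.mul hφ.diff.continuous).aestronglyMeasurable

private theorem Idn_ite (c : Prop) [Decidable c] {f : Vec d → ℝ} :
    ∫ v, (if c then f v else 0) = if c then ∫ v, f v else 0 := by
  by_cases h : c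
  · simp [h]
  · simp [h]

private theorem Idn_int_ite {c : Prop} [Decidable c] {f : Vec d → ℝ} (hf : Integrable f) :
    Integrable fun v => if c then f v else 0 := by
  by_cases h : c
  · simpa [h] using hf
  · simp [h]

/-- one half of the integrand -/
private noncomputable def Idn_T (G ψ φ : Vec d → ℝ) (i j : Fin d) (p : Vec d × Vec d) : ℝ :=
  (pd j G p.1 * p.1 i * ψ p.1) * (G p.2 * φ p.2) - (G p.1 * p.1 i * ψ p.1) * (pd j G p.2 * φ p.2) -
    (pd j G p.1 * ψ p.1) * (G p.2 * p.2 i * φ p.2) + (G p.1 * ψ p.1) * (pd j G p.2 * p.2 i * φ p.2)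

private theorem Idn_fac {G ψ : Vec d → ℝ} (hG : Rg G) (hψ : TF G ψ) (i j : Fin d) :
    (Integrable fun v => pd j G v * v i * ψ v) ∧ (Integrable fun v => G v * v i * ψ v) ∧
    (Integrable fun v => pd j G v * ψ v) ∧ (Integrable fun v => G v * ψ v) := by
  have hm := hψ.meas
  have hpd : Measurable (pd j G) := (hG.nice.pd_cont j).measurable
  have hGm : Measurable G := hG.nice.cont.measurable
  have hc : Measurable fun v : Vec d => v i := measurable_pi_apply i
  refine ⟨?_, ?_, (hψ.rd1 j).integrable (hpd.mul hm).aestronglyMeasurable,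
    hψ.rd.integrable (hGm.mul hm).aestronglyMeasurable⟩
  · have h := ((hψ.rd1 j).mul_PG (PG.coord i)).integrable
      ((hpd.mul hm).mul hc).aestronglyMeasurable
    refine h.congr (Eventually.of_forall fun v => ?_)
    simp only
    ring
  · have h := (hψ.rd.mul_PG (PG.coord i)).integrable
      ((hGm.mul hm).mul hc).aestronglyMeasurable
    refine h.congr (Eventually.of_forall fun v => ?_)
    simp only
    ring

/-- the first half of the identity -/
noncomputable def hf (G ψ φ : Vec d → ℝ) (i j : Fin d) : ℝ :=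
  (∫ v, pd j G v * v i * ψ v) * (∫ w, G w * φ w) - (∫ v, G v * v i * ψ v) * (∫ w, pd j G w * φ w) -
    (∫ v, pd j G v * ψ v) * (∫ w, G w * w i * φ w) + (∫ v, G v * ψ v) * ∫ w, pd j G w * w i * φ w

private theorem Idn_half {G ψ φ : Vec d → ℝ} {i j : Fin d}
    (a1 : Integrable fun v => pd j G v * v i * ψ v) (a2 : Integrable fun v => G v * v i * ψ v)
    (a3 : Integrable fun v => pd j G v * ψ v) (a4 : Integrable fun v => G v * ψ v)
    (b4 : Integrable fun v => G v * φ v) (b3 : Integrable fun v => pd j G v * φ v)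
    (b2 : Integrable fun v => G v * v i * φ v) (b1 : Integrable fun v => pd j G v * v i * φ v) :
    Integrable (Idn_T G ψ φ i j) (volume.prod volume) ∧
    ∫ p, Idn_T G ψ φ i j p ∂(volume.prod volume) = hf G ψ φ i j := by
  have h1 := a1.mul_prod b4
  have h2 := a2.mul_prod b3
  have h3 := a3.mul_prod b2
  have h4 := a4.mul_prod b1
  have h12 : Integrable (fun p : Vec d × Vec d => pd j G p.1 * p.1 i * ψ p.1 * (G p.2 * φ p.2) -
      G p.1 * p.1 i * ψ p.1 * (pd j G p.2 * φ p.2)) (volume.prod volume) := h1.sub h2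
  have h123 : Integrable (fun p : Vec d × Vec d => pd j G p.1 * p.1 i * ψ p.1 * (G p.2 * φ p.2) -
      G p.1 * p.1 i * ψ p.1 * (pd j G p.2 * φ p.2) -
      pd j G p.1 * ψ p.1 * (G p.2 * p.2 i * φ p.2)) (volume.prod volume) := h12.sub h3
  refine ⟨h123.add h4, ?_⟩
  unfold Idn_T hf
  rw [integral_add h123 h4, integral_sub h12 h3, integral_sub h1 h2,
    integral_prod_mul (fun v => pd j G v * v i * ψ v) (fun w => G w * φ w),
    integral_prod_mul (fun v => G v * v i * ψ v) (fun w => pd j G w * φ w),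
    integral_prod_mul (fun v => pd j G v * ψ v) (fun w => G w * w i * φ w),
    integral_prod_mul (fun v => G v * ψ v) (fun w => pd j G w * w i * φ w)]

theorem idn {G : Vec d → ℝ} (hG : Rg G) (i j : Fin d) {ψ φ : Vec d → ℝ} (hψ : TF G ψ) (hφ : TF G φ) :
    ∫ p : Vec d × Vec d, G p.1 * G p.2 * qf G i j p * (ψ p.1 * φ p.2) ∂(volume.prod volume) =
      hf G ψ φ i j - hf G ψ φ j i := by
  obtain ⟨a1, a2, a3, a4⟩ := Idn_fac hG hψ i j
  obtain ⟨b1, b2, b3, b4⟩ := Idn_fac hG hφ i j
  obtain ⟨c1, c2, c3, -⟩ := Idn_fac hG hψ j i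
  obtain ⟨e1, e2, e3, -⟩ := Idn_fac hG hφ j i
  have h1 := Idn_half a1 a2 a3 a4 b4 b3 b2 b1
  have h2 := Idn_half c1 c2 c3 a4 b4 e3 e2 e1
  have e : ∀ p : Vec d × Vec d, G p.1 * G p.2 * qf G i j p * (ψ p.1 * φ p.2) =
      Idn_T G ψ φ i j p - Idn_T G ψ φ j i p := by
    intro p
    unfold Idn_T qf
    rw [← hG.mul_lg j p.1, ← hG.mul_lg j p.2, ← hG.mul_lg i p.1, ← hG.mul_lg i p.2]
    ring
  rw [integral_congr_ae (Eventually.of_forall e), integral_sub h1.1 h2.1, h1.2, h2.2]

theorem ibp1 {G : Vec d → ℝ} (hG : Rg G) (j : Fin d) : ∫ v, pd j G v = 0 := by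
  have h := Idn_ibp hG (φ := fun _ => (1 : ℝ)) ⟨differentiable_const _, PG.const _, by
    rw [fderiv_fun_const]; exact PG.const (0 : Vec d →L[ℝ] ℝ)⟩ j
  have e : ∀ v : Vec d, pd j (fun _ : Vec d => (1 : ℝ)) v = 0 := fun v => by simp [pd]
  simpa [e] using h

theorem ibp2 {G : Vec d → ℝ} (hG : Rg G) (j i : Fin d) (a : ℝ) :
    ∫ v, pd j G v * (v i - a) = -(if j = i then m0 G else 0) := by
  rw [Idn_ibp hG (Idn_PD.lin i a) j]
  simp_rw [Idn_pd_lin]
  congr 1
  by_cases h : j = i
  · simp [h, m0]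
  · simp [h]

theorem ibp3 {G : Vec d → ℝ} (hG : Rg G) (j i l : Fin d) (a b : ℝ) :
    ∫ v, pd j G v * ((v i - a) * (v l - b)) =
      -((if j = i then ∫ v, G v * (v l - b) else 0) + if j = l then ∫ v, G v * (v i - a) else 0) := by
  rw [Idn_ibp hG ((Idn_PD.lin i a).mul (Idn_PD.lin l b)) j]
  simp_rw [Idn_pd_mul (Idn_PD.lin i a) (Idn_PD.lin l b), Idn_pd_lin]
  congr 1
  have e : ∀ v : Vec d, G v * ((if j = i then (1 : ℝ) else 0) * (v l - b) +
      (v i - a) * (if j = l then (1 : ℝ) else 0)) =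
      (if j = i then G v * (v l - b) else 0) + (if j = l then G v * (v i - a) else 0) := by
    intro v
    split_ifs <;> ring
  simp_rw [e]
  have h1 := Idn_int hG (Idn_PD.lin l b)
  have h2 := Idn_int hG (Idn_PD.lin i a)
  rw [integral_add (Idn_int_ite h1) (Idn_int_ite h2), Idn_ite, Idn_ite]

theorem ibp4 {G : Vec d → ℝ} (hG : Rg G) (j i l n : Fin d) (a b c : ℝ) :
    ∫ v, pd j G v * ((v i - a) * ((v l - b) * (v n - c))) =
      -((if j = i then ∫ v, G v * ((v l - b) * (v n - c)) else 0) +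
        (if j = l then ∫ v, G v * ((v i - a) * (v n - c)) else 0) +
        if j = n then ∫ v, G v * ((v i - a) * (v l - b)) else 0) := by
  rw [Idn_ibp hG ((Idn_PD.lin i a).mul ((Idn_PD.lin l b).mul (Idn_PD.lin n c))) j]
  simp_rw [Idn_pd_mul (Idn_PD.lin i a) ((Idn_PD.lin l b).mul (Idn_PD.lin n c)),
    Idn_pd_mul (Idn_PD.lin l b) (Idn_PD.lin n c), Idn_pd_lin]
  congr 1
  have e : ∀ v : Vec d, G v * ((if j = i then (1 : ℝ) else 0) * ((v l - b) * (v n - c)) +
      (v i - a) * ((if j = l then (1 : ℝ) else 0) * (v n - c) +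
        (v l - b) * (if j = n then (1 : ℝ) else 0))) =
      (if j = i then G v * ((v l - b) * (v n - c)) else 0) +
        (if j = l then G v * ((v i - a) * (v n - c)) else 0) +
        (if j = n then G v * ((v i - a) * (v l - b)) else 0) := by
    intro v
    split_ifs <;> ring
  simp_rw [e]
  have h1 := Idn_int_ite (c := j = i) (Idn_int hG ((Idn_PD.lin l b).mul (Idn_PD.lin n c)))
  have h2 := Idn_int_ite (c := j = l) (Idn_int hG ((Idn_PD.lin i a).mul (Idn_PD.lin n c)))
  have h3 := Idn_int_ite (c := j = n) (Idn_int hG ((Idn_PD.lin i a).mul (Idn_PD.lin l b)))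
  have h12 : Integrable fun v : Vec d => (if j = i then G v * ((v l - b) * (v n - c)) else 0) +
      (if j = l then G v * ((v i - a) * (v n - c)) else 0) := h1.add h2
  rw [integral_add h12 h3, integral_add h1 h2, Idn_ite, Idn_ite, Idn_ite]

end Pool.Agent.H19.EN
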