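import Pool.Agent.H19.EN.Idn

/-!
# Module Tst: three evaluations of the double integral

`c = ct G`, `m0 c_i = m1_i` (`0 < m0 G`), so `∫ G (v_i - c_i) = 0`. For `φ = 1`, `i ≠ j`: `∫ ∂_jG = 0`, `∫ ∂_jG w_i = 0`, `∫ G w_i = m1_i = m0 c_i`, so `idn` gives `m0 [∫ ∂_jG (v_i - c_i) ψ - ∫ ∂_iG (v_j - c_j) ψ]`.
`tst1`: `ψ = (v_i-c_i)(v_j-c_j)`: by `ibp4` `∫ ∂_jG (v_i-c_i)² (v_j-c_j) = -∫ G (v_i-c_i)² = -Θ_ii`, so the value is `m0 (Θ_jj - Θ_ii)`. `tst2`: `ψ = (v_i-c_i)²`: `∫ ∂_jG (v_i-c_i)³ = 0`, `∫ ∂_iG (v_j-c_j)(v_i-c_i)² = -2 Θ_ij`, value `2 m0 Θ_ij`.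
`tst3`: `φ = w_i - c_i`, any `ψ`: `∫ Gφ = 0`, `∫ ∂_jG φ = 0`, `∫ ∂_iG φ = -m0`, `∫ G w_i φ = Θ_ii`, `∫ G w_j φ = Θ_ij`, `∫ ∂_jG w_i φ = 0` (`ibp3`), `∫ ∂_iG w_j φ = -m1_j`: the value is
`-Θ_ii ∫ ∂_jG ψ - m0 ∫ G v_j ψ + Θ_ij ∫ ∂_iG ψ + m1_j ∫ G ψ = -∫ G ψ R_ij`. (`Θ_ij = Θ_ji`; `∫ G w_i φ = ∫ G (w_i-c_i) φ` as `∫ Gφ = 0`.)
-/

set_option autoImplicit false

open MeasureTheory Set Filter Topology Pool.Agent.H25.Kin

namespace Pool.Agent.H19.EN

variable {d : ℕ}

private theorem tst_meas (i : Fin d) (a : ℝ) : Measurable fun v : Vec d => v i - a := by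
  have h : Measurable fun v : Vec d => v i := measurable_pi_apply i
  exact h.sub_const a

private theorem tst_pg (i : Fin d) (a : ℝ) : PG fun v : Vec d => v i - a := by
  have h := (PG.coord (d := d) i).add (PG.const (d := d) (-a))
  have e : (fun v : Vec d => v i - a) = fun v => v i + -a := by
    funext v
    ring
  rw [e]
  exact h

private theorem tst_iG {G : Vec d → ℝ} (hG : Rg G) {h : Vec d → ℝ} (hm : Measurable h) (hp : PG h) :
    Integrable fun v => G v * h v := hG.int_wv hm hp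

private theorem tst_iP {G : Vec d → ℝ} (hG : Rg G) (j : Fin d) {h : Vec d → ℝ} (hm : Measurable h)
    (hp : PG h) : Integrable fun v => pd j G v * h v :=
  ((hG.nice.pd_RD j).mul_PG hp).integrable
    ((hG.nice.pd_cont j).measurable.mul hm).aestronglyMeasurable

private theorem tst_m1 {G : Vec d → ℝ} (h0 : 0 < m0 G) (i : Fin d) : m1 G i = m0 G * ct G i := by
  unfold ct
  field_simp

private theorem tst_Gc {G : Vec d → ℝ} (hG : Rg G) (h0 : 0 < m0 G) (i : Fin d) :
    ∫ v, G v * (v i - ct G i) = 0 := by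
  have i1 : Integrable fun v => G v * v i := tst_iG hG (measurable_pi_apply i) (PG.coord i)
  have i2 : Integrable fun v => G v * ct G i := tst_iG hG measurable_const (PG.const _)
  have h1 : ∫ v, G v * (v i - ct G i) = (∫ v, G v * v i) - ∫ v, G v * ct G i := by
    rw [← integral_sub i1 i2]
    congr 1
    funext v
    ring
  rw [h1, integral_mul_const]
  have h2 := tst_m1 h0 i
  unfold m1 m0 at h2
  rw [h2]
  ring

private theorem tst_Thsymm (G : Vec d → ℝ) (i j : Fin d) : Th G i j = Th G j i := by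
  unfold Th
  congr 1
  funext v
  ring

/-- the half form for `φ = 1` -/
private theorem tst_hf1 {G : Vec d → ℝ} (hG : Rg G) (h0 : 0 < m0 G) {i j : Fin d} (hij : i ≠ j)
    {ψ : Vec d → ℝ} (hm : Measurable ψ) (hp : PG ψ) :
    hf G ψ (fun _ => (1 : ℝ)) i j = m0 G * ∫ v, pd j G v * ((v i - ct G i) * ψ v) := by
  unfold hf
  have e1 : ∫ w, G w * (fun _ => (1 : ℝ)) w = m0 G := by
    unfold m0
    congr 1
    funext v
    simp
  have e2 : ∫ w, pd j G w * (fun _ => (1 : ℝ)) w = 0 := by
    rw [← ibp1 hG j]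
    congr 1
    funext v
    simp
  have e3 : ∫ w, G w * w i * (fun _ => (1 : ℝ)) w = m0 G * ct G i := by
    rw [← tst_m1 h0 i]
    unfold m1
    congr 1
    funext v
    simp
  have e4 : ∫ w, pd j G w * w i * (fun _ => (1 : ℝ)) w = 0 := by
    have h := ibp2 hG j i 0
    rw [if_neg (Ne.symm hij), neg_zero] at h
    rw [← h]
    congr 1
    funext v
    simp
  have e5 : ∫ v, pd j G v * ((v i - ct G i) * ψ v) =
      (∫ v, pd j G v * v i * ψ v) - ct G i * ∫ v, pd j G v * ψ v := by
    have i1 : Integrable fun v => pd j G v * v i * ψ v := by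
      have := tst_iP hG j ((measurable_pi_apply i).mul hm) ((PG.coord i).mul hp)
      refine this.congr (Eventually.of_forall fun v => ?_)
      simp only [Pi.mul_apply]
      ring
    have i2 : Integrable fun v => ct G i * (pd j G v * ψ v) := (tst_iP hG j hm hp).const_mul _
    rw [← integral_const_mul, ← integral_sub i1 i2]
    congr 1
    funext v
    ring
  rw [e1, e2, e3, e4, e5]
  ring

theorem tst1 {G : Vec d → ℝ} (hG : Rg G) (h0 : 0 < m0 G) {i j : Fin d} (hij : i ≠ j) :
    ∫ p : Vec d × Vec d, G p.1 * G p.2 * qf G i j p *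
      ((fun v => (v i - ct G i) * (v j - ct G j)) p.1 * (fun _ => (1 : ℝ)) p.2) ∂(volume.prod volume) =
      m0 G * (Th G j j - Th G i i) := by
  have mψ : Measurable fun v : Vec d => (v i - ct G i) * (v j - ct G j) :=
    (tst_meas i _).mul (tst_meas j _)
  have pψ : PG fun v : Vec d => (v i - ct G i) * (v j - ct G j) := (tst_pg i _).mul (tst_pg j _)
  rw [idn hG i j (TF.of_PG hG mψ pψ) (TF.of_PG hG measurable_const (PG.const 1)),
    tst_hf1 hG h0 hij mψ pψ, tst_hf1 hG h0 (Ne.symm hij) mψ pψ]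
  have e1 : ∫ v, pd j G v * ((v i - ct G i) * ((v i - ct G i) * (v j - ct G j))) = -Th G i i := by
    rw [ibp4 hG j i i j]
    simp only [if_neg (Ne.symm hij), if_true, zero_add]
    rfl
  have e2 : ∫ v, pd i G v * ((v j - ct G j) * ((v i - ct G i) * (v j - ct G j))) = -Th G j j := by
    rw [ibp4 hG i j i j]
    simp only [if_neg hij, if_true, zero_add, add_zero]
    rfl
  rw [e1, e2]
  ring

theorem tst2 {G : Vec d → ℝ} (hG : Rg G) (h0 : 0 < m0 G) {i j : Fin d} (hij : i ≠ j) :
    ∫ p : Vec d × Vec d, G p.1 * G p.2 * qf G i j p *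
      ((fun v => (v i - ct G i) ^ 2) p.1 * (fun _ => (1 : ℝ)) p.2) ∂(volume.prod volume) =
      2 * m0 G * Th G i j := by
  have e0 : (fun v : Vec d => (v i - ct G i) ^ 2) = fun v => (v i - ct G i) * (v i - ct G i) := by
    funext v
    ring
  have mψ : Measurable fun v : Vec d => (v i - ct G i) * (v i - ct G i) :=
    (tst_meas i _).mul (tst_meas i _)
  have pψ : PG fun v : Vec d => (v i - ct G i) * (v i - ct G i) := (tst_pg i _).mul (tst_pg i _)
  rw [e0, idn hG i j (TF.of_PG hG mψ pψ) (TF.of_PG hG measurable_const (PG.const 1)),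
    tst_hf1 hG h0 hij mψ pψ, tst_hf1 hG h0 (Ne.symm hij) mψ pψ]
  have e1 : ∫ v, pd j G v * ((v i - ct G i) * ((v i - ct G i) * (v i - ct G i))) = 0 := by
    rw [ibp4 hG j i i i]
    simp only [if_neg (Ne.symm hij)]
    ring
  have e2 : ∫ v, pd i G v * ((v j - ct G j) * ((v i - ct G i) * (v i - ct G i))) =
      -(2 * Th G i j) := by
    rw [ibp4 hG i j i i, if_neg hij, if_pos rfl, zero_add]
    have h : ∫ v, G v * ((v j - ct G j) * (v i - ct G i)) = Th G i j := by
      rw [tst_Thsymm]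
      rfl
    rw [h]
    ring
  rw [e1, e2]
  ring

theorem tst3 {G : Vec d → ℝ} (hG : Rg G) (h0 : 0 < m0 G) {i j : Fin d} (hij : i ≠ j) {ψ : Vec d → ℝ}
    (hψ : TF G ψ) :
    ∫ p : Vec d × Vec d, G p.1 * G p.2 * qf G i j p * (ψ p.1 * (fun w => w i - ct G i) p.2)
      ∂(volume.prod volume) = -∫ v, G v * ψ v * Rf G i j v := by
  have mG := hG.nice.cont.measurable
  rw [idn hG i j hψ (TF.of_PG hG (tst_meas i (ct G i)) (tst_pg i _))]
  unfold hf
  have a1 : ∫ w, G w * (fun w : Vec d => w i - ct G i) w = 0 := tst_Gc hG h0 i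
  have a2 : ∫ w, pd j G w * (fun w : Vec d => w i - ct G i) w = 0 := by
    have h := ibp2 hG j i (ct G i)
    rw [if_neg (Ne.symm hij), neg_zero] at h
    exact h
  have a3 : ∫ w, pd i G w * (fun w : Vec d => w i - ct G i) w = -m0 G := by
    have h := ibp2 hG i i (ct G i)
    rw [if_pos rfl] at h
    exact h
  have key : ∀ l : Fin d, ∫ w, G w * w l * (fun w : Vec d => w i - ct G i) w = Th G l i := by
    intro l
    have i1 : Integrable fun v => G v * ((v l - ct G l) * (v i - ct G i)) :=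
      tst_iG hG ((tst_meas l _).mul (tst_meas i _)) ((tst_pg l _).mul (tst_pg i _))
    have i2 : Integrable fun v => ct G l * (G v * (v i - ct G i)) :=
      (tst_iG hG (tst_meas i _) (tst_pg i _)).const_mul _
    have h : ∫ w, G w * w l * (fun w : Vec d => w i - ct G i) w =
        (∫ v, G v * ((v l - ct G l) * (v i - ct G i))) + ∫ v, ct G l * (G v * (v i - ct G i)) := by
      rw [← integral_add i1 i2]
      congr 1
      funext v
      ring
    rw [h, integral_const_mul, tst_Gc hG h0 i, mul_zero, add_zero]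
    rfl
  have a4 : ∫ w, pd j G w * w i * (fun w : Vec d => w i - ct G i) w = 0 := by
    have h := ibp3 hG j i i 0 (ct G i)
    rw [if_neg (Ne.symm hij), if_neg (Ne.symm hij)] at h
    have h' : ∫ w, pd j G w * w i * (fun w : Vec d => w i - ct G i) w =
        ∫ v, pd j G v * ((v i - 0) * (v i - ct G i)) := by
      congr 1
      funext v
      ring
    rw [h', h]
    simp
  have a5 : ∫ w, pd i G w * w j * (fun w : Vec d => w i - ct G i) w = -(m0 G * ct G j) := by
    have h := ibp3 hG i j i 0 (ct G i)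
    rw [if_neg hij, if_pos rfl, zero_add] at h
    have h' : ∫ w, pd i G w * w j * (fun w : Vec d => w i - ct G i) w =
        ∫ v, pd i G v * ((v j - 0) * (v i - ct G i)) := by
      congr 1
      funext v
      ring
    rw [h', h, ← tst_m1 h0 j]
    unfold m1
    simp only [sub_zero]
  -- the right hand side
  have i1 : Integrable fun v => pd j G v * ψ v :=
    (hψ.rd1 j).integrable ((hG.nice.pd_cont j).measurable.mul hψ.meas).aestronglyMeasurable
  have i2 : Integrable fun v => pd i G v * ψ v :=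
    (hψ.rd1 i).integrable ((hG.nice.pd_cont i).measurable.mul hψ.meas).aestronglyMeasurable
  have i3 : Integrable fun v => G v * v j * ψ v := by
    have h := (hψ.rd.mul_PG (PG.coord j)).integrable
      ((mG.mul hψ.meas).mul (measurable_pi_apply j)).aestronglyMeasurable
    refine h.congr (Eventually.of_forall fun v => ?_)
    show G v * ψ v * v j = G v * v j * ψ v
    ring
  have i4 : Integrable fun v => G v * ψ v := hψ.rd.integrable (mG.mul hψ.meas).aestronglyMeasurable
  have e : ∫ v, G v * ψ v * Rf G i j v = Th G i i * (∫ v, pd j G v * ψ v) -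
      Th G i j * (∫ v, pd i G v * ψ v) + m0 G * (∫ v, G v * v j * ψ v) -
      m0 G * ct G j * ∫ v, G v * ψ v := by
    have j12 : Integrable fun v => Th G i i * (pd j G v * ψ v) - Th G i j * (pd i G v * ψ v) :=
      (i1.const_mul _).sub (i2.const_mul _)
    have j123 : Integrable fun v => Th G i i * (pd j G v * ψ v) - Th G i j * (pd i G v * ψ v) +
        m0 G * (G v * v j * ψ v) := j12.add (i3.const_mul _)
    rw [← integral_const_mul, ← integral_const_mul, ← integral_const_mul, ← integral_const_mul,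
      ← integral_sub (i1.const_mul _) (i2.const_mul _), ← integral_add j12 (i3.const_mul _),
      ← integral_sub j123 (i4.const_mul _)]
    congr 1
    funext v
    unfold Rf
    have h1 := hG.mul_lg i v
    have h2 := hG.mul_lg j v
    rw [← h1, ← h2]
    ring
  rw [a1, a2, a3, key i, key j, a4, a5, e, tst_Thsymm G j i]
  ring

end Pool.Agent.H19.EN
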