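import Pool.Agent.H19.EN.Csq
import Pool.Agent.H19.EN.Tst

/-!
# Module Iso: near isotropy of the second moments, and the weighted `L²` bound of `R_ij`

`Bd m K G`: `∫ G ≤ K`, `|m1_i| ≤ ∫ G |v_i| ≤ K` (`|v_i| ≤ wv v ≤ wv^4`), so `|c_i| ≤ K/m`, `(v_i-c_i)² ≤ 2 v_i² + 2 c_i² ≤ L wv v`, `L = 2 (1 + (K/m)²)`. (`K ≥ 0` and `K ≥ m > 0` follow; if `¬ 0 < m` there is no `G` and `C = 0` works: `hB.mp`.)
`bd_ct`, `bd_sq`: these bounds. `iso`: `csq` with `tst1`, `tst2`: `m² (Θ_jj - Θ_ii)² ≤ (m0 (Θ_jj-Θ_ii))² ≤ 4 EP (∫ G wv ψ²)(∫ G wv)`, `ψ² ≤ L² wv²`, `∫ G wv ψ² ≤ L² K`, `∫ G wv ≤ K` (`wv ≤ wv^4`). Same for `Θ_ij`.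
`fsh`: `ψ = R_ij/wv` (`TF.rf`), `φ = w_i - c_i`: `tst3` gives the double integral `-X`, `X = ∫ G wv⁻¹ R_ij²`, and `∫ G wv ψ² = X` (pointwise equality), `∫ G wv φ² ≤ L K`. So `X² ≤ 4 EP X (L K)`, `X ≥ 0`, hence `X ≤ 4 L K EP`.
-/

set_option autoImplicit false

open MeasureTheory Set Filter Topology Pool.Agent.H25.Kin

namespace Pool.Agent.H19.EN

variable {d : ℕ} {γ : ℝ}

private lemma iso_wv4 (v : Vec d) : wv v ≤ wv v ^ 4 := by
  have h := wv_ge v
  calc wv v = wv v ^ 1 := (pow_one _).symm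
    _ ≤ wv v ^ 4 := pow_le_pow_right₀ h (by norm_num)

private lemma iso_PG4 : PG (fun v : Vec d => wv v ^ 4) := by
  have h := ((wv_PG (d := d)).mul (wv_PG (d := d))).mul ((wv_PG (d := d)).mul (wv_PG (d := d)))
  have e : (fun v : Vec d => wv v ^ 4) = fun v => wv v * wv v * (wv v * wv v) := by
    funext v
    ring
  rw [e]
  exact h

private lemma iso_int {m K : ℝ} {G : Vec d → ℝ} (hB : Bd m K G) {h : Vec d → ℝ} (hm : Measurable h)
    (hp : PG h) {c : ℝ} (hc : 0 ≤ c) (hh : ∀ v, h v ≤ c * wv v ^ 4) : ∫ v, G v * h v ≤ c * K := by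
  have m4 : Measurable fun v : Vec d => wv v ^ 4 := (wv_cont.pow 4).measurable
  have i4 := hB.rg.int_wv m4 iso_PG4
  calc ∫ v, G v * h v ≤ ∫ v, c * (G v * wv v ^ 4) := by
        refine integral_mono (hB.rg.int_wv hm hp) (i4.const_mul c) fun v => ?_
        have := mul_le_mul_of_nonneg_left (hh v) (hB.rg.pos v).le
        show G v * h v ≤ c * (G v * wv v ^ 4)
        linarith
    _ = c * ∫ v, G v * wv v ^ 4 := integral_const_mul _ _
    _ ≤ c * K := mul_le_mul_of_nonneg_left hB.mom hc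

private lemma iso_coord (v : Vec d) (i : Fin d) : |v i| ≤ wv v ^ 4 := by
  have h := coord_sq_le v i
  have h1 := wv_ge v
  refine le_trans ?_ (iso_wv4 v)
  refine abs_le_of_sq_le_sq ?_ (by linarith)
  nlinarith

private lemma iso_K {m K : ℝ} {G : Vec d → ℝ} (hB : Bd m K G) : 0 ≤ K := by
  have h := iso_int hB (h := fun _ => (0 : ℝ)) measurable_const (PG.const 0) zero_le_one
    (fun v => by
      have := wv_pos v
      positivity)
  simpa using h

theorem bd_ct {m K : ℝ} {G : Vec d → ℝ} (hB : Bd m K G) (i : Fin d) : |ct G i| ≤ K / m := by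
  have h0 : 0 < m0 G := lt_of_lt_of_le hB.mp hB.mass
  have a1 : m1 G i ≤ K := by
    have h := iso_int hB (h := fun v => v i) (measurable_pi_apply i) (PG.coord i) zero_le_one
      (fun v => by
        have := iso_coord v i
        have := le_abs_self (v i)
        linarith)
    unfold m1
    linarith
  have a2 : -m1 G i ≤ K := by
    have h := iso_int hB (h := fun v => -v i) (measurable_pi_apply i).neg (PG.coord i).neg zero_le_one
      (fun v => by
        have := iso_coord v i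
        have := neg_le_abs (v i)
        linarith)
    have e : ∫ v, G v * -v i = -m1 G i := by
      unfold m1
      rw [← integral_neg]
      congr 1
      funext v
      ring
    rw [e] at h
    linarith
  unfold ct
  rw [abs_div, abs_of_pos h0]
  exact div_le_div₀ (iso_K hB) (abs_le.2 ⟨by linarith, a1⟩) hB.mp hB.mass

theorem bd_sq {m K : ℝ} {G : Vec d → ℝ} (hB : Bd m K G) (i : Fin d) (v : Vec d) :
    (v i - ct G i) ^ 2 ≤ 2 * (1 + (K / m) ^ 2) * wv v := by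
  have h1 := coord_sq_le v i
  have h2 : ct G i ^ 2 ≤ (K / m) ^ 2 := by
    rw [← sq_abs]
    exact pow_le_pow_left₀ (abs_nonneg _) (bd_ct hB i) 2
  have h3 := wv_ge v
  have h4 : (K / m) ^ 2 ≤ (K / m) ^ 2 * wv v := le_mul_of_one_le_right (sq_nonneg _) h3
  have h5 := sq_nonneg (v i + ct G i)
  nlinarith

/-- `∫ G h ≤ K` whenever `h ≤ wv^4` -/
theorem bd_int {m K : ℝ} {G : Vec d → ℝ} (hB : Bd m K G) {h : Vec d → ℝ} (hm : Measurable h) (hp : PG h)
    (hh : ∀ v, h v ≤ wv v ^ 4) : ∫ v, G v * h v ≤ K := by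
  have h1 := iso_int hB hm hp zero_le_one (fun v => by simpa using hh v)
  simpa using h1

private lemma iso_cPG (G : Vec d → ℝ) (i : Fin d) : PG (fun v : Vec d => v i - ct G i) := by
  have h := (PG.coord i).add (PG.const (d := d) (-ct G i))
  simpa [sub_eq_add_neg] using h

private lemma iso_cm (G : Vec d → ℝ) (i : Fin d) : Measurable (fun v : Vec d => v i - ct G i) :=
  (measurable_pi_apply i).sub measurable_const

private lemma iso_one {m K : ℝ} {G : Vec d → ℝ} (hB : Bd m K G) :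
    ∫ w, G w * wv w * (fun _ : Vec d => (1 : ℝ)) w ^ 2 ≤ K := by
  have h := bd_int hB (wv_cont.measurable) wv_PG iso_wv4
  simpa using h

private lemma iso_nn {G φ : Vec d → ℝ} (hG : Rg G) : 0 ≤ ∫ w, G w * wv w * φ w ^ 2 :=
  integral_nonneg fun w => mul_nonneg (mul_nonneg (hG.pos w).le (wv_pos w).le) (sq_nonneg _)

/-- `∫ G wv ψ² ≤ L² K` if `ψ² ≤ L² wv²` -/
private lemma iso_psi {m K L : ℝ} {G ψ : Vec d → ℝ} (hB : Bd m K G) (hm : Measurable ψ) (hp : PG ψ)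
    (hψ : ∀ v, ψ v ^ 2 ≤ L ^ 2 * wv v ^ 2) : ∫ v, G v * wv v * ψ v ^ 2 ≤ L ^ 2 * K := by
  have h := iso_int hB (h := fun v => wv v * (ψ v * ψ v)) (wv_cont.measurable.mul (hm.mul hm))
    (wv_PG.mul (hp.mul hp)) (sq_nonneg L) (fun v => by
      have h1 := hψ v
      have h2 := wv_ge v
      have h3 : wv v ^ 3 ≤ wv v ^ 4 := pow_le_pow_right₀ h2 (by norm_num)
      calc wv v * (ψ v * ψ v) = wv v * ψ v ^ 2 := by ring
        _ ≤ wv v * (L ^ 2 * wv v ^ 2) := mul_le_mul_of_nonneg_left h1 (wv_pos v).le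
        _ = L ^ 2 * wv v ^ 3 := by ring
        _ ≤ L ^ 2 * wv v ^ 4 := mul_le_mul_of_nonneg_left h3 (sq_nonneg L))
  have e : ∫ v, G v * wv v * ψ v ^ 2 = ∫ v, G v * (wv v * (ψ v * ψ v)) := by
    congr 1
    funext v
    ring
  rw [e]
  exact h

private lemma iso_core {m K L B E P F X : ℝ} (hm : 0 < m) (hK : 0 ≤ K) (hB : m ≤ B) (hE : 0 ≤ E)
    (hP : P ≤ L ^ 2 * K) (hF0 : 0 ≤ F) (hF : F ≤ K) (h : (B * X) ^ 2 ≤ 4 * E * (P * F)) :
    X ^ 2 ≤ 4 * L ^ 2 * K ^ 2 / m ^ 2 * E := by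
  have h1 : m ^ 2 * X ^ 2 ≤ (B * X) ^ 2 := by
    rw [mul_pow]
    exact mul_le_mul_of_nonneg_right (pow_le_pow_left₀ hm.le hB 2) (sq_nonneg _)
  have h2 : P * F ≤ L ^ 2 * K * K :=
    (mul_le_mul_of_nonneg_right hP hF0).trans
      (mul_le_mul_of_nonneg_left hF (mul_nonneg (sq_nonneg _) hK))
  have h3 : 4 * E * (P * F) ≤ 4 * E * (L ^ 2 * K * K) := mul_le_mul_of_nonneg_left h2 (by linarith)
  have h4 : m ^ 2 * X ^ 2 ≤ 4 * L ^ 2 * K ^ 2 * E := by nlinarith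
  have hm2 : 0 < m ^ 2 := by positivity
  rw [div_mul_eq_mul_div, le_div_iff₀ hm2]
  linarith

theorem iso (h1 : -2 < γ) (h2 : γ ≤ 0) (m K : ℝ) : ∃ C : ℝ, 0 ≤ C ∧ ∀ G : Vec d → ℝ, Bd m K G →
    ∀ i j : Fin d, i ≠ j → (Th G i i - Th G j j) ^ 2 ≤ C * EP γ G ∧ (Th G i j) ^ 2 ≤ C * EP γ G := by
  refine ⟨4 * (2 * (1 + (K / m) ^ 2)) ^ 2 * K ^ 2 / m ^ 2, by positivity, fun G hB i j hij => ?_⟩
  have h0 : 0 < m0 G := lt_of_lt_of_le hB.mp hB.mass
  have hE : 0 ≤ EP γ G := EP_nn h1 h2 hB.rg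
  have hK := iso_K hB
  have hF := iso_one hB
  have hF0 : 0 ≤ ∫ w, G w * wv w * (fun _ : Vec d => (1 : ℝ)) w ^ 2 := iso_nn hB.rg
  have tone : TF G (fun _ : Vec d => (1 : ℝ)) := TF.of_PG hB.rg measurable_const (PG.const 1)
  have hL : ∀ (k : Fin d) (v : Vec d), (v k - ct G k) ^ 2 ≤ 2 * (1 + (K / m) ^ 2) * wv v := bd_sq hB
  constructor
  · have mψ : Measurable fun v : Vec d => (v i - ct G i) * (v j - ct G j) := (iso_cm G i).mul (iso_cm G j)
    have pψ : PG fun v : Vec d => (v i - ct G i) * (v j - ct G j) := (iso_cPG G i).mul (iso_cPG G j)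
    have c := csq h1 h2 hB.rg hij (TF.of_PG hB.rg mψ pψ) tone
    rw [tst1 hB.rg h0 hij] at c
    have hP := iso_psi (L := 2 * (1 + (K / m) ^ 2)) hB mψ pψ (fun v => by
      have a := hL i v
      have b := hL j v
      calc ((v i - ct G i) * (v j - ct G j)) ^ 2 = (v i - ct G i) ^ 2 * (v j - ct G j) ^ 2 := by ring
        _ ≤ (2 * (1 + (K / m) ^ 2) * wv v) * (2 * (1 + (K / m) ^ 2) * wv v) :=
            mul_le_mul a b (sq_nonneg _) ((sq_nonneg _).trans a)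
        _ = (2 * (1 + (K / m) ^ 2)) ^ 2 * wv v ^ 2 := by ring)
    have r := iso_core hB.mp hK hB.mass hE hP hF0 hF c
    have e : (Th G i i - Th G j j) ^ 2 = (Th G j j - Th G i i) ^ 2 := by ring
    rw [e]
    exact r
  · have pψ : PG fun v : Vec d => (v i - ct G i) ^ 2 := by
      have h := (iso_cPG G i).mul (iso_cPG G i)
      have e : (fun v : Vec d => (v i - ct G i) ^ 2) = fun v => (v i - ct G i) * (v i - ct G i) := by
        funext v
        ring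
      rw [e]
      exact h
    have mψ : Measurable fun v : Vec d => (v i - ct G i) ^ 2 := (iso_cm G i).pow_const 2
    have c := csq h1 h2 hB.rg hij (TF.of_PG hB.rg mψ pψ) tone
    rw [tst2 hB.rg h0 hij] at c
    have hP := iso_psi (L := 2 * (1 + (K / m) ^ 2)) hB mψ pψ (fun v => by
      have a := hL i v
      calc ((v i - ct G i) ^ 2) ^ 2 ≤ (2 * (1 + (K / m) ^ 2) * wv v) ^ 2 :=
            pow_le_pow_left₀ (sq_nonneg _) a 2
        _ = (2 * (1 + (K / m) ^ 2)) ^ 2 * wv v ^ 2 := by ring)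
    have c' : (m0 G * (2 * Th G i j)) ^ 2 ≤ 4 * EP γ G *
        ((∫ v, G v * wv v * (fun v : Vec d => (v i - ct G i) ^ 2) v ^ 2) *
          ∫ w, G w * wv w * (fun _ : Vec d => (1 : ℝ)) w ^ 2) := by
      have e : m0 G * (2 * Th G i j) = 2 * m0 G * Th G i j := by ring
      rw [e]
      exact c
    have r := iso_core hB.mp hK hB.mass hE hP hF0 hF c'
    have s := sq_nonneg (Th G i j)
    have e : (2 * Th G i j) ^ 2 = 4 * Th G i j ^ 2 := by ring
    rw [e] at r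
    linarith

private lemma iso_fcore {E X F L K : ℝ} (hE : 0 ≤ E) (hX : 0 ≤ X) (hF : F ≤ L * K) (hLK : 0 ≤ L * K)
    (h : (-X) ^ 2 ≤ 4 * E * (X * F)) : X ≤ 4 * (L * K) * E := by
  rcases hX.eq_or_lt with h0 | hp
  · rw [← h0]
    positivity
  · have h1 : X * X ≤ X * (4 * E * F) := by nlinarith
    have h2 : X ≤ 4 * E * F := le_of_mul_le_mul_left h1 hp
    have h3 : 4 * E * F ≤ 4 * E * (L * K) := mul_le_mul_of_nonneg_left hF (by linarith)
    linarith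

theorem fsh (h1 : -2 < γ) (h2 : γ ≤ 0) (m K : ℝ) : ∃ C : ℝ, 0 ≤ C ∧ ∀ G : Vec d → ℝ, Bd m K G →
    ∀ i j : Fin d, i ≠ j → ∫ v, G v * (wv v)⁻¹ * Rf G i j v ^ 2 ≤ C * EP γ G := by
  refine ⟨4 * (2 * (1 + (K / m) ^ 2) * |K|), by positivity, fun G hB i j hij => ?_⟩
  have h0 : 0 < m0 G := lt_of_lt_of_le hB.mp hB.mass
  have hE : 0 ≤ EP γ G := EP_nn h1 h2 hB.rg
  have hK := iso_K hB
  rw [abs_of_nonneg hK]
  have tψ := TF.rf hB.rg i j
  have tφ : TF G (fun w : Vec d => w i - ct G i) := TF.of_PG hB.rg (iso_cm G i) (iso_cPG G i)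
  have c := csq h1 h2 hB.rg hij tψ tφ
  rw [tst3 hB.rg h0 hij tψ] at c
  have e1 : ∫ v, G v * (Rf G i j v * (wv v)⁻¹) * Rf G i j v = ∫ v, G v * (wv v)⁻¹ * Rf G i j v ^ 2 := by
    congr 1
    funext v
    ring
  have e2 : ∫ v, G v * wv v * (Rf G i j v * (wv v)⁻¹) ^ 2 = ∫ v, G v * (wv v)⁻¹ * Rf G i j v ^ 2 := by
    congr 1
    funext v
    have := (wv_pos v).ne'
    field_simp
  have hX : 0 ≤ ∫ v, G v * (wv v)⁻¹ * Rf G i j v ^ 2 :=
    integral_nonneg fun v => mul_nonneg (mul_nonneg (hB.rg.pos v).le (inv_nonneg.2 (wv_pos v).le))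
      (sq_nonneg _)
  have hF : ∫ w, G w * wv w * (w i - ct G i) ^ 2 ≤ 2 * (1 + (K / m) ^ 2) * K := by
    have h := iso_int hB (h := fun v => wv v * ((v i - ct G i) * (v i - ct G i)))
      (wv_cont.measurable.mul ((iso_cm G i).mul (iso_cm G i)))
      (wv_PG.mul ((iso_cPG G i).mul (iso_cPG G i))) (c := 2 * (1 + (K / m) ^ 2)) (by positivity)
      (fun v => by
        have a := bd_sq hB i v
        have b := wv_ge v
        have b2 : wv v ^ 2 ≤ wv v ^ 4 := pow_le_pow_right₀ b (by norm_num)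
        calc wv v * ((v i - ct G i) * (v i - ct G i)) = wv v * (v i - ct G i) ^ 2 := by ring
          _ ≤ wv v * (2 * (1 + (K / m) ^ 2) * wv v) := mul_le_mul_of_nonneg_left a (wv_pos v).le
          _ = 2 * (1 + (K / m) ^ 2) * wv v ^ 2 := by ring
          _ ≤ 2 * (1 + (K / m) ^ 2) * wv v ^ 4 := mul_le_mul_of_nonneg_left b2 (by positivity))
    have e : ∫ v, G v * wv v * (v i - ct G i) ^ 2 = ∫ v, G v * (wv v * ((v i - ct G i) * (v i - ct G i))) := by
      congr 1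
      funext v
      ring
    rw [e]
    exact h
  have c' : (-∫ v, G v * (wv v)⁻¹ * Rf G i j v ^ 2) ^ 2 ≤ 4 * EP γ G *
      ((∫ v, G v * (wv v)⁻¹ * Rf G i j v ^ 2) * ∫ w, G w * wv w * (w i - ct G i) ^ 2) := by
    have c2 : (-∫ v, G v * (Rf G i j v * (wv v)⁻¹) * Rf G i j v) ^ 2 ≤ 4 * EP γ G *
        ((∫ v, G v * wv v * (Rf G i j v * (wv v)⁻¹) ^ 2) * ∫ w, G w * wv w * (w i - ct G i) ^ 2) := c
    rw [e1, e2] at c2
    exact c2
  exact iso_fcore hE hX hF (by positivity) c'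

end Pool.Agent.H19.EN
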