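import Pool.Agent.H19.EN.Reg

/-!
# Module Loc: the `L¹` Poincaré inequality for `h = G exp(k |v-b|²)` on a ball

`h` is `C¹` (`G` is `C²`), `∂_j h = exp(k|v-b|²) G (lg_j + 2k (v_j - b_j))` (`Rg.mul_lg`; `hasFDerivAt_sq`, `pd_sq` for the exponential, see H48/NE/Mxw.lean for the same computation). On the ball `‖v‖ ≤ R`: `exp(k|v-b|²) ≤ E := exp(k d (R + ‖b‖)²)` (`sq_le`). `∫_B |∂_jh| ≤ E ∫ G |X_j|`, `X_j = lg_j + 2k (v_j-b_j)`, and by Cauchy-Schwarz
`∫ G |X_j| ≤ (∫ G wv⁻¹ X_j²)^(1/2) (∫ G wv)^(1/2) ≤ X √K`; without square roots: for `t > 0`, `G |X_j| ≤ (t/2) G wv + (1/(2t)) G wv⁻¹ X_j²`; with `t = X` if `X > 0`: `≤ X (K + 1)/2`; if `X = 0` let `t → 0` (or use `t` arbitrary). Integrability: `G wv⁻¹ X_j²` is `RD` (`rd_lg`, `G lg_j = ∂_jG`) and measurable. Sum over `j` and `poincare` (H15/AV/Poi.lean) for `u = h`.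
-/

set_option autoImplicit false

open MeasureTheory Set Filter Topology Pool.Agent.H25.Kin

namespace Pool.Agent.H19.EN

variable {d : ℕ}

private noncomputable def Loc_e (k : ℝ) (b v : Vec d) : ℝ := Real.exp (k * nsq (v - b))

private noncomputable def Loc_X (k : ℝ) (b : Vec d) (G : Vec d → ℝ) (j : Fin d) (v : Vec d) : ℝ :=
  lg G j v + 2 * k * (v j - b j)

private lemma Loc_smooth (k : ℝ) (b : Vec d) : ContDiff ℝ 1 (Loc_e k b) := by
  unfold Loc_e nsq
  fun_prop

private lemma Loc_pd_e (k : ℝ) (b : Vec d) (j : Fin d) (v : Vec d) :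
    pd j (Loc_e k b) v = Loc_e k b v * (2 * k * (v j - b j)) := by
  have h1 : HasFDerivAt (fun v : Vec d => nsq (v - b))
      (∑ i, (2 * (v - b) i) • ContinuousLinearMap.proj (R := ℝ) (φ := fun _ : Fin d => ℝ) i) v := by
    have := (hasFDerivAt_sq (v - b)).comp v ((hasFDerivAt_id v).sub_const b)
    rw [ContinuousLinearMap.comp_id] at this
    exact this
  have h2 := (h1.const_mul k).exp
  unfold pd
  have h3 : fderiv ℝ (Loc_e k b) v = _ := h2.fderiv
  rw [h3]
  simp [Pi.single_apply, Finset.sum_ite_eq']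
  unfold Loc_e
  ring

private lemma Loc_pd (k : ℝ) (b : Vec d) {G : Vec d → ℝ} (hG : Rg G) (j : Fin d) (v : Vec d) :
    pd j (fun v => G v * Loc_e k b v) v = Loc_e k b v * (G v * Loc_X k b G j v) := by
  have h1 : DifferentiableAt ℝ (Loc_e k b) v :=
    ((Loc_smooth k b).differentiable one_ne_zero) v
  have h2 := (hG.nice.diff v).hasFDerivAt.mul h1.hasFDerivAt
  have h3 : pd j (fun v => G v * Loc_e k b v) v =
      G v * pd j (Loc_e k b) v + Loc_e k b v * pd j G v := by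
    have h4 : fderiv ℝ (fun v => G v * Loc_e k b v) v = _ := h2.fderiv
    unfold pd
    rw [h4]
    simp
  rw [h3, Loc_pd_e]
  unfold Loc_X
  rw [← hG.mul_lg j v]
  ring

private lemma Loc_X_meas (k : ℝ) (b : Vec d) {G : Vec d → ℝ} (hG : Rg G) (j : Fin d) :
    Continuous (Loc_X k b G j) := by
  unfold Loc_X
  have := hG.lg_cont j
  fun_prop

private lemma Loc_F_rd (k : ℝ) (b : Vec d) {G : Vec d → ℝ} (hG : Rg G) (j : Fin d) :
    RD fun v => G v * (wv v)⁻¹ * Loc_X k b G j v ^ 2 := by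
  have hp : PG fun v : Vec d => 2 * k * (v j - b j) := by
    have h0 : PG fun v : Vec d => 2 * k * (v j + -b j) :=
      (PG.const (2 * k)).mul ((PG.coord j).add (PG.const (-b j)))
    simpa only [← sub_eq_add_neg] using h0
  have h1 := hG.rd_lg j j
  have h2 := (hG.nice.pd_RD j).mul_PG ((PG.const (2 : ℝ)).mul hp)
  have h3 := hG.nice.rd.mul_PG (hp.mul hp)
  refine ((h1.add h2).add h3).mono 1 fun v => ?_
  rw [one_mul]
  have e : G v * (wv v)⁻¹ * Loc_X k b G j v ^ 2 = (wv v)⁻¹ *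
      (G v * (lg G j v * lg G j v) + pd j G v * (2 * (2 * k * (v j - b j))) +
        G v * (2 * k * (v j - b j) * (2 * k * (v j - b j)))) := by
    rw [← hG.mul_lg j v]
    unfold Loc_X
    ring
  rw [e, norm_mul]
  have h4 : ‖(wv v)⁻¹‖ ≤ 1 := by
    rw [Real.norm_of_nonneg (inv_nonneg.2 (wv_pos v).le)]
    exact inv_le_one_of_one_le₀ (wv_ge v)
  exact (mul_le_mul_of_nonneg_right h4 (norm_nonneg _)).trans (by rw [one_mul])

private lemma Loc_F_int (k : ℝ) (b : Vec d) {G : Vec d → ℝ} (hG : Rg G) (j : Fin d) :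
    Integrable fun v => G v * (wv v)⁻¹ * Loc_X k b G j v ^ 2 :=
  (Loc_F_rd k b hG j).integrable ((hG.nice.cont.measurable.mul wv_cont.measurable.inv).mul
    ((Loc_X_meas k b hG j).measurable.pow_const 2)).aestronglyMeasurable

private lemma Loc_pt {G : Vec d → ℝ} (hG : Rg G) (x : ℝ) (v : Vec d) {t : ℝ} (ht : 0 < t) :
    G v * |x| ≤ t / 2 * (G v * wv v) + 1 / (2 * t) * (G v * (wv v)⁻¹ * x ^ 2) := by
  have hg := hG.pos v
  have hw := wv_pos v
  have e : t / 2 * (G v * wv v) + 1 / (2 * t) * (G v * (wv v)⁻¹ * x ^ 2) - G v * |x| =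
      G v * (wv v)⁻¹ / (2 * t) * (t * wv v - |x|) ^ 2 := by
    have : (t * wv v - |x|) ^ 2 = t ^ 2 * wv v ^ 2 - 2 * t * wv v * |x| + x ^ 2 := by
      rw [← sq_abs x]; ring
    rw [this]
    field_simp
    ring
  have h1 : 0 ≤ G v * (wv v)⁻¹ / (2 * t) * (t * wv v - |x|) ^ 2 := by positivity
  linarith

private lemma Loc_abs (k : ℝ) (b : Vec d) {K : ℝ} (hK : 0 ≤ K) {G : Vec d → ℝ} (hG : Rg G)
    (hGK : ∫ v, G v * wv v ≤ K) {X : ℝ} (hX : 0 ≤ X) (j : Fin d)
    (hj : ∫ v, G v * (wv v)⁻¹ * Loc_X k b G j v ^ 2 ≤ X ^ 2) :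
    Integrable (fun v => G v * |Loc_X k b G j v|) ∧
      ∫ v, G v * |Loc_X k b G j v| ≤ (K + 1) / 2 * X := by
  have hw : Integrable fun v => G v * wv v := hG.int_wv wv_cont.measurable wv_PG
  have hF := Loc_F_int k b hG j
  have hi : Integrable (fun v => G v * |Loc_X k b G j v|) := by
    refine ((hw.const_mul (1 / 2)).add (hF.const_mul (1 / (2 * 1)))).mono'
      (hG.nice.cont.mul (Loc_X_meas k b hG j).abs).aestronglyMeasurable
      (Filter.Eventually.of_forall fun v => ?_)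
    rw [Real.norm_of_nonneg (mul_nonneg (hG.pos v).le (abs_nonneg _))]
    exact Loc_pt hG _ v one_pos
  refine ⟨hi, ?_⟩
  have h1 : ∀ t : ℝ, 0 < t → ∫ v, G v * |Loc_X k b G j v| ≤ t / 2 * K + 1 / (2 * t) * X ^ 2 := by
    intro t ht
    have h2 : ∫ v, G v * |Loc_X k b G j v| ≤ ∫ v, (t / 2 * (G v * wv v) +
        1 / (2 * t) * (G v * (wv v)⁻¹ * Loc_X k b G j v ^ 2)) :=
      integral_mono hi ((hw.const_mul _).add (hF.const_mul _)) fun v => Loc_pt hG _ v ht
    rw [integral_add (hw.const_mul _) (hF.const_mul _), integral_const_mul,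
      integral_const_mul] at h2
    refine h2.trans (add_le_add ?_ ?_)
    · exact mul_le_mul_of_nonneg_left hGK (by positivity)
    · exact mul_le_mul_of_nonneg_left hj (by positivity)
  rcases hX.eq_or_lt with h0 | h0
  · rw [← h0, mul_zero]
    refine le_of_forall_pos_le_add fun ε hε => ?_
    have h3 := h1 (ε / (K + 1)) (by positivity)
    rw [← h0] at h3
    have h4 : ε / (K + 1) / 2 * K ≤ ε := by
      rw [div_div, div_mul_eq_mul_div, div_le_iff₀ (by positivity)]
      nlinarith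
    simp only [ne_eq, OfNat.ofNat_ne_zero, not_false_eq_true, zero_pow, mul_zero, add_zero] at h3
    linarith
  · have h3 := h1 X h0
    have h4 : X / 2 * K + 1 / (2 * X) * X ^ 2 = (K + 1) / 2 * X := by
      field_simp
    linarith

private lemma Loc_bd {k R : ℝ} (hk : 0 < k) (b : Vec d) {v : Vec d}
    (hv : v ∈ Metric.closedBall (0 : Vec d) R) :
    Loc_e k b v ≤ Real.exp (k * (d * (R + ‖b‖) ^ 2)) := by
  unfold Loc_e
  refine Real.exp_le_exp.2 (mul_le_mul_of_nonneg_left ((sq_le _).trans ?_) hk.le)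
  refine mul_le_mul_of_nonneg_left (pow_le_pow_left₀ (norm_nonneg _) ?_ 2) (Nat.cast_nonneg d)
  rw [mem_closedBall_zero_iff] at hv
  exact (norm_sub_le v b).trans (by linarith)

theorem loc {k R : ℝ} (hk : 0 < k) (hR : 0 < R) (b : Vec d) {K : ℝ} (hK : 0 ≤ K) :
    ∃ C : ℝ, 0 ≤ C ∧ ∀ G : Vec d → ℝ, Rg G → ∫ v, G v * wv v ≤ K → ∀ X : ℝ, 0 ≤ X →
      (∀ j, ∫ v, G v * (wv v)⁻¹ * (lg G j v + 2 * k * (v j - b j)) ^ 2 ≤ X ^ 2) →
      ∫ p in Metric.closedBall (0 : Vec d) R ×ˢ Metric.closedBall (0 : Vec d) R,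
        |G p.1 * Real.exp (k * nsq (p.1 - b)) - G p.2 * Real.exp (k * nsq (p.2 - b))| ≤ C * X := by
  obtain ⟨C0, hC0, hC⟩ := Pool.Agent.H15.AV.poincare d hR
  refine ⟨C0 * (d * (Real.exp (k * (d * (R + ‖b‖) ^ 2)) * ((K + 1) / 2))), by positivity, ?_⟩
  intro G hG hGK X hX hj
  have hsm : ContDiff ℝ 1 (fun v => G v * Loc_e k b v) :=
    (hG.nice.smooth.of_le (by norm_num)).mul (Loc_smooth k b)
  have h1 := hC (fun v => G v * Loc_e k b v) hsm
  refine h1.trans ?_
  have hcB : IsCompact (Metric.closedBall (0 : Vec d) R) := isCompact_closedBall _ _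
  have hmB : MeasurableSet (Metric.closedBall (0 : Vec d) R) := Metric.isClosed_closedBall.measurableSet
  have hpc : ∀ j : Fin d, Continuous (pd j fun v => G v * Loc_e k b v) := fun j =>
    (hsm.continuous_fderiv one_ne_zero).clm_apply continuous_const
  have h2 : ∫ v in Metric.closedBall (0 : Vec d) R, ∑ j, |pd j (fun v => G v * Loc_e k b v) v| ≤
      d * (Real.exp (k * (d * (R + ‖b‖) ^ 2)) * ((K + 1) / 2)) * X := by
    rw [integral_finsetSum _ fun j _ => (hpc j).abs.continuousOn.integrableOn_compact hcB]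
    have h3 : ∀ j ∈ (Finset.univ : Finset (Fin d)),
        ∫ v in Metric.closedBall (0 : Vec d) R, |pd j (fun v => G v * Loc_e k b v) v| ≤
          Real.exp (k * (d * (R + ‖b‖) ^ 2)) * ((K + 1) / 2) * X := by
      intro j _
      obtain ⟨i1, i2⟩ := Loc_abs k b hK hG hGK hX j (hj j)
      calc ∫ v in Metric.closedBall (0 : Vec d) R, |pd j (fun v => G v * Loc_e k b v) v|
          ≤ ∫ v in Metric.closedBall (0 : Vec d) R, Real.exp (k * (d * (R + ‖b‖) ^ 2)) *
              (G v * |Loc_X k b G j v|) := by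
            refine setIntegral_mono_on ((hpc j).abs.continuousOn.integrableOn_compact hcB)
              (i1.const_mul _).integrableOn hmB fun v hv => ?_
            rw [Loc_pd k b hG j v, abs_mul, abs_mul, abs_of_pos (hG.pos v),
              abs_of_pos (show 0 < Loc_e k b v from Real.exp_pos _)]
            exact mul_le_mul_of_nonneg_right (Loc_bd hk b hv)
              (mul_nonneg (hG.pos v).le (abs_nonneg _))
        _ ≤ ∫ v, Real.exp (k * (d * (R + ‖b‖) ^ 2)) * (G v * |Loc_X k b G j v|) := by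
            refine setIntegral_le_integral (i1.const_mul _) (Filter.Eventually.of_forall fun v => ?_)
            exact mul_nonneg (Real.exp_pos _).le (mul_nonneg (hG.pos v).le (abs_nonneg _))
        _ ≤ Real.exp (k * (d * (R + ‖b‖) ^ 2)) * ((K + 1) / 2) * X := by
            rw [integral_const_mul, mul_assoc]
            exact mul_le_mul_of_nonneg_left i2 (Real.exp_pos _).le
    refine (Finset.sum_le_sum h3).trans (le_of_eq ?_)
    rw [Finset.sum_const, Finset.card_univ, Fintype.card_fin, nsmul_eq_mul]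
    ring
  calc C0 * ∫ v in Metric.closedBall (0 : Vec d) R, ∑ j, |pd j (fun v => G v * Loc_e k b v) v|
      ≤ C0 * (d * (Real.exp (k * (d * (R + ‖b‖) ^ 2)) * ((K + 1) / 2)) * X) :=
        mul_le_mul_of_nonneg_left h2 hC0
    _ = _ := by ring

end Pool.Agent.H19.EN
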