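import Pool.Agent.H19.EN.Defs

/-!
# Module Reg: regularity of `G = g + δ gau`, test functions

`rg_add`: copy from Pool/Agent/H15/AV/LH.lean (the private lemmas there and the first half of the proof of `hth_landau`): a Nice nonnegative `g` is `UNice C` for some `C` (from `hg.rd, hg.rd1, hg.rd2`: `choose` the three constants for every `N` and add them), `lh_nice_add`, `lh_unice`,
`|log (g + δ gau)| ≤ -log δ + nsq v + log (max (C 0) 0 + 1)`, `grad_sq_le` (H15/AV/LE.lean) for the squares.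
`gau_le_Wp`: `gau v = exp(-|v|²)` is `nice_gau.rd`, and `Wp q v = ((1+|v|²)^q)⁻¹`, `1+|v|² ≤ (d+1)(1+‖v‖)²` (`sq_le`).
`Rg.lg_cont`: `pd i G` is continuous (`hG.nice.pd_cont i`), `G` continuous and positive. `Rg.rd_lg`: `G lg_i lg_j = ∂_iG ∂_jG/G`, `|.| ≤ (∂_iG)²/G + (∂_jG)²/G`.
`TF.of_PG`: `RD.mul_PG`. `TF.rf`: `ψ = R_ij/⟨v⟩²`: `G ψ = (Θ_ii ∂_jG - Θ_ij ∂_iG + m0 (v_j-c_j) G)/⟨v⟩²` is `RD`; `∂_lG ψ = (Θ_ii ∂_lG lg_j - Θ_ij ∂_lG lg_i + m0 (v_j-c_j) ∂_lG)/⟨v⟩²`, `∂_lG lg_j = G lg_l lg_j`; `G ψ²`: square of a sum of three terms, products `G lg lg`, `∂G (v_j-c_j)`, `G (v_j-c_j)²`; `|⟨v⟩⁻²| ≤ 1` (use `RD.mono` or `mul_PG`).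
`intg`: `RD` and measurable implies integrable (`RD.integrable`).
-/

set_option autoImplicit false

open MeasureTheory Set Filter Topology Pool.Agent.H25.Kin
open Pool.Agent.H15.AV (gau)
open Pool.Agent.H48.PR (Wp)
open Pool.Agent.H48.NE (mx)

namespace Pool.Agent.H19.EN

variable {d : ℕ}

private theorem Reg_gau_pos (v : Vec d) : 0 < gau v := Real.exp_pos _

private theorem Reg_gau_le_one (v : Vec d) : gau v ≤ 1 := by
  unfold gau
  exact Real.exp_le_one_iff.2 (neg_nonpos.2 (sq_nonneg' v))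

private theorem Reg_nice_add {g : Vec d → ℝ} (hg : Nice g) (δ : ℝ) :
    Nice fun v => g v + δ * gau v := by
  have hm := Pool.Agent.H15.AV.nice_gau (d := d)
  have e1 : fderiv ℝ (fun v => g v + δ * gau v) = fun v => fderiv ℝ g v + δ • fderiv ℝ gau v := by
    funext v
    exact ((hg.diff v).hasFDerivAt.add ((hm.diff v).hasFDerivAt.const_mul δ)).fderiv
  have e2 : fderiv ℝ (fderiv ℝ (fun v => g v + δ * gau v)) =
      fun v => fderiv ℝ (fderiv ℝ g) v + δ • fderiv ℝ (fderiv ℝ gau) v := by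
    rw [e1]
    funext v
    exact ((hg.diff1 v).hasFDerivAt.add ((hm.diff1 v).hasFDerivAt.const_smul δ)).fderiv
  have r : ∀ {E : Type} [NormedAddCommGroup E] [NormedSpace ℝ E] (h : Vec d → E), RD h →
      RD fun v => δ • h v := by
    intro E _ _ h hh
    refine hh.mono |δ| fun v => ?_
    rw [norm_smul, Real.norm_eq_abs]
  refine ⟨hg.smooth.add (contDiff_const.mul hm.smooth), ?_, ?_, ?_⟩
  · exact hg.rd.add (r _ hm.rd)
  · rw [e1]; exact hg.rd1.add (r _ hm.rd1)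
  · rw [e2]; exact hg.rd2.add (r _ hm.rd2)

private theorem Reg_unice {G : Vec d → ℝ} (hG : Nice G) (h0 : ∀ v, 0 ≤ G v) :
    ∃ C : ℕ → ℝ, Pool.Agent.H15.AV.UNice C G := by
  have r0 : ∀ N, ∃ a, ∀ v : Vec d, (1 + ‖v‖) ^ N * ‖G v‖ ≤ a := hG.rd
  have r1 : ∀ N, ∃ a, ∀ v : Vec d, (1 + ‖v‖) ^ N * ‖fderiv ℝ G v‖ ≤ a := hG.rd1
  have r2 : ∀ N, ∃ a, ∀ v : Vec d, (1 + ‖v‖) ^ N * ‖fderiv ℝ (fderiv ℝ G) v‖ ≤ a := hG.rd2
  choose a0 ha0 using r0
  choose a1 ha1 using r1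
  choose a2 ha2 using r2
  refine ⟨fun N => a0 N + a1 N + a2 N, hG, h0, fun N v => ?_⟩
  have b0 := ha0 N v
  rw [Real.norm_eq_abs, abs_of_nonneg (h0 v)] at b0
  have b1 := ha1 N v
  have b2 := ha2 N v
  calc (1 + ‖v‖) ^ N * (G v + ‖fderiv ℝ G v‖ + ‖fderiv ℝ (fderiv ℝ G) v‖)
      = (1 + ‖v‖) ^ N * G v + (1 + ‖v‖) ^ N * ‖fderiv ℝ G v‖ +
        (1 + ‖v‖) ^ N * ‖fderiv ℝ (fderiv ℝ G) v‖ := by ring
    _ ≤ a0 N + a1 N + a2 N := by linarith

theorem rg_add {g : Vec d → ℝ} (hg : Nice g) (h0 : ∀ v, 0 ≤ g v) {δ : ℝ} (hδ : δ ∈ Ioc (0 : ℝ) 1) :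
    Rg fun v => g v + δ * gau v := by
  have hδ0 : 0 < δ := hδ.1
  have hG := Reg_nice_add hg δ
  have hpos : ∀ v, 0 < g v + δ * gau v := fun v =>
    add_pos_of_nonneg_of_pos (h0 v) (mul_pos hδ0 (Reg_gau_pos v))
  obtain ⟨C, hC⟩ := Reg_unice hG fun v => (hpos v).le
  obtain ⟨C2, hC2⟩ := Pool.Agent.H15.AV.grad_sq_le (d := d) C
  obtain ⟨M, hM⟩ := hG.rd 0
  have hM' : ∀ v, g v + δ * gau v ≤ max M 0 + 1 := by
    intro v
    have := hM v
    rw [pow_zero, one_mul, Real.norm_eq_abs] at this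
    have h1 := le_abs_self (g v + δ * gau v)
    have h2 := le_max_left M 0
    linarith
  have hlog0 : 0 ≤ Real.log (max M 0 + 1) := Real.log_nonneg (by
    have := le_max_right M 0; linarith)
  have hlogle : ∀ v, |Real.log (g v + δ * gau v)| ≤
      -Real.log δ + nsq v + Real.log (max M 0 + 1) := by
    intro v
    have hlδ : Real.log δ ≤ 0 := Real.log_nonpos hδ0.le hδ.2
    have hn := sq_nonneg' v
    rw [abs_le]
    constructor
    · have h3 : Real.log (δ * gau v) ≤ Real.log (g v + δ * gau v) :=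
        Real.log_le_log (mul_pos hδ0 (Reg_gau_pos v)) (by linarith [h0 v])
      have h4 : Real.log (δ * gau v) = Real.log δ - nsq v := by
        rw [Real.log_mul hδ0.ne' (Reg_gau_pos v).ne']
        unfold gau
        rw [Real.log_exp]
        ring
      rw [h4] at h3
      linarith
    · have h6 := Real.log_le_log (hpos v) (hM' v)
      linarith
  refine ⟨hG, hpos, ?_, ?_⟩
  · have hp : PG fun v : Vec d => -Real.log δ + nsq v + Real.log (max M 0 + 1) :=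
      ((PG.const (-Real.log δ)).add PG.nsq).add (PG.const _)
    obtain ⟨N, K, hK⟩ := hp
    refine ⟨N, K, fun v => ?_⟩
    rw [Real.norm_eq_abs]
    refine (hlogle v).trans ((le_abs_self _).trans ?_)
    have := hK v
    rwa [Real.norm_eq_abs] at this
  · intro i N
    refine ⟨C2 N, fun v => ?_⟩
    have h3 := hC2 _ hC i N v
    have hp := hpos v
    rw [Real.norm_eq_abs, abs_of_nonneg (by positivity), ← mul_div_assoc, div_le_iff₀ hp]
    exact h3

theorem gau_le_Wp (q : ℕ) : ∃ C : ℝ, 0 < C ∧ ∀ v : Vec d, gau v ≤ C * Wp q v := by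
  obtain ⟨C, hC⟩ := (Pool.Agent.H15.AV.nice_gau (d := d)).rd (2 * q)
  have hd : (0 : ℝ) ≤ d := Nat.cast_nonneg d
  have hC0 : 0 ≤ C := le_trans (by positivity) (hC 0)
  refine ⟨(C + 1) * ((d : ℝ) + 1) ^ q, by positivity, fun v => ?_⟩
  have hw := w_pos v
  have h1 := hC v
  rw [Real.norm_eq_abs, abs_of_pos (Reg_gau_pos v)] at h1
  have h2 : 1 + nsq v ≤ ((d : ℝ) + 1) * (1 + ‖v‖) ^ 2 := by
    have h3 := sq_le v
    have h4 : (1 : ℝ) ≤ (1 + ‖v‖) ^ 2 := one_le_pow₀ (one_le_w v)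
    have h5 : ‖v‖ ^ 2 ≤ (1 + ‖v‖) ^ 2 :=
      pow_le_pow_left₀ (norm_nonneg v) (by linarith [norm_nonneg v]) 2
    have h6 := mul_le_mul_of_nonneg_left h5 hd
    linarith
  have h3 : 0 < 1 + nsq v := by linarith [sq_nonneg' v]
  have h4 : (1 + nsq v) ^ q ≤ ((d : ℝ) + 1) ^ q * (1 + ‖v‖) ^ (2 * q) := by
    have := pow_le_pow_left₀ h3.le h2 q
    rwa [mul_pow, ← pow_mul] at this
  unfold Pool.Agent.H48.PR.Wp
  rw [← div_eq_mul_inv, le_div_iff₀ (pow_pos h3 q)]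
  calc gau v * (1 + nsq v) ^ q ≤ gau v * (((d : ℝ) + 1) ^ q * (1 + ‖v‖) ^ (2 * q)) :=
        mul_le_mul_of_nonneg_left h4 (Reg_gau_pos v).le
    _ = ((1 + ‖v‖) ^ (2 * q) * gau v) * ((d : ℝ) + 1) ^ q := by ring
    _ ≤ (C + 1) * ((d : ℝ) + 1) ^ q :=
        mul_le_mul_of_nonneg_right (by linarith) (by positivity)

theorem Rg.lg_cont {G : Vec d → ℝ} (hG : Rg G) (i : Fin d) : Continuous (lg G i) := by
  unfold lg
  exact (hG.nice.pd_cont i).div hG.nice.cont fun v => (hG.pos v).ne'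

theorem Rg.mul_lg {G : Vec d → ℝ} (hG : Rg G) (i : Fin d) (v : Vec d) : G v * lg G i v = pd i G v := by
  unfold lg
  exact mul_div_cancel₀ _ (hG.pos v).ne'

theorem Rg.rd_lg {G : Vec d → ℝ} (hG : Rg G) (i j : Fin d) :
    RD fun v => G v * (lg G i v * lg G j v) := by
  refine ((hG.sq i).add (hG.sq j)).mono 1 fun v => ?_
  have hp := hG.pos v
  have e : G v * (lg G i v * lg G j v) = pd i G v * pd j G v / G v := by
    unfold lg
    field_simp
  have h1 : 0 ≤ pd i G v ^ 2 / G v + pd j G v ^ 2 / G v := by positivity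
  rw [one_mul, Real.norm_eq_abs, Real.norm_eq_abs, abs_of_nonneg h1, e, abs_div, abs_of_pos hp,
    ← add_div, div_le_div_iff_of_pos_right hp, abs_mul]
  nlinarith [sq_abs (pd i G v), sq_abs (pd j G v), sq_nonneg (|pd i G v| - |pd j G v|),
    sq_nonneg (pd i G v), sq_nonneg (pd j G v)]

theorem TF.of_PG {G : Vec d → ℝ} (hG : Rg G) {ψ : Vec d → ℝ} (hm : Measurable ψ) (hp : PG ψ) : TF G ψ := by
  refine ⟨hm, hG.nice.rd.mul_PG hp, fun j => (hG.nice.pd_RD j).mul_PG hp, ?_⟩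
  have h := hG.nice.rd.mul_PG (hp.mul hp)
  refine h.mono 1 fun v => ?_
  rw [one_mul, pow_two]

theorem TF.rf {G : Vec d → ℝ} (hG : Rg G) (i j : Fin d) :
    TF G fun v => Rf G i j v * (wv v)⁻¹ := by
  have hlg := hG.lg_cont
  -- the weight
  have hwc : Continuous fun v : Vec d => (wv v)⁻¹ := wv_cont.inv₀ fun v => (wv_pos v).ne'
  have hw1 : PG fun v : Vec d => (wv v)⁻¹ := by
    refine ⟨0, 1, fun v => ?_⟩
    rw [pow_zero, mul_one, Real.norm_eq_abs, abs_of_pos (inv_pos.2 (wv_pos v))]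
    exact inv_le_one_of_one_le₀ (wv_ge v)
  have hcPG : PG fun v : Vec d => v j - ct G j := by
    have h := (PG.coord (d := d) j).add (PG.const (-ct G j))
    refine h.casesOn fun N h => ⟨N, ?_⟩
    obtain ⟨C, hC⟩ := h
    exact ⟨C, fun v => by simpa [sub_eq_add_neg] using hC v⟩
  -- products with the components
  have hR : ∀ F : Vec d → ℝ, RD (fun v => F v * lg G j v) → RD (fun v => F v * lg G i v) →
      RD F → RD fun v => F v * (Rf G i j v * (wv v)⁻¹) := by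
    intro F f1 f2 f3
    have h1 := (((f1.mul_PG (PG.const (Th G i i))).sub (f2.mul_PG (PG.const (Th G i j)))).add
      ((f3.mul_PG hcPG).mul_PG (PG.const (m0 G)))).mul_PG hw1
    refine h1.mono 1 fun v => ?_
    rw [one_mul]
    refine le_of_eq (congrArg _ ?_)
    unfold Rf
    ring
  have hrd : ∀ l : Fin d, RD fun v => G v * lg G l v := fun l => by
    have h := hG.nice.pd_RD l
    refine h.mono 1 fun v => ?_
    rw [one_mul, hG.mul_lg l v]
  have hrd2 : ∀ l k : Fin d, RD fun v => pd l G v * lg G k v := fun l k => by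
    refine (hG.rd_lg l k).mono 1 fun v => ?_
    rw [one_mul, ← mul_assoc, hG.mul_lg l v]
  have hmeas : Continuous fun v => Rf G i j v * (wv v)⁻¹ := by
    unfold Rf
    exact ((((continuous_const.mul (hlg j)).sub (continuous_const.mul (hlg i))).add
      (continuous_const.mul ((continuous_apply j).sub continuous_const)))).mul hwc
  refine ⟨hmeas.measurable, hR G (hrd j) (hrd i) hG.nice.rd, fun l => hR _ (hrd2 l j) (hrd2 l i)
    (hG.nice.pd_RD l), ?_⟩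
  have h1 := ((((hG.rd_lg j j).mul_PG (PG.const (Th G i i ^ 2))).add
    ((hG.rd_lg i i).mul_PG (PG.const (Th G i j ^ 2)))).add
    ((hG.nice.rd.mul_PG (hcPG.mul hcPG)).mul_PG (PG.const (m0 G ^ 2))))
  refine h1.mono 3 fun v => ?_
  have hp := hG.pos v
  have hw0 : 0 < (wv v)⁻¹ := inv_pos.2 (wv_pos v)
  have hw2 : (wv v)⁻¹ ≤ 1 := inv_le_one_of_one_le₀ (wv_ge v)
  have hw3 : (wv v)⁻¹ ^ 2 ≤ 1 := pow_le_one₀ hw0.le hw2
  set a := Th G i i * lg G j v with ha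
  set b := Th G i j * lg G i v with hb
  set c := m0 G * (v j - ct G j) with hc
  have e1 : G v * (Rf G i j v * (wv v)⁻¹) ^ 2 = G v * ((a - b + c) ^ 2 * (wv v)⁻¹ ^ 2) := by
    unfold Rf
    rw [mul_pow]
  have e2 : G v * (lg G j v * lg G j v) * Th G i i ^ 2 + G v * (lg G i v * lg G i v) * Th G i j ^ 2 +
      G v * ((v j - ct G j) * (v j - ct G j)) * m0 G ^ 2 = G v * (a ^ 2 + b ^ 2 + c ^ 2) := by
    rw [ha, hb, hc]
    ring
  rw [e1, e2, Real.norm_eq_abs, Real.norm_eq_abs, abs_of_nonneg (by positivity),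
    abs_of_nonneg (by positivity)]
  have h3 : (a - b + c) ^ 2 * (wv v)⁻¹ ^ 2 ≤ 3 * (a ^ 2 + b ^ 2 + c ^ 2) := by
    calc (a - b + c) ^ 2 * (wv v)⁻¹ ^ 2 ≤ (a - b + c) ^ 2 * 1 :=
          mul_le_mul_of_nonneg_left hw3 (sq_nonneg _)
      _ ≤ 3 * (a ^ 2 + b ^ 2 + c ^ 2) := by
          nlinarith [sq_nonneg (a + b), sq_nonneg (a - c), sq_nonneg (b + c)]
  calc G v * ((a - b + c) ^ 2 * (wv v)⁻¹ ^ 2) ≤ G v * (3 * (a ^ 2 + b ^ 2 + c ^ 2)) :=
        mul_le_mul_of_nonneg_left h3 hp.le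
    _ = 3 * (G v * (a ^ 2 + b ^ 2 + c ^ 2)) := by ring

/-- integrability of weighted integrals over the bounded class -/
theorem Rg.int_wv {G : Vec d → ℝ} (hG : Rg G) {h : Vec d → ℝ} (hm : Measurable h) (hp : PG h) :
    Integrable fun v => G v * h v := by
  exact (hG.nice.rd.mul_PG hp).integrable (hG.nice.cont.measurable.mul hm).aestronglyMeasurable

end Pool.Agent.H19.EN
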